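import Mathlib

/-!
# Links, Reidemeister moves and surfaces in the 4-ball, combinatorially

Links in `S^3` are given by planar signed Gauss codes, and properly embedded surfaces in `D^4`
by movies of such codes: Reidemeister moves, births, deaths and saddles.
-/

set_option autoImplicit false

namespace Pool.Agent.Helper64.Chi

/-- One passage of a strand through a crossing: the name `x` of the crossing, whether the
strand passes over, and whether the crossing is positive. -/
structure Visit where
  x : ℕ
  up : Bool
  pos : Bool
deriving DecidableEq

/-- The cyclic sequence of the passages along one oriented component (cut open somewhere). -/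
abbrev Word := List Visit

/-- An oriented link diagram, as the multiset of its components. Each component carries a
number (the name of the component of the surface which it lies on, or a colour). -/
abbrev Diagram := Multiset (ℕ × Word)

/-! ### Planarity -/

/-- The passage that follows `v` in the cyclic word `w` (and `v` itself if `v` is not in `w`). -/
def nextIn (w : Word) (v : Visit) : Visit :=
  ((w.zip (w.rotate 1)).lookup v).getD v

/-- The passage following `v` in its component. -/
def next (l : List Word) (v : Visit) : Visit :=
  match l.find? (fun w => decide (v ∈ w)) with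
  | some w => nextIn w v
  | none => v

/-- The passage preceding `v` in its component. -/
def prev (l : List Word) (v : Visit) : Visit :=
  next (l.map List.reverse) v

/-- The other passage through the same crossing. -/
def other (v : Visit) : Visit := ⟨v.x, !v.up, v.pos⟩

/-- Every crossing that occurs occurs exactly twice, once as an over- and once as an
under-passage, with the same sign. -/
def ValidCode (s : Multiset Visit) : Prop :=
  ∀ v ∈ s, s.filter (fun u => u.x = v.x) = {v, other v}

instance (s : Multiset Visit) : Decidable (ValidCode s) := by
  unfold ValidCode; infer_instance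

/-- A dart is an end of an edge at a crossing: the passage, and whether the edge leaves the
crossing (`true`) or enters it (`false`) there. `turn l d` follows the edge from `d` to its
other end and then turns to the next dart in counterclockwise order at that crossing. The
orbits of `turn l` on the darts are the boundary curves of the faces. -/
def turn (l : List Word) (d : Visit × Bool) : Visit × Bool :=
  let e : Visit × Bool := if d.2 then (next l d.1, false) else (prev l d.1, true)
  (other e.1, if e.1.up = e.1.pos then e.2 else !e.2)

/-- The orbit of `d` under `f`, listed from `f d` up to the return to `d` (at most `n` steps). -/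
def orbitFrom {α : Type} [DecidableEq α] (f : α → α) (d : α) : ℕ → α → List α
  | 0, _ => []
  | n + 1, e => if e = d then [] else e :: orbitFrom f d n (f e)

/-- Count the orbits of a permutation `f` on a list. -/
def countOrbits {α : Type} [DecidableEq α] (f : α → α) (N : ℕ) : ℕ → List α → ℕ
  | 0, _ => 0
  | _ + 1, [] => 0
  | n + 1, d :: t =>
      let o := orbitFrom f d N (f d)
      countOrbits f N n (t.filter fun e => decide (e ∉ o)) + 1

/-- The words that share a crossing with one of the words in `s`. -/
def touching (s l : List Word) : List Word :=
  l.filter fun w => w.any fun v => s.any fun u => u.any fun a => a.x == v.x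

/-- Count the connected pieces of the projection. -/
def countPieces : ℕ → List Word → ℕ
  | 0, _ => 0
  | _ + 1, [] => 0
  | n + 1, w :: t =>
      let s := (touching · (w :: t))^[t.length + 1] [w]
      countPieces n (t.filter fun u => decide (u ∉ s)) + 1

/-- Euler's formula `V - E + F = 1 + (number of pieces)`, summed over the pieces: the number of
face boundaries is the number of crossings plus twice the number of connected pieces
(components without crossings play no role). -/
def eulerOK (l : List Word) : Prop :=
  let l' := l.filter fun w => !w.isEmpty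
  let vs : List Visit := l'.flatten
  let ds : List (Visit × Bool) := vs.flatMap fun v => [(v, true), (v, false)]
  2 * countOrbits (turn l') (ds.length) (ds.length) ds
    = vs.length + 4 * countPieces l'.length l'

instance (l : List Word) : Decidable (eulerOK l) := by
  unfold eulerOK; infer_instance

/-- All passages of a diagram. -/
def visits (D : Diagram) : Multiset Visit := D.bind fun p => (p.2 : Multiset Visit)

/-- The diagram is the Gauss code of a link diagram in the plane (or sphere). -/
def Planar (D : Diagram) : Prop :=
  ValidCode (visits D) ∧ ∃ l : List (ℕ × Word), (l : Multiset (ℕ × Word)) = D ∧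
    eulerOK (l.map Prod.snd)

/-! ### Isotopy -/

/-- A word with holes, numbered `0, 1, 2`. -/
abbrev HWord := List (Visit ⊕ Fin 3)

/-- Put the word `f i` into the hole `i`. -/
def fillW (f : Fin 3 → Word) (w : HWord) : Word := w.flatMap (Sum.elim (fun v => [v]) f)

/-- A diagram with holes. -/
abbrev Context := Multiset (ℕ × HWord)

/-- Put the words `f 0, f 1, f 2` into the holes. -/
def fill (E : Context) (f : Fin 3 → Word) : Diagram := E.map fun p => (p.1, fillW f p.2)

/-- The list of all holes. -/
def holes (E : Context) : Multiset (Fin 3) :=
  E.bind fun p => ((p.2.filterMap Sum.getRight? : List (Fin 3)) : Multiset (Fin 3))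

/-- The crossings in `X` do not occur in `E`. -/
def Avoids (E : Context) (X : List ℕ) : Prop := ∀ p ∈ E, ∀ v : Visit, Sum.inl v ∈ p.2 → v.x ∉ X

/-- The two sides of the third Reidemeister move (`d = true` and `d = false`). Strand 0 passes
over strand 1 (crossing `x`) and over strand 2 (crossing `y`), strand 1 passes over strand 2
(crossing `z`); `a`, `b`, `c` are the signs of `x`, `y`, `z`. -/
def triangle (x y z : ℕ) (a b c d : Bool) : Fin 3 → Word :=
  ![if (d == a) == (b == c) then [⟨x, true, a⟩, ⟨y, true, b⟩] else [⟨y, true, b⟩, ⟨x, true, a⟩],
    if d == a then [⟨x, false, a⟩, ⟨z, true, c⟩] else [⟨z, true, c⟩, ⟨x, false, a⟩],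
    if d == b then [⟨y, false, b⟩, ⟨z, false, c⟩] else [⟨z, false, c⟩, ⟨y, false, b⟩]]

/-- The oriented Reidemeister moves: what is put into the three holes before and after the move,
and the crossings involved. -/
inductive Reid : (Fin 3 → Word) → (Fin 3 → Word) → List ℕ → Prop
  | r1 (x : ℕ) (o s : Bool) : Reid ![[], [], []] ![[⟨x, o, s⟩, ⟨x, !o, s⟩], [], []] [x]
  | r2 (x y : ℕ) (s parallel : Bool) : x ≠ y →
      Reid ![[], [], []]
        ![[⟨x, true, s⟩, ⟨y, true, !s⟩],
          if parallel then [⟨x, false, s⟩, ⟨y, false, !s⟩]
            else [⟨y, false, !s⟩, ⟨x, false, s⟩], []] [x, y]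
  | r3 (x y z : ℕ) (a b c : Bool) : [x, y, z].Nodup →
      Reid (triangle x y z a b c true) (triangle x y z a b c false) [x, y, z]

/-- Elementary changes of Gauss codes: rotation of a cyclic word, renaming of the crossings, and
the Reidemeister moves. -/
inductive RMove : Diagram → Diagram → Prop
  | rot (c : ℕ) (u v : Word) (D : Diagram) : RMove ((c, u ++ v) ::ₘ D) ((c, v ++ u) ::ₘ D)
  | rename (π : Equiv.Perm ℕ) (D : Diagram) :
      RMove D (D.map fun p => (p.1, p.2.map fun v => ⟨π v.x, v.up, v.pos⟩))
  | reid {f g : Fin 3 → Word} {X : List ℕ} (E : Context) :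
      holes E = {0, 1, 2} → Avoids E X → Reid f g X → RMove (fill E f) (fill E g)

/-! ### Surfaces -/

/-- Change the sign of every crossing through which the word `w` passes exactly once. -/
def flipV (w : Word) (v : Visit) : Visit :=
  if (w.filter fun a => a.x = v.x).length = 1 then ⟨v.x, v.up, !v.pos⟩ else v

/-- Change the sign of every crossing through which the word `w` passes exactly once. -/
def flipSigns (w : Word) (D : Diagram) : Diagram := D.map fun p => (p.1, p.2.map (flipV w))

/-- `Bounds D χ o`: the link with diagram `D` bounds a properly embedded surface in `D^4`, each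
component of which meets `S^3`. The number attached to a component of `D` names the component of
the surface it lies on; `χ c` is the Euler characteristic of the component `c` of the surface,
and if `o c = true` then that component is oriented and induces the orientation of its boundary.
The surface is given by a movie, read into the ball: Reidemeister moves, disappearance (`death`)
or appearance (`birth`) of a small circle, and saddles (`cut`, `join`, `twist`). -/
inductive Bounds : Diagram → (ℕ → ℤ) → (ℕ → Bool) → Prop
  | empty (χ : ℕ → ℤ) (o : ℕ → Bool) : Bounds 0 χ o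
  | move {D D' : Diagram} {χ : ℕ → ℤ} {o : ℕ → Bool} :
      Bounds D' χ o → RMove D D' ∨ RMove D' D → Planar D → Bounds D χ o
  | death {D : Diagram} {χ : ℕ → ℤ} {o : ℕ → Bool} (c : ℕ) (b : Bool) :
      Bounds D χ o → c ∉ D.map Prod.fst →
      Bounds ((c, []) ::ₘ D) (Function.update χ c 1) (Function.update o c b)
  | birth {D : Diagram} {χ : ℕ → ℤ} {o : ℕ → Bool} (c : ℕ) :
      Bounds ((c, []) ::ₘ D) χ o → c ∈ D.map Prod.fst →
      Bounds D (Function.update χ c (χ c + 1)) o
  | cut {D : Diagram} {χ : ℕ → ℤ} {o : ℕ → Bool} (c d : ℕ) (u v : Word) :
      Bounds ((c, u) ::ₘ (d, v) ::ₘ D) χ o → o c = o d →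
      Planar ((c, u ++ v) ::ₘ D.map fun p => (if p.1 = d then c else p.1, p.2)) →
      Bounds ((c, u ++ v) ::ₘ D.map fun p => (if p.1 = d then c else p.1, p.2))
        (Function.update χ c (if c = d then χ c - 1 else χ c + χ d - 1)) o
  | join {D : Diagram} {χ : ℕ → ℤ} {o : ℕ → Bool} (c : ℕ) (u v : Word) :
      Bounds ((c, u ++ v) ::ₘ D) χ o → Planar ((c, u) ::ₘ (c, v) ::ₘ D) →
      Bounds ((c, u) ::ₘ (c, v) ::ₘ D) (Function.update χ c (χ c - 1)) o
  | twist {D : Diagram} {χ : ℕ → ℤ} {o : ℕ → Bool} (c : ℕ) (u v : Word) :
      Bounds ((c, u ++ v) ::ₘ D) χ o → o c = false → Planar ((c, u ++ v) ::ₘ D) →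
      Planar (flipSigns v ((c, u ++ v.reverse) ::ₘ D)) →
      Bounds (flipSigns v ((c, u ++ v.reverse) ::ₘ D)) (Function.update χ c (χ c - 1)) o
  | reverse {D : Diagram} {χ : ℕ → ℤ} {o : ℕ → Bool} (c : ℕ) (v : Word) :
      Bounds ((c, v) ::ₘ D) χ o → o c = false → Planar ((c, v) ::ₘ D) →
      Bounds (flipSigns v ((c, v.reverse) ::ₘ D)) χ o

/-! ### Links with a marked component -/

/-- An oriented link with a marked component: the first one. -/
abbrev Code := List Word

/-- Colour the marked component `0` and the others `1`. -/
def tag : Code → Diagram
  | [] => 0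
  | k :: A => (0, k) ::ₘ ((A.map fun w => (1, w) : List (ℕ × Word)) : Multiset (ℕ × Word))

/-- Isotopy of oriented links with a marked component. -/
def Isotopic (L L' : Code) : Prop :=
  Relation.EqvGen (fun D D' => Planar D ∧ Planar D' ∧ RMove D D') (tag L) (tag L')

/-- The link bounds in `D^4` a disjoint union of a disc, whose boundary is the marked component,
of oriented annuli and, if `b = true`, of Möbius bands. -/
def Null (b : Bool) (L : Code) : Prop :=
  ∃ (k : Word) (E : Diagram) (χ : ℕ → ℤ) (o : ℕ → Bool),
    L.head? = some k ∧ E.map Prod.snd = (L.tail : Multiset Word) ∧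
    Bounds ((0, k) ::ₘ E) χ o ∧ χ 0 = 1 ∧ o 0 = true ∧
    ∀ c ∈ E.map Prod.fst, c ≠ 0 ∧ χ c = 0 ∧
      (o c = true ∧ (E.map Prod.fst).count c = 2 ∨
        b = true ∧ o c = false ∧ (E.map Prod.fst).count c = 1)

/-- Connected sums (along the marked components) of `n` links, each with a diagram in `P`. -/
inductive Multiple (P : Code → Prop) : ℕ → Code → Prop
  | zero : Multiple P 0 [[]]
  | succ {n : ℕ} {k k' : Word} {A A' : List Word} :
      Multiple P n (k :: A) → P (k' :: A') →
      (∀ v ∈ (k :: A).flatten, ∀ v' ∈ (k' :: A').flatten, v.x ≠ v'.x) →
      Multiple P (n + 1) ((k ++ k') :: (A ++ A'))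

/-- Reverse the components selected by `bs`; the sign changes at the crossings of a reversed
with an unreversed component. -/
def reorient (bs : List Bool) (L : Code) : Code :=
  let r : Word := ((bs.zip L).filter fun p => p.1).flatMap fun p => p.2
  (bs.zip L).map fun p =>
    if p.1 then (p.2.map (flipV r)).reverse else p.2.map (flipV r)

/-- All lists of `n` booleans. -/
def boolLists : ℕ → List (List Bool)
  | 0 => [[]]
  | n + 1 => (boolLists n).flatMap fun t => [false :: t, true :: t]

/-- All orientations of the unmarked components. -/
def reorientOthers (L : Code) : List Code :=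
  (boolLists (L.length - 1)).map fun bs => reorient (false :: bs) L

/-- All choices of an orientation and of a marked component. -/
def choices (L : Code) : List Code :=
  (boolLists L.length).flatMap fun bs =>
    (List.range L.length).map fun i =>
      (reorient bs L).getD i [] :: (reorient bs L).eraseIdx i

/-- `n [L] = 0` in the group of marked oriented links modulo `χ`-concordance. -/
def ZeroMarked (L : Code) (n : ℕ) : Prop := ∃ M, Multiple (Isotopic L) n M ∧ Null false M

/-- `n [L] = 0` in the group of partly oriented links modulo `χ`-concordance. -/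
def ZeroPartly (L : Code) (n : ℕ) : Prop :=
  ∃ M, Multiple (fun D => ∃ L' ∈ reorientOthers L, Isotopic L' D) n M ∧ Null true M

/-- The Whitehead link (closure of the 3-braid `σ₁ σ₂⁻¹ σ₁ σ₂⁻²`). -/
def whitehead : Code :=
  [[⟨0, true, true⟩, ⟨1, false, false⟩, ⟨3, true, false⟩, ⟨4, false, false⟩, ⟨1, true, false⟩,
      ⟨2, false, true⟩],
    [⟨0, false, true⟩, ⟨2, true, true⟩, ⟨3, false, false⟩, ⟨4, true, false⟩]]

/-- The Borromean rings (closure of the 3-braid `(σ₁ σ₂⁻¹)³`). -/
def borromean : Code :=
  [[⟨0, true, true⟩, ⟨1, false, false⟩, ⟨3, true, false⟩, ⟨4, false, true⟩],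
    [⟨0, false, true⟩, ⟨2, true, true⟩, ⟨3, false, false⟩, ⟨5, true, false⟩],
    [⟨1, true, false⟩, ⟨2, false, true⟩, ⟨4, true, true⟩, ⟨5, false, false⟩]]

end Pool.Agent.Helper64.Chi
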