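import Mathlib
import Pool.Agent.Helper64.Chi.Defs

/-!
# The state sum

Labels: along a component coloured `J` there is an integer label which changes when the component
passes under a `K`-component, along a component coloured `K` there is a label in `R` which changes
when the component passes over a `J`-component.
-/

set_option autoImplicit false

namespace Pool.Agent.Helper64.Chi

/-- Colours of components. `O` means ignored. -/
inductive Color
  | K
  | J
  | O
deriving DecidableEq

def sgn (b : Bool) : ℤ := if b then 1 else -1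

@[simp] lemma sgn_true : sgn true = 1 := rfl
@[simp] lemma sgn_false : sgn false = -1 := rfl
lemma sgn_not (b : Bool) : sgn (!b) = - sgn b := by cases b <;> simp

structure Env where
  k : ℕ → ℤ
  j : ℕ → ℤ

def dN (c : Color) (e : Env) (v : Visit) : ℤ :=
  if c = .J ∧ v.up = false then sgn v.pos * e.k v.x else 0

def dM (c : Color) (e : Env) (v : Visit) : ℤ :=
  if c = .K ∧ v.up = true then sgn v.pos * e.j v.x else 0

section
variable (R : Type) [CommRing R]

def dS (c : Color) (e : Env) (v : Visit) : ℤ × R := (dN c e v, (dM c e v : R))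

def DS (c : Color) (e : Env) (w : Word) : ℤ × R := (w.map (dS R c e)).sum

abbrev LV := Color × Visit × (ℤ × R)

end

section
variable {R : Type} [CommRing R]

def scan (c : Color) (e : Env) : Word → ℤ × R → List (LV R)
  | [], _ => []
  | v :: w, s => if c = .O then [] else (c, v, s) :: scan c e w (s + dS R c e v)

def psi (co cu : Color) (s : Bool) (n : ℤ) (m : R) (n' : ℤ) (m' : R) : R :=
  match co, cu with
  | .J, .J => (sgn s : R) * ((n : R) * ((n' : R) - (n : R)))
  | .K, .K => (sgn s : R) * (m' * (m - m'))
  | .J, .K => -((sgn s : R) * ((n : R) * m'))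
  | .K, .J => if s then -((m + 1) * ((n' : R) + 1)) else m * (n' : R)
  | _, _ => 0

def theta (a b : LV R) : R :=
  if a.2.1.up = true ∧ b.2.1.up = false ∧ a.2.1.x = b.2.1.x then
    psi a.1 b.1 a.2.1.pos a.2.2.1 a.2.2.2 b.2.2.1 b.2.2.2
  else 0

def pair (A B : Multiset (LV R)) : R := (A.map fun a => (B.map fun b => theta a b).sum).sum

lemma pair_add_left (A A' B : Multiset (LV R)) : pair (A + A') B = pair A B + pair A' B := by
  simp [pair]

lemma pair_add_right (A B B' : Multiset (LV R)) : pair A (B + B') = pair A B + pair A B' := by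
  simp [pair, Multiset.sum_map_add]

@[simp] lemma pair_zero_left (B : Multiset (LV R)) : pair 0 B = 0 := by simp [pair]
@[simp] lemma pair_zero_right (A : Multiset (LV R)) : pair A 0 = 0 := by simp [pair]

lemma pair_eq_zero {A B : Multiset (LV R)}
    (h : ∀ a ∈ A, ∀ b ∈ B, a.2.1.x ≠ b.2.1.x) : pair A B = 0 := by
  unfold pair
  apply Multiset.sum_eq_zero
  intro y hy
  obtain ⟨a, ha, rfl⟩ := Multiset.mem_map.1 hy
  apply Multiset.sum_eq_zero
  intro z hz
  obtain ⟨b, hb, rfl⟩ := Multiset.mem_map.1 hz
  unfold theta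
  rw [if_neg]
  rintro ⟨-, -, h3⟩
  exact h a ha b hb h3

/-! ### scanning -/

@[simp] lemma scan_nil (c : Color) (e : Env) (s : ℤ × R) : scan c e [] s = [] := rfl

lemma scan_cons (c : Color) (e : Env) (v : Visit) (w : Word) (s : ℤ × R) :
    scan c e (v :: w) s = if c = .O then [] else (c, v, s) :: scan c e w (s + dS R c e v) := rfl

@[simp] lemma scan_O (e : Env) (w : Word) (s : ℤ × R) : scan .O e w s = [] := by
  cases w <;> simp [scan_cons]

@[simp] lemma DS_nil (c : Color) (e : Env) : DS R c e [] = 0 := rfl

lemma DS_cons (c : Color) (e : Env) (v : Visit) (w : Word) :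
    DS R c e (v :: w) = dS R c e v + DS R c e w := by simp [DS]

lemma DS_append (c : Color) (e : Env) (u v : Word) :
    DS R c e (u ++ v) = DS R c e u + DS R c e v := by simp [DS]

@[simp] lemma dS_O (e : Env) (v : Visit) : dS R .O e v = 0 := by
  simp [dS, dN, dM]

@[simp] lemma DS_O (e : Env) (w : Word) : DS R .O e w = 0 := by
  induction w with
  | nil => rfl
  | cons v w ih => rw [DS_cons, ih, dS_O, add_zero]

lemma scan_append (c : Color) (e : Env) (u v : Word) (s : ℤ × R) :
    scan c e (u ++ v) s = scan c e u s ++ scan c e v (s + DS R c e u) := by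
  induction u generalizing s with
  | nil => simp
  | cons a u ih =>
    rw [List.cons_append, scan_cons, scan_cons]
    by_cases hc : c = .O
    · subst hc; simp
    · rw [if_neg hc, if_neg hc, ih, DS_cons, List.cons_append, add_assoc]

lemma dS_congr {c : Color} {e e' : Env} {v : Visit} (h : e.k v.x = e'.k v.x)
    (h' : e.j v.x = e'.j v.x) : dS R c e v = dS R c e' v := by
  simp [dS, dN, dM, h, h']

lemma DS_congr {c : Color} {e e' : Env} {w : Word}
    (h : ∀ v ∈ w, e.k v.x = e'.k v.x ∧ e.j v.x = e'.j v.x) : DS R c e w = DS R c e' w := by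
  induction w with
  | nil => rfl
  | cons v w ih =>
    rw [DS_cons, DS_cons, ih (fun u hu => h u (List.mem_cons_of_mem _ hu)),
      dS_congr (h v (List.mem_cons_self)).1 (h v (List.mem_cons_self)).2]

lemma scan_congr {c : Color} {e e' : Env} {w : Word} (s : ℤ × R)
    (h : ∀ v ∈ w, e.k v.x = e'.k v.x ∧ e.j v.x = e'.j v.x) : scan c e w s = scan c e' w s := by
  induction w generalizing s with
  | nil => rfl
  | cons v w ih =>
    rw [scan_cons, scan_cons, ih _ (fun u hu => h u (List.mem_cons_of_mem _ hu)),
      dS_congr (h v (List.mem_cons_self)).1 (h v (List.mem_cons_self)).2]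

lemma mem_scan {c : Color} {e : Env} {w : Word} {s : ℤ × R} {a : LV R} (h : a ∈ scan c e w s) :
    a.1 = c ∧ a.2.1 ∈ w := by
  induction w generalizing s with
  | nil => simp at h
  | cons v w ih =>
    rw [scan_cons] at h
    split_ifs at h with hc
    · simp at h
    · rcases List.mem_cons.1 h with h | h
      · subst h; simp
      · exact ⟨(ih h).1, List.mem_cons_of_mem _ (ih h).2⟩

/-! ### environments -/

def cnt (x : ℕ) (o : Bool) (w : Word) : ℤ := (w.map fun v => if v.x = x ∧ v.up = o then 1 else 0).sum

@[simp] lemma cnt_nil (x : ℕ) (o : Bool) : cnt x o [] = 0 := rfl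

lemma cnt_cons (x : ℕ) (o : Bool) (v : Visit) (w : Word) :
    cnt x o (v :: w) = (if v.x = x ∧ v.up = o then 1 else 0) + cnt x o w := by simp [cnt]

lemma cnt_append (x : ℕ) (o : Bool) (u v : Word) : cnt x o (u ++ v) = cnt x o u + cnt x o v := by
  simp [cnt]

lemma cnt_eq_zero {x : ℕ} {o : Bool} {w : Word} (h : ∀ v ∈ w, v.x ≠ x) : cnt x o w = 0 := by
  induction w with
  | nil => rfl
  | cons v w ih =>
    rw [cnt_cons, ih (fun u hu => h u (List.mem_cons_of_mem _ hu)), if_neg, add_zero]
    rintro ⟨h1, -⟩
    exact h v List.mem_cons_self h1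

def env (col : ℕ → Color) (D : Diagram) : Env where
  k x := (D.map fun p => if col p.1 = .K then cnt x true p.2 else 0).sum
  j x := (D.map fun p => if col p.1 = .J then cnt x false p.2 else 0).sum

abbrev Deco (R : Type) := Multiset ((ℕ × Word) × (ℤ × R))

def lvs (col : ℕ → Color) (e : Env) (S : Deco R) : Multiset (LV R) :=
  S.bind fun p => (scan (col p.1.1) e p.1.2 p.2 : Multiset (LV R))

def Psi (col : ℕ → Color) (S : Deco R) : R :=
  pair (lvs col (env col (S.map Prod.fst)) S) (lvs col (env col (S.map Prod.fst)) S)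

def shift (t : ℕ → ℤ × R) (S : Deco R) : Deco R := S.map fun p => (p.1, p.2 + t p.1.1)

lemma shift_map_fst (t : ℕ → ℤ × R) (S : Deco R) : (shift t S).map Prod.fst = S.map Prod.fst := by
  simp [shift]

/-! ### filling holes -/

section fill

lemma map_cons_split {α β : Type} {f : α → β} {S : Multiset α} {b : β} {T : Multiset β}
    (h : S.map f = b ::ₘ T) : ∃ a S', S = a ::ₘ S' ∧ f a = b ∧ S'.map f = T := by
  classical
  obtain ⟨a, ha, h1, h2⟩ := (Multiset.map_eq_cons _ _ _ _).2 h
  exact ⟨a, S.erase a, (Multiset.cons_erase ha).symm, h1, h2⟩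

@[simp] lemma fillW_nil (f : Fin 3 → Word) : fillW f [] = [] := rfl
@[simp] lemma fillW_inl (f : Fin 3 → Word) (v : Visit) (w : HWord) :
    fillW f (Sum.inl v :: w) = v :: fillW f w := by simp [fillW]
@[simp] lemma fillW_inr (f : Fin 3 → Word) (i : Fin 3) (w : HWord) :
    fillW f (Sum.inr i :: w) = f i ++ fillW f w := by simp [fillW]

def sOut (c : Color) (e : Env) (T : Fin 3 → ℤ × R) : HWord → ℤ × R → List (LV R)
  | [], _ => []
  | .inl v :: w, s => if c = .O then [] else (c, v, s) :: sOut c e T w (s + dS R c e v)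
  | .inr i :: w, s => sOut c e T w (s + T i)

def sHole (c : Color) (e : Env) (T : Fin 3 → ℤ × R) : HWord → ℤ × R → List (Fin 3 × Color × (ℤ × R))
  | [], _ => []
  | .inl v :: w, s => sHole c e T w (s + dS R c e v)
  | .inr i :: w, s => (i, c, s) :: sHole c e T w (s + T i)

lemma scan_fill (c : Color) (e : Env) (f : Fin 3 → Word) (w : HWord) (s : ℤ × R) :
    (scan c e (fillW f w) s : Multiset (LV R)) =
      (sOut c e (fun i => DS R c e (f i)) w s : Multiset (LV R)) +
      ((sHole c e (fun i => DS R c e (f i)) w s : Multiset (Fin 3 × Color × (ℤ × R)))).bind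
        fun h => (scan h.2.1 e (f h.1) h.2.2 : Multiset (LV R)) := by
  induction w generalizing s with
  | nil => simp [sOut, sHole]
  | cons a w ih =>
    rcases a with v | i
    · rw [fillW_inl, scan_cons]
      by_cases hc : c = .O
      · subst hc
        have hb : ∀ (w : HWord) (s : ℤ × R),
            ((sHole .O e (fun i => DS R .O e (f i)) w s : Multiset (Fin 3 × Color × (ℤ × R)))).bind
              (fun h => (scan h.2.1 e (f h.1) h.2.2 : Multiset (LV R))) = 0 := by
          intro w
          induction w with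
          | nil => intro s; simp [sHole]
          | cons a w ih' =>
            intro s
            rcases a with v | i
            · simp only [sHole]; exact ih' _
            · simp only [sHole, ← Multiset.cons_coe, Multiset.cons_bind, ih']
              simp
        rw [hb]
        simp [sOut]
      · rw [if_neg hc]
        simp only [sOut, sHole, if_neg hc, ← Multiset.cons_coe, ih, Multiset.cons_add]
    · rw [fillW_inr, scan_append, ← Multiset.coe_add, ih]
      simp only [sOut, sHole, ← Multiset.cons_coe, Multiset.cons_bind]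
      abel

lemma DS_fill (c : Color) (e e' : Env) (f g : Fin 3 → Word) (w : HWord)
    (he : ∀ v, Sum.inl v ∈ w → e.k v.x = e'.k v.x ∧ e.j v.x = e'.j v.x)
    (hT : ∀ i, Sum.inr i ∈ w → DS R c e (f i) = DS R c e' (g i)) :
    DS R c e (fillW f w) = DS R c e' (fillW g w) := by
  induction w with
  | nil => rfl
  | cons a w ih =>
    have ih' := ih (fun v hv => he v (List.mem_cons_of_mem _ hv))
      (fun i hi => hT i (List.mem_cons_of_mem _ hi))
    rcases a with v | i
    · rw [fillW_inl, fillW_inl, DS_cons, DS_cons, ih',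
        dS_congr (he v List.mem_cons_self).1 (he v List.mem_cons_self).2]
    · rw [fillW_inr, fillW_inr, DS_append, DS_append, ih', hT i List.mem_cons_self]

lemma sOut_congr (c : Color) (e e' : Env) (T T' : Fin 3 → ℤ × R) (w : HWord) (s : ℤ × R)
    (he : ∀ v, Sum.inl v ∈ w → e.k v.x = e'.k v.x ∧ e.j v.x = e'.j v.x)
    (hT : ∀ i, Sum.inr i ∈ w → T i = T' i) : sOut c e T w s = sOut c e' T' w s := by
  induction w generalizing s with
  | nil => rfl
  | cons a w ih =>
    have ih' := fun s => ih s (fun v hv => he v (List.mem_cons_of_mem _ hv))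
      (fun i hi => hT i (List.mem_cons_of_mem _ hi))
    rcases a with v | i
    · simp only [sOut, ih', dS_congr (R := R) (c := c) (he v List.mem_cons_self).1
        (he v List.mem_cons_self).2]
    · simp only [sOut, ih', hT i List.mem_cons_self]

lemma sHole_congr (c : Color) (e e' : Env) (T T' : Fin 3 → ℤ × R) (w : HWord) (s : ℤ × R)
    (he : ∀ v, Sum.inl v ∈ w → e.k v.x = e'.k v.x ∧ e.j v.x = e'.j v.x)
    (hT : ∀ i, Sum.inr i ∈ w → T i = T' i) : sHole c e T w s = sHole c e' T' w s := by
  induction w generalizing s with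
  | nil => rfl
  | cons a w ih =>
    have ih' := fun s => ih s (fun v hv => he v (List.mem_cons_of_mem _ hv))
      (fun i hi => hT i (List.mem_cons_of_mem _ hi))
    rcases a with v | i
    · simp only [sHole, ih', dS_congr (R := R) (c := c) (he v List.mem_cons_self).1
        (he v List.mem_cons_self).2]
    · simp only [sHole, ih', hT i List.mem_cons_self]

lemma mem_sOut {c : Color} {e : Env} {T : Fin 3 → ℤ × R} {w : HWord} {s : ℤ × R} {a : LV R}
    (h : a ∈ sOut c e T w s) : Sum.inl a.2.1 ∈ w := by
  induction w generalizing s with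
  | nil => simp [sOut] at h
  | cons b w ih =>
    rcases b with v | i
    · simp only [sOut] at h
      split_ifs at h with hc
      · simp at h
      · rcases List.mem_cons.1 h with h | h
        · subst h; simp
        · exact List.mem_cons_of_mem _ (ih h)
    · simp only [sOut] at h
      exact List.mem_cons_of_mem _ (ih h)

/-- the colours of the holes -/
def hcol (col : ℕ → Color) (E : Context) : Multiset (Fin 3 × Color) :=
  E.bind fun p => (((p.2.filterMap Sum.getRight?).map fun i => (i, col p.1) :
    List (Fin 3 × Color)) : Multiset (Fin 3 × Color))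

lemma hcol_fst (col : ℕ → Color) (E : Context) : (hcol col E).map Prod.fst = holes E := by
  unfold hcol holes
  rw [Multiset.map_bind]
  apply Multiset.bind_congr
  intro p _
  rw [Multiset.map_coe, List.map_map]
  congr 1
  exact List.map_id _

lemma sHole_col (c : Color) (e : Env) (T : Fin 3 → ℤ × R) (w : HWord) (s : ℤ × R) :
    (sHole c e T w s).map (fun h => (h.1, h.2.1)) =
      (w.filterMap Sum.getRight?).map fun i => (i, c) := by
  induction w generalizing s with
  | nil => rfl
  | cons a w ih =>
    rcases a with v | i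
    · simp only [sHole]
      rw [ih]; simp
    · simp only [sHole, List.map_cons, ih]; simp

lemma map_three {α : Type} {A : Multiset (Fin 3 × α)} (h : A.map Prod.fst = {0, 1, 2}) :
    ∃ c : Fin 3 → α, A = {(0, c 0), (1, c 1), (2, c 2)} := by
  have h1 : A.map Prod.fst = 0 ::ₘ 1 ::ₘ 2 ::ₘ 0 := h
  obtain ⟨a, A1, rfl, ha1, h2⟩ := map_cons_split h1
  obtain ⟨b, A2, rfl, hb1, h3⟩ := map_cons_split h2
  obtain ⟨c, A3, rfl, hc1, h4⟩ := map_cons_split h3
  rw [Multiset.map_eq_zero] at h4
  subst h4
  refine ⟨![a.2, b.2, c.2], ?_⟩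
  obtain ⟨a1, a2⟩ := a
  obtain ⟨b1, b2⟩ := b
  obtain ⟨c1, c2⟩ := c
  simp only at ha1 hb1 hc1
  subst ha1 hb1 hc1
  rfl

end fill

end

end Pool.Agent.Helper64.Chi
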