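import Mathlib
import Pool.Agent.Helper64.Chi.Psi

/-!
# Invariance of the state sum under local moves
-/

set_option autoImplicit false

namespace Pool.Agent.Helper64.Chi

section
variable {R : Type} [CommRing R]

/-- local environment at the crossings of the move -/
def locEnv (cs : Fin 3 → Color) (f : Fin 3 → Word) : Env where
  k x := (if cs 0 = .K then cnt x true (f 0) else 0) + (if cs 1 = .K then cnt x true (f 1) else 0) +
    (if cs 2 = .K then cnt x true (f 2) else 0)
  j x := (if cs 0 = .J then cnt x false (f 0) else 0) + (if cs 1 = .J then cnt x false (f 1) else 0) +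
    (if cs 2 = .J then cnt x false (f 2) else 0)

def locLV (cs : Fin 3 → Color) (f : Fin 3 → Word) (ss : Fin 3 → ℤ × R) : Multiset (LV R) :=
  (scan (cs 0) (locEnv cs f) (f 0) (ss 0) : Multiset (LV R)) +
    (scan (cs 1) (locEnv cs f) (f 1) (ss 1) : Multiset (LV R)) +
    (scan (cs 2) (locEnv cs f) (f 2) (ss 2) : Multiset (LV R))

structure LocOK (R : Type) [CommRing R] (f g : Fin 3 → Word) (X : List ℕ) : Prop where
  hf : ∀ i, ∀ v ∈ f i, v.x ∈ X
  hg : ∀ i, ∀ v ∈ g i, v.x ∈ X
  hT : ∀ (cs : Fin 3 → Color) (i : Fin 3),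
    DS R (cs i) (locEnv cs f) (f i) = DS R (cs i) (locEnv cs g) (g i)
  hP : ∀ (cs : Fin 3 → Color) (ss : Fin 3 → ℤ × R),
    pair (locLV cs f ss) (locLV cs f ss) = pair (locLV cs g ss) (locLV cs g ss)

lemma LocOK.symm {f g : Fin 3 → Word} {X : List ℕ} (h : LocOK R f g X) : LocOK R g f X :=
  ⟨h.hg, h.hf, fun cs i => (h.hT cs i).symm, fun cs ss => (h.hP cs ss).symm⟩

def cntO (x : ℕ) (o : Bool) (w : HWord) : ℤ :=
  (w.map fun a => Sum.elim (fun v : Visit => if v.x = x ∧ v.up = o then (1 : ℤ) else 0)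
    (fun _ => 0) a).sum

lemma cntO_eq_zero {x : ℕ} {o : Bool} {w : HWord} (h : ∀ v, Sum.inl v ∈ w → v.x ≠ x) :
    cntO x o w = 0 := by
  unfold cntO
  apply List.sum_eq_zero
  intro y hy
  obtain ⟨a, ha, rfl⟩ := List.mem_map.1 hy
  rcases a with v | i
  · have := h v ha
    simp [this]
  · rfl

lemma cnt_fillW (x : ℕ) (o : Bool) (f : Fin 3 → Word) (w : HWord) :
    cnt x o (fillW f w) =
      cntO x o w + ((w.filterMap Sum.getRight?).map fun i => cnt x o (f i)).sum := by
  induction w with
  | nil => rfl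
  | cons a w ih =>
    rcases a with v | i
    · rw [fillW_inl, cnt_cons, ih]
      simp [cntO, add_assoc]
    · rw [fillW_inr, cnt_append, ih]
      simp [cntO]
      ring

/-- the part of the environment which comes from outside the holes -/
def outEnv (col : ℕ → Color) (E : Context) : Env where
  k x := (E.map fun p => if col p.1 = .K then cntO x true p.2 else 0).sum
  j x := (E.map fun p => if col p.1 = .J then cntO x false p.2 else 0).sum

lemma env_fill_aux (col : ℕ → Color) (E : Context) (f : Fin 3 → Word) (q : Color) (o : Bool)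
    (x : ℕ) :
    ((fill E f).map fun p => if col p.1 = q then cnt x o p.2 else 0).sum =
      (E.map fun p => if col p.1 = q then cntO x o p.2 else 0).sum +
      ((hcol col E).map fun h => if h.2 = q then cnt x o (f h.1) else 0).sum := by
  unfold fill hcol
  rw [Multiset.map_map, Multiset.map_bind, Multiset.sum_bind, ← Multiset.sum_map_add]
  congr 1
  apply Multiset.map_congr rfl
  intro p _
  simp only [Function.comp_apply, Multiset.map_coe, Multiset.sum_coe, List.map_map]
  by_cases h : col p.1 = q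
  · simp only [h, if_true, cnt_fillW, Function.comp_def]
  · simp [h, Function.comp_def]

lemma holeSum {α : Type} [AddCommMonoid α] {A : Multiset (Fin 3 × Color)} {cs : Fin 3 → Color}
    (h : A = {(0, cs 0), (1, cs 1), (2, cs 2)}) (F : Fin 3 × Color → α) :
    (A.map F).sum = F (0, cs 0) + F (1, cs 1) + F (2, cs 2) := by
  subst h
  have : ({(0, cs 0), (1, cs 1), (2, cs 2)} : Multiset (Fin 3 × Color)) =
    (0, cs 0) ::ₘ (1, cs 1) ::ₘ (2, cs 2) ::ₘ 0 := rfl
  rw [this]
  simp [add_assoc]

lemma env_fill_in {col : ℕ → Color} {E : Context} {f : Fin 3 → Word} {X : List ℕ}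
    {cs : Fin 3 → Color} (hc : hcol col E = {(0, cs 0), (1, cs 1), (2, cs 2)})
    (hX : Avoids E X) {x : ℕ} (hx : x ∈ X) :
    (env col (fill E f)).k x = (locEnv cs f).k x ∧ (env col (fill E f)).j x = (locEnv cs f).j x := by
  have hz : ∀ (q : Color) (o : Bool),
      (E.map fun p => if col p.1 = q then cntO x o p.2 else 0).sum = 0 := by
    intro q o
    apply Multiset.sum_eq_zero
    intro y hy
    obtain ⟨p, hp, rfl⟩ := Multiset.mem_map.1 hy
    split_ifs
    · apply cntO_eq_zero
      intro v hv hvx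
      exact hX p hp v hv (hvx ▸ hx)
    · rfl
  constructor
  · show ((fill E f).map fun p => if col p.1 = .K then cnt x true p.2 else 0).sum = _
    rw [env_fill_aux, hz, zero_add, holeSum hc]
    rfl
  · show ((fill E f).map fun p => if col p.1 = .J then cnt x false p.2 else 0).sum = _
    rw [env_fill_aux, hz, zero_add, holeSum hc]
    rfl

lemma env_fill_out {col : ℕ → Color} {E : Context} {f : Fin 3 → Word} {X : List ℕ}
    (hf : ∀ i, ∀ v ∈ f i, v.x ∈ X) {x : ℕ} (hx : x ∉ X) :
    (env col (fill E f)).k x = (outEnv col E).k x ∧ (env col (fill E f)).j x = (outEnv col E).j x := by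
  have hz : ∀ (q : Color) (o : Bool),
      ((hcol col E).map fun h => if h.2 = q then cnt x o (f h.1) else 0).sum = 0 := by
    intro q o
    apply Multiset.sum_eq_zero
    intro y hy
    obtain ⟨p, hp, rfl⟩ := Multiset.mem_map.1 hy
    split_ifs
    · apply cnt_eq_zero
      intro v hv hvx
      exact hx (hvx ▸ hf _ v hv)
    · rfl
  constructor
  · show ((fill E f).map fun p => if col p.1 = .K then cnt x true p.2 else 0).sum = _
    rw [env_fill_aux, hz, add_zero]
    rfl
  · show ((fill E f).map fun p => if col p.1 = .J then cnt x false p.2 else 0).sum = _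
    rw [env_fill_aux, hz, add_zero]
    rfl

lemma mem_hcol {col : ℕ → Color} {E : Context} {p : ℕ × HWord} (hp : p ∈ E) {i : Fin 3}
    (hi : Sum.inr i ∈ p.2) : (i, col p.1) ∈ hcol col E := by
  unfold hcol
  rw [Multiset.mem_bind]
  refine ⟨p, hp, ?_⟩
  rw [Multiset.mem_coe, List.mem_map]
  refine ⟨i, ?_, rfl⟩
  rw [List.mem_filterMap]
  exact ⟨_, hi, rfl⟩

lemma hcol_col {col : ℕ → Color} {E : Context} {cs : Fin 3 → Color}
    (hc : hcol col E = {(0, cs 0), (1, cs 1), (2, cs 2)}) {p : ℕ × HWord} (hp : p ∈ E) {i : Fin 3}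
    (hi : Sum.inr i ∈ p.2) : col p.1 = cs i := by
  have h := mem_hcol (col := col) hp hi
  rw [hc] at h
  have : (i, col p.1) = (0, cs 0) ∨ (i, col p.1) = (1, cs 1) ∨ (i, col p.1) = (2, cs 2) := by
    simpa using h
  rcases this with h | h | h <;> (rw [Prod.mk.injEq] at h; rw [h.1, h.2])

section main

variable {col : ℕ → Color} {E : Context} {f g : Fin 3 → Word} {X : List ℕ}

/-- The label changes along the strands agree. -/
lemma T_eq (hE : holes E = {0, 1, 2}) (hX : Avoids E X) (h : LocOK R f g X) {p : ℕ × HWord}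
    (hp : p ∈ E) {i : Fin 3} (hi : Sum.inr i ∈ p.2) :
    DS R (col p.1) (env col (fill E f)) (f i) = DS R (col p.1) (env col (fill E g)) (g i) := by
  obtain ⟨cs, hc⟩ := map_three ((hcol_fst col E).trans hE)
  rw [hcol_col hc hp hi, DS_congr (w := f i) (e' := locEnv cs f), h.hT cs i]
  · apply DS_congr
    intro v hv
    have := env_fill_in (f := g) hc hX (h.hg i v hv)
    exact ⟨this.1.symm, this.2.symm⟩
  · intro v hv
    exact env_fill_in hc hX (h.hf i v hv)

lemma e_eq (hX : Avoids E X) (h : LocOK R f g X) {p : ℕ × HWord} (hp : p ∈ E) {v : Visit}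
    (hv : Sum.inl v ∈ p.2) : (env col (fill E f)).k v.x = (env col (fill E g)).k v.x ∧
      (env col (fill E f)).j v.x = (env col (fill E g)).j v.x := by
  have hx : v.x ∉ X := hX p hp v hv
  have h1 := env_fill_out (col := col) (E := E) h.hf hx
  have h2 := env_fill_out (col := col) (E := E) h.hg hx
  exact ⟨h1.1.trans h2.1.symm, h1.2.trans h2.2.symm⟩

lemma DS_fill_eq (hE : holes E = {0, 1, 2}) (hX : Avoids E X) (h : LocOK R f g X)
    {p : ℕ × HWord} (hp : p ∈ E) :
    DS R (col p.1) (env col (fill E f)) (fillW f p.2) =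
      DS R (col p.1) (env col (fill E g)) (fillW g p.2) :=
  DS_fill _ _ _ _ _ _ (fun _ hv => e_eq hX h hp hv) (fun _ hi => T_eq hE hX h hp hi)

/-- Decorated contexts. -/
def fillD (S : Multiset ((ℕ × HWord) × (ℤ × R))) (f : Fin 3 → Word) : Deco R :=
  S.map fun p => ((p.1.1, fillW f p.1.2), p.2)

lemma fillD_fst (S : Multiset ((ℕ × HWord) × (ℤ × R))) (f : Fin 3 → Word) :
    (fillD S f).map Prod.fst = fill (S.map Prod.fst) f := by
  simp [fillD, fill]

/-- outer labelled visits -/
def outLV (col : ℕ → Color) (e : Env) (S : Multiset ((ℕ × HWord) × (ℤ × R))) (f : Fin 3 → Word) :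
    Multiset (LV R) :=
  S.bind fun p => (sOut (col p.1.1) e (fun i => DS R (col p.1.1) e (f i)) p.1.2 p.2 :
    Multiset (LV R))

def holeLV (col : ℕ → Color) (e : Env) (S : Multiset ((ℕ × HWord) × (ℤ × R))) (f : Fin 3 → Word) :
    Multiset (Fin 3 × Color × (ℤ × R)) :=
  S.bind fun p => (sHole (col p.1.1) e (fun i => DS R (col p.1.1) e (f i)) p.1.2 p.2 :
    Multiset (Fin 3 × Color × (ℤ × R)))

lemma lvs_fill (e : Env) (S : Multiset ((ℕ × HWord) × (ℤ × R))) (f : Fin 3 → Word) :
    lvs col e (fillD S f) = outLV col e S f +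
      (holeLV col e S f).bind fun h => (scan h.2.1 e (f h.1) h.2.2 : Multiset (LV R)) := by
  unfold lvs fillD outLV holeLV
  rw [Multiset.bind_map, Multiset.bind_assoc, ← Multiset.bind_add]
  apply Multiset.bind_congr
  intro p _
  exact scan_fill _ _ _ _ _

theorem psi_fill {S : Multiset ((ℕ × HWord) × (ℤ × R))} (hS : S.map Prod.fst = E)
    (hE : holes E = {0, 1, 2}) (hX : Avoids E X) (h : LocOK R f g X) :
    Psi col (fillD S f) = Psi col (fillD S g) := by
  obtain ⟨cs, hc⟩ := map_three ((hcol_fst col E).trans hE)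
  unfold Psi
  rw [fillD_fst, fillD_fst, hS]
  -- outer parts agree
  have hmem : ∀ p ∈ S, p.1 ∈ E := fun p hp => hS ▸ Multiset.mem_map_of_mem _ hp
  have hout : outLV col (env col (fill E f)) S f = outLV col (env col (fill E g)) S g := by
    unfold outLV
    apply Multiset.bind_congr
    intro p hp
    congr 1
    exact sOut_congr _ _ _ _ _ _ _ (fun v hv => e_eq hX h (hmem p hp) hv)
      (fun i hi => T_eq hE hX h (hmem p hp) hi)
  have hhole : holeLV col (env col (fill E f)) S f = holeLV col (env col (fill E g)) S g := by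
    unfold holeLV
    apply Multiset.bind_congr
    intro p hp
    congr 1
    exact sHole_congr _ _ _ _ _ _ _ (fun v hv => e_eq hX h (hmem p hp) hv)
      (fun i hi => T_eq hE hX h (hmem p hp) hi)
  -- shape of the hole part
  have hcolmap : ∀ f', (holeLV col (env col (fill E f')) S f').map (fun h => (h.1, h.2.1)) =
      hcol col E := by
    intro f'
    unfold holeLV hcol
    rw [Multiset.map_bind, ← hS, Multiset.bind_map]
    apply Multiset.bind_congr
    intro p hp
    rw [Multiset.map_coe, sHole_col]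
  obtain ⟨st, hst⟩ : ∃ st : Fin 3 → Color × (ℤ × R),
      holeLV col (env col (fill E f)) S f = {(0, st 0), (1, st 1), (2, st 2)} := by
    apply map_three
    have := congrArg (Multiset.map Prod.fst) (hcolmap f)
    rw [Multiset.map_map, hcol_fst, hE] at this
    exact this
  have hcs : ∀ i, (st i).1 = cs i := by
    intro i
    have h1 : (i, (st i).1) ∈ hcol col E := by
      rw [← hcolmap f, hst]
      rw [Multiset.mem_map]
      refine ⟨(i, st i), ?_, rfl⟩
      fin_cases i <;> simp
    rw [hc] at h1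
    have h2 : (i, (st i).1) = (0, cs 0) ∨ (i, (st i).1) = (1, cs 1) ∨ (i, (st i).1) = (2, cs 2) := by
      simpa using h1
    rcases h2 with h | h | h <;> (rw [Prod.mk.injEq] at h; obtain ⟨h3, h4⟩ := h; subst h3; exact h4)
  have hloc : ∀ f' : Fin 3 → Word, (∀ i, ∀ v ∈ f' i, v.x ∈ X) →
      (({(0, st 0), (1, st 1), (2, st 2)} : Multiset (Fin 3 × Color × (ℤ × R)))).bind
        (fun h => (scan h.2.1 (env col (fill E f')) (f' h.1) h.2.2 : Multiset (LV R))) =
      locLV cs f' (fun i => (st i).2) := by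
    intro f' hf'
    have h3 : ({(0, st 0), (1, st 1), (2, st 2)} : Multiset (Fin 3 × Color × (ℤ × R))) =
      (0, st 0) ::ₘ (1, st 1) ::ₘ (2, st 2) ::ₘ 0 := rfl
    rw [h3]
    simp only [Multiset.cons_bind, Multiset.zero_bind, add_zero, hcs]
    unfold locLV
    rw [← add_assoc]
    have hsc : ∀ i, scan (cs i) (env col (fill E f')) (f' i) (st i).2 =
        scan (cs i) (locEnv cs f') (f' i) (st i).2 := fun i =>
      scan_congr _ (fun v hv => env_fill_in hc hX (hf' i v hv))
    rw [hsc 0, hsc 1, hsc 2]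
  rw [lvs_fill, lvs_fill, ← hout, ← hhole, hst, hloc f h.hf, hloc g h.hg]
  -- cross terms vanish
  have hlocmem : ∀ f' : Fin 3 → Word, (∀ i, ∀ v ∈ f' i, v.x ∈ X) →
      ∀ a ∈ locLV cs f' (fun i => (st i).2), a.2.1.x ∈ X := by
    intro f' hf' a ha
    unfold locLV at ha
    rw [Multiset.mem_add, Multiset.mem_add] at ha
    rcases ha with (ha | ha) | ha <;> exact hf' _ _ (mem_scan (Multiset.mem_coe.1 ha)).2
  have houtmem : ∀ a ∈ outLV col (env col (fill E f)) S f, a.2.1.x ∉ X := by
    intro a ha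
    unfold outLV at ha
    obtain ⟨p, hp, hpa⟩ := Multiset.mem_bind.1 ha
    exact hX _ (hmem p hp) _ (mem_sOut (Multiset.mem_coe.1 hpa))
  have hcross1 : ∀ f' : Fin 3 → Word, (∀ i, ∀ v ∈ f' i, v.x ∈ X) →
      pair (outLV col (env col (fill E f)) S f) (locLV cs f' (fun i => (st i).2)) = 0 := by
    intro f' hf'
    apply pair_eq_zero
    intro a ha b hb hab
    exact houtmem a ha (hab ▸ hlocmem f' hf' b hb)
  have hcross2 : ∀ f' : Fin 3 → Word, (∀ i, ∀ v ∈ f' i, v.x ∈ X) →
      pair (locLV cs f' (fun i => (st i).2)) (outLV col (env col (fill E f)) S f) = 0 := by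
    intro f' hf'
    apply pair_eq_zero
    intro a ha b hb hab
    exact houtmem b hb (hab ▸ hlocmem f' hf' a ha)
  simp only [pair_add_left, pair_add_right, hcross1 f h.hf, hcross1 g h.hg, hcross2 f h.hf,
    hcross2 g h.hg, h.hP cs (fun i => (st i).2)]

/-- Lifting of a decoration along `fill`. -/
lemma lift_fill {S : Deco R} {E : Context} {f : Fin 3 → Word} (h : S.map Prod.fst = fill E f) :
    ∃ S' : Multiset ((ℕ × HWord) × (ℤ × R)), S'.map Prod.fst = E ∧ fillD S' f = S := by
  induction E using Multiset.induction_on generalizing S with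
  | empty =>
    refine ⟨0, rfl, ?_⟩
    simp only [fill, Multiset.map_zero, Multiset.map_eq_zero] at h
    rw [h]; rfl
  | cons a E ih =>
    have h' : S.map Prod.fst = (a.1, fillW f a.2) ::ₘ fill E f := by rw [h]; simp [fill]
    obtain ⟨b, S1, rfl, hb, h2⟩ := map_cons_split h'
    obtain ⟨S2, hS2, hS3⟩ := ih h2
    refine ⟨(a, b.2) ::ₘ S2, by simp [hS2], ?_⟩
    obtain ⟨b1, b2⟩ := b
    simp only at hb
    simp [fillD, ← hS3, hb]

end main

end

end Pool.Agent.Helper64.Chi
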