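import Mathlib
import Pool.Agent.Helper64.Chi.Fill

/-!
# The local identity for the third Reidemeister move, top strand coloured `K`
-/

set_option autoImplicit false
set_option linter.unusedSimpArgs false
set_option linter.unreachableTactic false
set_option linter.unusedTactic false

namespace Pool.Agent.Helper64.Chi

variable {R : Type} [CommRing R]

lemma locOK_r3_K (x y z : ℕ) (a b c : Bool) (hxy : x ≠ y) (hxz : x ≠ z) (hyz : y ≠ z)
    (cs : Fin 3 → Color) (ss : Fin 3 → ℤ × R) (hc : cs 0 = .K) :
    pair (locLV cs (triangle x y z a b c true) ss) (locLV cs (triangle x y z a b c true) ss) =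
    pair (locLV cs (triangle x y z a b c false) ss)
      (locLV cs (triangle x y z a b c false) ss) := by
  generalize ss 0 = s0
  generalize ss 1 = s1
  generalize ss 2 = s2
  obtain ⟨n0, m0⟩ := s0
  obtain ⟨n1, m1⟩ := s1
  obtain ⟨n2, m2⟩ := s2
  generalize hc1 : cs 1 = c1
  generalize hc2 : cs 2 = c2
  cases c1 <;> cases c2 <;> cases a <;> cases b <;> cases c <;>
      simp [triangle, locLV, pair, theta, psi, scan_cons, dS, dN, dM, locEnv, cnt_cons, hc, hc1,
        hc2, hxy, hxy.symm, hxz, hxz.symm, hyz, hyz.symm] <;> ring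

end Pool.Agent.Helper64.Chi
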