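import Mathlib
import Pool.Agent.Helper64.Chi.Local3K
import Pool.Agent.Helper64.Chi.Local3J
import Pool.Agent.Helper64.Chi.Local3O

/-!
# The local identities
-/

set_option autoImplicit false
set_option linter.unusedSimpArgs false

namespace Pool.Agent.Helper64.Chi

section
variable {R : Type} [CommRing R]

lemma locOK_r1 (x : ℕ) (o s : Bool) :
    LocOK R ![[], [], []] ![[⟨x, o, s⟩, ⟨x, !o, s⟩], [], []] [x] := by
  refine ⟨?_, ?_, ?_, ?_⟩
  · intro i v hv
    fin_cases i <;> simp at hv
  · intro i v hv
    fin_cases i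
    · simp at hv
      rcases hv with hv | hv <;> simp [hv]
    · simp at hv
    · simp at hv
  · intro cs i
    fin_cases i
    · simp only [Fin.zero_eta, Matrix.cons_val_zero]
      generalize hc : cs 0 = c0
      cases c0 <;> cases o <;>
        simp [DS_cons, dS, dN, dM, locEnv, cnt_cons, hc, Prod.ext_iff]
    · simp
    · simp
  · intro cs ss
    generalize hc : cs 0 = c0
    cases c0 <;> cases o <;> cases s <;>
      simp [locLV, pair, theta, psi, scan_cons, dS, dN, dM, locEnv, cnt_cons, hc]

lemma locOK_r2 (x y : ℕ) (s par : Bool) (h : x ≠ y) :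
    LocOK R ![[], [], []] ![[⟨x, true, s⟩, ⟨y, true, !s⟩],
          if par then [⟨x, false, s⟩, ⟨y, false, !s⟩]
            else [⟨y, false, !s⟩, ⟨x, false, s⟩], []] [x, y] := by
  refine ⟨?_, ?_, ?_, ?_⟩
  · intro i v hv
    fin_cases i <;> simp at hv
  · intro i v hv
    fin_cases i
    · simp at hv
      rcases hv with hv | hv <;> simp [hv]
    · cases par <;> simp at hv <;> rcases hv with hv | hv <;> simp [hv]
    · simp at hv
  · intro cs i
    generalize hc : cs 0 = c0
    generalize hc1 : cs 1 = c1
    fin_cases i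
    · cases par <;> cases c0 <;> cases c1 <;> cases s <;>
        simp [DS_cons, dS, dN, dM, locEnv, cnt_cons, hc, hc1, Prod.ext_iff, h, h.symm]
    · cases par <;> cases c0 <;> cases c1 <;> cases s <;>
        simp [DS_cons, dS, dN, dM, locEnv, cnt_cons, hc, hc1, Prod.ext_iff, h, h.symm]
    · simp
  · intro cs ss
    generalize hc : cs 0 = c0
    generalize hc1 : cs 1 = c1
    cases c0 <;> cases c1 <;> cases par <;> cases s <;>
      simp [locLV, pair, theta, psi, scan_cons, dS, dN, dM, locEnv, cnt_cons, hc, hc1, h,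
        h.symm]

lemma locOK_r3_T (x y z : ℕ) (a b c : Bool) (hxy : x ≠ y) (hxz : x ≠ z) (hyz : y ≠ z)
    (cs : Fin 3 → Color) (i : Fin 3) :
    DS R (cs i) (locEnv cs (triangle x y z a b c true)) (triangle x y z a b c true i) =
      DS R (cs i) (locEnv cs (triangle x y z a b c false)) (triangle x y z a b c false i) := by
  generalize hc : cs 0 = c0
  generalize hc1 : cs 1 = c1
  generalize hc2 : cs 2 = c2
  fin_cases i
  · cases a <;> cases b <;> cases c <;> cases c0 <;>
      simp [triangle, DS_cons, dS, dN, dM, locEnv, cnt_cons, hc, hc1, hc2, Prod.ext_iff,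
        hxy, hxy.symm, hxz, hxz.symm, hyz, hyz.symm, add_comm]
  · cases a <;> cases b <;> cases c <;> cases c1 <;>
      simp [triangle, DS_cons, dS, dN, dM, locEnv, cnt_cons, hc, hc1, hc2, Prod.ext_iff,
        hxy, hxy.symm, hxz, hxz.symm, hyz, hyz.symm, add_comm]
  · cases a <;> cases b <;> cases c <;> cases c2 <;>
      simp [triangle, DS_cons, dS, dN, dM, locEnv, cnt_cons, hc, hc1, hc2, Prod.ext_iff,
        hxy, hxy.symm, hxz, hxz.symm, hyz, hyz.symm, add_comm]

lemma locOK_r3 (x y z : ℕ) (a b c : Bool) (h : [x, y, z].Nodup) :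
    LocOK R (triangle x y z a b c true) (triangle x y z a b c false) [x, y, z] := by
  have hxy : x ≠ y := by rintro rfl; simp at h
  have hxz : x ≠ z := by rintro rfl; simp at h
  have hyz : y ≠ z := by rintro rfl; simp at h
  refine ⟨?_, ?_, fun cs i => locOK_r3_T x y z a b c hxy hxz hyz cs i, ?_⟩
  · intro i v hv
    fin_cases i <;> cases a <;> cases b <;> cases c <;> simp [triangle] at hv <;>
      rcases hv with hv | hv <;> simp [hv]
  · intro i v hv
    fin_cases i <;> cases a <;> cases b <;> cases c <;> simp [triangle] at hv <;>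
      rcases hv with hv | hv <;> simp [hv]
  · intro cs ss
    cases hc : cs 0
    · exact locOK_r3_K x y z a b c hxy hxz hyz cs ss hc
    · exact locOK_r3_J x y z a b c hxy hxz hyz cs ss hc
    · exact locOK_r3_O x y z a b c hxy hxz hyz cs ss hc

lemma locOK_of_reid {f g : Fin 3 → Word} {X : List ℕ} (h : Reid f g X) : LocOK R f g X := by
  cases h with
  | r1 x o s => exact locOK_r1 x o s
  | r2 x y s par h => exact locOK_r2 x y s par h
  | r3 x y z a b c h => exact locOK_r3 x y z a b c h

end

end Pool.Agent.Helper64.Chi
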