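import Mathlib
import Pool.Agent.Helper64.Chi.Local

/-!
# Behaviour of flows and of the state sum under Reidemeister moves
-/

set_option autoImplicit false

namespace Pool.Agent.Helper64.Chi

section
variable {R : Type} [CommRing R]

/-- total label change along each component -/
def flows (R : Type) [CommRing R] (col : ℕ → Color) (D : Diagram) : Multiset (ℕ × (ℤ × R)) :=
  D.map fun p => (p.1, DS R (col p.1) (env col D) p.2)

lemma flows_fst (col : ℕ → Color) (D : Diagram) :
    (flows R col D).map Prod.fst = D.map Prod.fst := by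
  simp [flows]

lemma lift_map {α β γ : Type} {f : α → β} {D : Multiset α} {S' : Multiset (β × γ)}
    (h : S'.map Prod.fst = D.map f) :
    ∃ S : Multiset (α × γ), S.map Prod.fst = D ∧ (S.map fun p => (f p.1, p.2)) = S' := by
  induction D using Multiset.induction_on generalizing S' with
  | empty =>
    refine ⟨0, rfl, ?_⟩
    rw [Multiset.map_zero, Multiset.map_eq_zero] at h
    rw [h]; rfl
  | cons a D ih =>
    have h' : S'.map Prod.fst = f a ::ₘ D.map f := by rw [h]; simp
    obtain ⟨b, S1, rfl, hb, h2⟩ := map_cons_split h'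
    obtain ⟨S2, hS2, hS3⟩ := ih h2
    refine ⟨(a, b.2) ::ₘ S2, by simp [hS2], ?_⟩
    obtain ⟨b1, b2⟩ := b
    simp only at hb
    simp [← hS3, hb]

lemma env_cons (col : ℕ → Color) (p : ℕ × Word) (D : Diagram) :
    env col (p ::ₘ D) =
      ⟨fun x => (if col p.1 = .K then cnt x true p.2 else 0) + (env col D).k x,
        fun x => (if col p.1 = .J then cnt x false p.2 else 0) + (env col D).j x⟩ := by
  simp [env]

lemma env_eq_of_cnt (col : ℕ → Color) {c : ℕ} {u v : Word} (D : Diagram)
    (h : ∀ x o, cnt x o u = cnt x o v) : env col ((c, u) ::ₘ D) = env col ((c, v) ::ₘ D) := by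
  simp [env_cons, h]

lemma env_rot (col : ℕ → Color) (c : ℕ) (u v : Word) (D : Diagram) :
    env col ((c, u ++ v) ::ₘ D) = env col ((c, v ++ u) ::ₘ D) :=
  env_eq_of_cnt col D fun x o => by rw [cnt_append, cnt_append, add_comm]

lemma flows_rot (col : ℕ → Color) (c : ℕ) (u v : Word) (D : Diagram) :
    flows R col ((c, u ++ v) ::ₘ D) = flows R col ((c, v ++ u) ::ₘ D) := by
  simp [flows, env_rot col c u v, DS_append, add_comm]

lemma shift_cons (t : ℕ → ℤ × R) (p : (ℕ × Word) × (ℤ × R)) (S : Deco R) :
    shift t (p ::ₘ S) = (p.1, p.2 + t p.1.1) ::ₘ shift t S := by simp [shift]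

lemma lvs_cons (col : ℕ → Color) (e : Env) (p : (ℕ × Word) × (ℤ × R)) (S : Deco R) :
    lvs col e (p ::ₘ S) = (scan (col p.1.1) e p.1.2 p.2 : Multiset (LV R)) + lvs col e S := by
  simp [lvs]

lemma deco_rot (col : ℕ → Color) (c : ℕ) (u v : Word) (D : Diagram)
    (hz : ∀ q ∈ flows R col ((c, v ++ u) ::ₘ D), q.2 = 0) (S' : Deco R)
    (hS' : S'.map Prod.fst = (c, v ++ u) ::ₘ D) :
    ∃ S : Deco R, S.map Prod.fst = (c, u ++ v) ::ₘ D ∧
      ∀ t, Psi col (shift t S) = Psi col (shift t S') := by
  obtain ⟨⟨q, s⟩, S0, rfl, hq, hS0⟩ := map_cons_split hS'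
  simp only at hq
  subst hq
  set e := env col ((c, v ++ u) ::ₘ D) with he
  have h0 : DS R (col c) e v + DS R (col c) e u = 0 := by
    have := hz (c, DS R (col c) e (v ++ u)) (by simp [flows, he])
    simpa [DS_append] using this
  refine ⟨((c, u ++ v), s + DS R (col c) e v) ::ₘ S0, by simp [hS0], fun t => ?_⟩
  unfold Psi
  rw [shift_map_fst, shift_map_fst, hS', Multiset.map_cons, hS0, env_rot col c u v, ← he,
    shift_cons, shift_cons, lvs_cons, lvs_cons]
  have : (scan (col c) e (u ++ v) (s + DS R (col c) e v + t c) : Multiset (LV R)) =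
      (scan (col c) e (v ++ u) (s + t c) : Multiset (LV R)) := by
    rw [scan_append, scan_append, ← Multiset.coe_add, ← Multiset.coe_add, add_comm]
    congr 2
    · congr 1
      have : s + DS R (col c) e v + t c + DS R (col c) e u =
        s + t c + (DS R (col c) e v + DS R (col c) e u) := by abel
      rw [this, h0, add_zero]
    · congr 1
      abel
  simp only [this]

/-! ### renaming -/

def ren (π : Equiv.Perm ℕ) (v : Visit) : Visit := ⟨π v.x, v.up, v.pos⟩

def renD (π : Equiv.Perm ℕ) (p : ℕ × Word) : ℕ × Word := (p.1, p.2.map (ren π))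

lemma cnt_ren (π : Equiv.Perm ℕ) (x : ℕ) (o : Bool) (w : Word) :
    cnt (π x) o (w.map (ren π)) = cnt x o w := by
  unfold cnt
  rw [List.map_map]
  congr 1
  apply List.map_congr_left
  intro v _
  simp [ren]

lemma env_ren (col : ℕ → Color) (π : Equiv.Perm ℕ) (D : Diagram) (x : ℕ) :
    (env col (D.map (renD π))).k (π x) = (env col D).k x ∧
    (env col (D.map (renD π))).j (π x) = (env col D).j x := by
  constructor
  · show ((D.map (renD π)).map _).sum = (D.map _).sum
    rw [Multiset.map_map]
    congr 1
    apply Multiset.map_congr rfl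
    intro p _
    simp [renD, cnt_ren]
  · show ((D.map (renD π)).map _).sum = (D.map _).sum
    rw [Multiset.map_map]
    congr 1
    apply Multiset.map_congr rfl
    intro p _
    simp [renD, cnt_ren]

lemma DS_ren {c : Color} {e e' : Env} (π : Equiv.Perm ℕ)
    (h : ∀ x, e'.k (π x) = e.k x ∧ e'.j (π x) = e.j x) (w : Word) :
    DS R c e' (w.map (ren π)) = DS R c e w := by
  unfold DS
  rw [List.map_map]
  congr 1
  apply List.map_congr_left
  intro v _
  simp [ren, dS, dN, dM, (h v.x).1, (h v.x).2]

def renLV (π : Equiv.Perm ℕ) (a : LV R) : LV R := (a.1, ren π a.2.1, a.2.2)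

lemma scan_ren {c : Color} {e e' : Env} (π : Equiv.Perm ℕ)
    (h : ∀ x, e'.k (π x) = e.k x ∧ e'.j (π x) = e.j x) (w : Word) (s : ℤ × R) :
    scan c e' (w.map (ren π)) s = (scan c e w s).map (renLV π) := by
  induction w generalizing s with
  | nil => rfl
  | cons v w ih =>
    rw [List.map_cons, scan_cons, scan_cons]
    by_cases hc : c = .O
    · simp [hc]
    · rw [if_neg hc, if_neg hc, List.map_cons, ih]
      have : dS R c e' (ren π v) = dS R c e v := by
        simp [ren, dS, dN, dM, (h v.x).1, (h v.x).2]
      rw [this]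
      rfl

lemma theta_ren (π : Equiv.Perm ℕ) (a b : LV R) : theta (renLV π a) (renLV π b) = theta a b := by
  simp [theta, renLV, ren]

lemma pair_ren (π : Equiv.Perm ℕ) (A B : Multiset (LV R)) :
    pair (A.map (renLV π)) (B.map (renLV π)) = pair A B := by
  simp only [pair, Multiset.map_map, Function.comp_def, theta_ren]

lemma Psi_ren (col : ℕ → Color) (π : Equiv.Perm ℕ) (S : Deco R) :
    Psi col (S.map fun p => (renD π p.1, p.2)) = Psi col S := by
  unfold Psi
  have h1 : (S.map fun p => (renD π p.1, p.2)).map Prod.fst = (S.map Prod.fst).map (renD π) := by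
    simp [Function.comp_def]
  rw [h1]
  have h2 : lvs col (env col ((S.map Prod.fst).map (renD π))) (S.map fun p => (renD π p.1, p.2)) =
      (lvs col (env col (S.map Prod.fst)) S).map (renLV π) := by
    unfold lvs
    rw [Multiset.bind_map, Multiset.map_bind]
    apply Multiset.bind_congr
    intro p _
    rw [Multiset.map_coe]
    congr 1
    exact scan_ren π (env_ren col π _) _ _
  rw [h2, pair_ren]

lemma shift_renD (t : ℕ → ℤ × R) (π : Equiv.Perm ℕ) (S : Deco R) :
    shift t (S.map fun p => (renD π p.1, p.2)) = (shift t S).map fun p => (renD π p.1, p.2) := by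
  simp [shift, renD]

lemma flows_ren (col : ℕ → Color) (π : Equiv.Perm ℕ) (D : Diagram) :
    flows R col (D.map (renD π)) = flows R col D := by
  unfold flows
  rw [Multiset.map_map]
  apply Multiset.map_congr rfl
  intro p _
  show (p.1, _) = (p.1, _)
  congr 1
  exact DS_ren π (env_ren col π D) p.2

lemma shift_fillD (t : ℕ → ℤ × R) (S : Multiset ((ℕ × HWord) × (ℤ × R))) (f : Fin 3 → Word) :
    shift t (fillD S f) = fillD (S.map fun p => (p.1, p.2 + t p.1.1)) f := by
  simp [shift, fillD]

theorem flows_move {col : ℕ → Color} {D D' : Diagram} (h : RMove D D') :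
    flows R col D = flows R col D' := by
  cases h with
  | rot c u v D => exact flows_rot col c u v D
  | rename π D => exact (flows_ren col π D).symm
  | reid E hE hX hr =>
    unfold flows
    show (E.map _).map _ = (E.map _).map _
    rw [Multiset.map_map, Multiset.map_map]
    apply Multiset.map_congr rfl
    intro p hp
    show (p.1, _) = (p.1, _)
    congr 1
    exact DS_fill_eq hE hX (locOK_of_reid hr) hp

theorem deco_move {col : ℕ → Color} {D D' : Diagram} (h : RMove D D' ∨ RMove D' D)
    (hz : ∀ q ∈ flows R col D', q.2 = 0) (S' : Deco R) (hS' : S'.map Prod.fst = D') :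
    ∃ S : Deco R, S.map Prod.fst = D ∧ ∀ t, Psi col (shift t S) = Psi col (shift t S') := by
  rcases h with h | h
  · cases h with
    | rot c u v D => exact deco_rot col c u v D hz S' hS'
    | rename π D =>
      obtain ⟨S, hS, hS2⟩ := lift_map (f := renD π) hS'
      refine ⟨S, hS, fun t => ?_⟩
      rw [← hS2, shift_renD, Psi_ren]
    | reid E hE hX hr =>
      obtain ⟨S, hS, rfl⟩ := lift_fill hS'
      refine ⟨fillD S _, by rw [fillD_fst, hS], fun t => ?_⟩
      rw [shift_fillD, shift_fillD]
      exact psi_fill (by simp [hS]) hE hX (locOK_of_reid hr)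
  · cases h with
    | rot c u v D => exact deco_rot col c v u D hz S' hS'
    | rename π D =>
      refine ⟨S'.map fun p => (renD π p.1, p.2), ?_, fun t => ?_⟩
      · have : (S'.map fun p => (renD π p.1, p.2)).map Prod.fst =
          (S'.map Prod.fst).map (renD π) := by simp [Function.comp_def]
        rw [this, hS']
        rfl
      · rw [shift_renD, Psi_ren]
    | reid E hE hX hr =>
      obtain ⟨S, hS, rfl⟩ := lift_fill hS'
      refine ⟨fillD S _, by rw [fillD_fst, hS], fun t => ?_⟩
      rw [shift_fillD, shift_fillD]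
      exact psi_fill (by simp [hS]) hE hX (locOK_of_reid hr).symm

end

end Pool.Agent.Helper64.Chi
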