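import Mathlib
import Pool.Agent.Helper64.Chi.Moves

/-!
# Reversing a part of a component
-/

set_option autoImplicit false

namespace Pool.Agent.Helper64.Chi

section
variable {R : Type} [CommRing R]

lemma cnt_nonneg (x : ℕ) (o : Bool) (w : Word) : 0 ≤ cnt x o w := by
  unfold cnt
  apply List.sum_nonneg
  intro y hy
  obtain ⟨v, _, rfl⟩ := List.mem_map.1 hy
  split_ifs <;> norm_num

lemma cnt_pos_of_mem {o : Bool} {w : Word} {v : Visit} (h : v ∈ w) (ho : v.up = o) :
    1 ≤ cnt v.x o w := by
  induction w with
  | nil => simp at h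
  | cons a w ih =>
    rw [cnt_cons]
    rcases List.mem_cons.1 h with h | h
    · subst h
      have := cnt_nonneg v.x o w
      simp [ho, this]
    · have := ih h
      split_ifs <;> omega

/-- total number of over- or under-passages through a crossing -/
def tot (D : Diagram) (x : ℕ) (o : Bool) : ℤ := (D.map fun p => cnt x o p.2).sum

lemma tot_cons (p : ℕ × Word) (D : Diagram) (x : ℕ) (o : Bool) :
    tot (p ::ₘ D) x o = cnt x o p.2 + tot D x o := by simp [tot]

lemma tot_nonneg (D : Diagram) (x : ℕ) (o : Bool) : 0 ≤ tot D x o := by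
  unfold tot
  apply Multiset.sum_nonneg
  intro y hy
  obtain ⟨v, _, rfl⟩ := Multiset.mem_map.1 hy
  exact cnt_nonneg _ _ _

lemma cnt_eq_card (x : ℕ) (o : Bool) (w : Word) :
    cnt x o w = ((w : Multiset Visit).filter fun v => v.x = x ∧ v.up = o).card := by
  induction w with
  | nil => rfl
  | cons v w ih =>
    rw [cnt_cons, ih, ← Multiset.cons_coe, Multiset.filter_cons]
    split_ifs <;> simp [add_comm]

lemma tot_eq_card (D : Diagram) (x : ℕ) (o : Bool) :
    tot D x o = ((visits D).filter fun v => v.x = x ∧ v.up = o).card := by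
  induction D using Multiset.induction_on with
  | empty => rfl
  | cons p D ih =>
    rw [tot_cons, ih, cnt_eq_card]
    unfold visits
    rw [Multiset.cons_bind, Multiset.filter_add, Multiset.card_add]
    push_cast
    rfl

lemma tot_le_one {D : Diagram} (h : ValidCode (visits D)) (x : ℕ) (o : Bool) : tot D x o ≤ 1 := by
  rw [tot_eq_card]
  by_cases hx : ∃ v ∈ visits D, v.x = x
  · obtain ⟨v, hv, rfl⟩ := hx
    have h1 := h v hv
    have h2 : ((visits D).filter fun u => u.x = v.x ∧ u.up = o) =
        ((visits D).filter fun u => u.x = v.x).filter fun u => u.up = o := by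
      rw [Multiset.filter_filter]
      apply Multiset.filter_congr
      intro u _
      tauto
    rw [h2, h1]
    have : ({v, other v} : Multiset Visit) = v ::ₘ other v ::ₘ 0 := rfl
    rw [this]
    cases hvu : v.up <;> cases o <;>
      simp [Multiset.filter_cons, Multiset.filter_singleton, other, hvu]
  · have : (visits D).filter (fun v => v.x = x ∧ v.up = o) = 0 := by
      rw [Multiset.filter_eq_nil]
      intro a ha hax
      exact hx ⟨a, ha, hax.1⟩
    rw [this]
    simp

lemma env_k_nonneg (col : ℕ → Color) (D : Diagram) (x : ℕ) : 0 ≤ (env col D).k x := by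
  show 0 ≤ (D.map _).sum
  apply Multiset.sum_nonneg
  intro y hy
  obtain ⟨v, _, rfl⟩ := Multiset.mem_map.1 hy
  split_ifs
  · exact cnt_nonneg _ _ _
  · exact le_rfl

lemma env_j_nonneg (col : ℕ → Color) (D : Diagram) (x : ℕ) : 0 ≤ (env col D).j x := by
  show 0 ≤ (D.map _).sum
  apply Multiset.sum_nonneg
  intro y hy
  obtain ⟨v, _, rfl⟩ := Multiset.mem_map.1 hy
  split_ifs
  · exact cnt_nonneg _ _ _
  · exact le_rfl

lemma env_k_le_tot (col : ℕ → Color) (D : Diagram) (x : ℕ) : (env col D).k x ≤ tot D x true := by
  induction D using Multiset.induction_on with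
  | empty => exact le_rfl
  | cons p D ih =>
    rw [env_cons, tot_cons]
    have := cnt_nonneg x true p.2
    simp only
    split_ifs <;> omega

lemma env_j_le_tot (col : ℕ → Color) (D : Diagram) (x : ℕ) : (env col D).j x ≤ tot D x false := by
  induction D using Multiset.induction_on with
  | empty => exact le_rfl
  | cons p D ih =>
    rw [env_cons, tot_cons]
    have := cnt_nonneg x false p.2
    simp only
    split_ifs <;> omega

/-- If the over-passage of `x` is on a component not coloured `K`, then `k x = 0`. -/
lemma k_zero {col : ℕ → Color} {c : ℕ} {w : Word} {D : Diagram}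
    (hv : ValidCode (visits ((c, w) ::ₘ D))) (hc : col c ≠ .K) {x : ℕ} (hx : 1 ≤ cnt x true w) :
    (env col ((c, w) ::ₘ D)).k x = 0 := by
  have h1 := tot_le_one hv x true
  rw [tot_cons] at h1
  have h2 := env_k_le_tot col D x
  have h3 := env_k_nonneg col D x
  rw [env_cons]
  simp only [hc, if_false]
  simp only at h1
  omega

lemma j_zero {col : ℕ → Color} {c : ℕ} {w : Word} {D : Diagram}
    (hv : ValidCode (visits ((c, w) ::ₘ D))) (hc : col c ≠ .J) {x : ℕ} (hx : 1 ≤ cnt x false w) :
    (env col ((c, w) ::ₘ D)).j x = 0 := by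
  have h1 := tot_le_one hv x false
  rw [tot_cons] at h1
  have h2 := env_j_le_tot col D x
  have h3 := env_j_nonneg col D x
  rw [env_cons]
  simp only [hc, if_false]
  simp only at h1
  omega

lemma k_le_one {col : ℕ → Color} {D : Diagram} (hv : ValidCode (visits D)) (x : ℕ) :
    (env col D).k x = 0 ∨ (env col D).k x = 1 := by
  have h1 := tot_le_one hv x true
  have h2 := env_k_le_tot col D x
  have h3 := env_k_nonneg col D x
  omega

/-! ### `flipV` -/

@[simp] lemma flipV_x (w : Word) (v : Visit) : (flipV w v).x = v.x := by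
  unfold flipV; split_ifs <;> rfl

@[simp] lemma flipV_up (w : Word) (v : Visit) : (flipV w v).up = v.up := by
  unfold flipV; split_ifs <;> rfl

lemma length_filter_eq (w : Word) (x : ℕ) :
    ((w.filter fun a => a.x = x).length : ℤ) = cnt x true w + cnt x false w := by
  induction w with
  | nil => rfl
  | cons v w ih =>
    rw [cnt_cons, cnt_cons, List.filter_cons]
    by_cases h : v.x = x
    · cases hv : v.up <;> simp [h] <;> omega
    · simp [h, ih]

lemma flipV_eq (w : Word) (v : Visit) :
    flipV w v = if cnt v.x true w + cnt v.x false w = 1 then ⟨v.x, v.up, !v.pos⟩ else v := by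
  unfold flipV
  have h := length_filter_eq w v.x
  by_cases h1 : (w.filter fun a => a.x = v.x).length = 1
  · rw [if_pos h1, if_pos]
    rw [← h, h1]; rfl
  · rw [if_neg h1, if_neg]
    rw [← h]
    exact_mod_cast h1

lemma cnt_flip (v : Word) (x : ℕ) (o : Bool) (w : Word) : cnt x o (w.map (flipV v)) = cnt x o w := by
  unfold cnt
  rw [List.map_map]
  congr 1
  apply List.map_congr_left
  intro a _
  simp

lemma cnt_reverse (x : ℕ) (o : Bool) (w : Word) : cnt x o w.reverse = cnt x o w := by
  unfold cnt
  rw [List.map_reverse, List.sum_reverse]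

lemma env_flip (col : ℕ → Color) (v : Word) (D : Diagram) :
    env col (flipSigns v D) = env col D := by
  unfold env flipSigns
  simp only [Multiset.map_map, Function.comp_def, cnt_flip]

lemma env_twist (col : ℕ → Color) (c : ℕ) (u v : Word) (D : Diagram) :
    env col (flipSigns v ((c, u ++ v.reverse) ::ₘ D)) = env col ((c, u ++ v) ::ₘ D) := by
  rw [env_flip]
  apply env_eq_of_cnt
  intro x o
  rw [cnt_append, cnt_append, cnt_reverse]

/-- The hypotheses on a component which may be reversed. -/
structure Rev (R : Type) [CommRing R] (col : ℕ → Color) (c : ℕ) (w : Word) (D : Diagram) :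
    Prop where
  hv : ValidCode (visits ((c, w) ::ₘ D))
  hK : col c ≠ .K
  hJ : col c = .J → (2 : R) = 0

lemma neg_eq_of_two (h : (2 : R) = 0) (a : R) : -a = a := by
  have : a + a = 0 := by rw [← two_mul, h, zero_mul]
  exact neg_eq_of_add_eq_zero_left this

lemma sgn_cast_two (h : (2 : R) = 0) (b : Bool) : ((sgn b : ℤ) : R) = 1 := by
  cases b
  · simp [neg_eq_of_two h]
  · simp

variable {col : ℕ → Color} {c : ℕ} {u v : Word} {D : Diagram}

/-- visits outside of `v` do not change their contribution -/
lemma dS_flip_out (h : Rev R col c (u ++ v) D) {c' : Color} {b : Visit} {q : ℕ × Word}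
    (hq : (q ∈ D ∧ b ∈ q.2 ∧ c' = col q.1) ∨ (b ∈ u ∧ c' = col c)) :
    dS R c' (env col ((c, u ++ v) ::ₘ D)) (flipV v b) =
      dS R c' (env col ((c, u ++ v) ::ₘ D)) b := by
  rw [flipV_eq]
  split_ifs with h1
  swap
  · rfl
  -- the total count bound
  have htot : ∀ o, b.up = o → cnt b.x o v + 1 ≤ tot ((c, u ++ v) ::ₘ D) b.x o := by
    intro o ho
    rw [tot_cons]
    simp only [cnt_append]
    rcases hq with ⟨hqD, hbq, -⟩ | ⟨hbu, -⟩
    · obtain ⟨D1, rfl⟩ := Multiset.exists_cons_of_mem hqD
      rw [tot_cons]
      have h3 := cnt_pos_of_mem hbq ho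
      have h4 := tot_nonneg D1 b.x o
      have h5 := cnt_nonneg b.x o u
      omega
    · have h3 := cnt_pos_of_mem hbu ho
      have h4 := tot_nonneg D b.x o
      omega
  have hle : ∀ o, tot ((c, u ++ v) ::ₘ D) b.x o ≤ 1 := fun o => tot_le_one h.hv _ _
  unfold dS
  ext
  · -- N part
    show dN _ _ _ = dN _ _ _
    unfold dN
    simp only
    by_cases hc : c' = .J ∧ b.up = false
    · rw [if_pos hc, if_pos hc]
      have h2 := htot false hc.2
      have h3 := hle false
      have h4 : 1 ≤ cnt b.x true (u ++ v) := by
        rw [cnt_append]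
        have := cnt_nonneg b.x true u
        have := cnt_nonneg b.x false v
        omega
      rw [k_zero h.hv h.hK h4]
      simp
    · rw [if_neg hc, if_neg hc]
  · show ((dM _ _ _ : ℤ) : R) = ((dM _ _ _ : ℤ) : R)
    unfold dM
    simp only
    by_cases hc : c' = .K ∧ b.up = true
    · rw [if_pos hc, if_pos hc]
      by_cases hJ : col c = .J
      · push_cast
        rw [sgn_cast_two (h.hJ hJ), sgn_cast_two (h.hJ hJ)]
      · have h2 := htot true hc.2
        have h3 := hle true
        have h4 : 1 ≤ cnt b.x false (u ++ v) := by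
          rw [cnt_append]
          have := cnt_nonneg b.x false u
          have := cnt_nonneg b.x true v
          omega
        rw [j_zero h.hv hJ h4]
        simp
    · rw [if_neg hc, if_neg hc]

/-- visits in `v` change the sign of their contribution -/
lemma dS_flip_in (h : Rev R col c (u ++ v) D) {b : Visit} (hb : b ∈ v) :
    dS R (col c) (env col ((c, u ++ v) ::ₘ D)) (flipV v b) =
      - dS R (col c) (env col ((c, u ++ v) ::ₘ D)) b := by
  have hM : ∀ b, dM (col c) (env col ((c, u ++ v) ::ₘ D)) b = 0 := by
    intro b; unfold dM; rw [if_neg]; exact fun h' => h.hK h'.1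
  unfold dS
  ext
  · show dN _ _ _ = - dN _ _ _
    unfold dN
    by_cases hc : col c = .J ∧ b.up = false
    · have hc' : col c = .J ∧ (flipV v b).up = false := by rwa [flipV_up]
      rw [if_pos hc, if_pos hc', flipV_x]
      by_cases h4 : 1 ≤ cnt b.x true (u ++ v)
      · rw [k_zero h.hv h.hK h4]; simp
      · have h5 := tot_le_one h.hv b.x false
        rw [tot_cons] at h5
        simp only at h5
        rw [cnt_append] at h4 h5
        have h6 := cnt_pos_of_mem hb hc.2
        have h7 := tot_nonneg D b.x false
        have h8 := cnt_nonneg b.x false u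
        have h9 := cnt_nonneg b.x true u
        have h10 := cnt_nonneg b.x true v
        rw [flipV_eq, if_pos (by omega)]
        simp only [sgn_not]
        ring
    · have hc' : ¬ (col c = .J ∧ (flipV v b).up = false) := by rwa [flipV_up]
      rw [if_neg hc, if_neg hc']; simp
  · show ((dM _ _ _ : ℤ) : R) = - ((dM _ _ _ : ℤ) : R)
    rw [hM, hM]; simp

lemma DS_map_of_eq {c' : Color} {e : Env} {φ : Visit → Visit} {w : Word}
    (h : ∀ b ∈ w, dS R c' e (φ b) = dS R c' e b) : DS R c' e (w.map φ) = DS R c' e w := by
  unfold DS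
  rw [List.map_map]
  congr 1
  exact List.map_congr_left h

lemma DS_map_of_neg {c' : Color} {e : Env} {φ : Visit → Visit} {w : Word}
    (h : ∀ b ∈ w, dS R c' e (φ b) = - dS R c' e b) :
    DS R c' e ((w.reverse).map φ) = - DS R c' e w := by
  unfold DS
  rw [List.map_reverse, List.map_reverse, List.sum_reverse, List.map_map]
  have h2 : w.map (dS R c' e ∘ φ) = w.map (fun b => - dS R c' e b) := List.map_congr_left h
  rw [h2]
  induction w with
  | nil => simp
  | cons a w ih =>
    simp only [List.map_cons, List.sum_cons]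
    rw [ih (fun b hb => h b (List.mem_cons_of_mem _ hb))]
    · abel
    · exact List.map_congr_left (fun b hb => h b (List.mem_cons_of_mem _ hb))

theorem flows_twist (h : Rev R col c (u ++ v) D) :
    flows R col (flipSigns v ((c, u ++ v.reverse) ::ₘ D)) =
      (c, DS R (col c) (env col ((c, u ++ v) ::ₘ D)) u -
        DS R (col c) (env col ((c, u ++ v) ::ₘ D)) v) ::ₘ
      D.map fun p => (p.1, DS R (col p.1) (env col ((c, u ++ v) ::ₘ D)) p.2) := by
  unfold flows
  rw [env_twist]
  unfold flipSigns
  rw [Multiset.map_map, Multiset.map_cons]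
  congr 1
  · show (c, _) = (c, _)
    congr 1
    show DS R (col c) _ ((u ++ v.reverse).map (flipV v)) = _
    rw [List.map_append, DS_append, DS_map_of_eq, DS_map_of_neg, sub_eq_add_neg]
    · intro b hb; exact dS_flip_in h hb
    · intro b hb; exact dS_flip_out (q := (0, [])) h (Or.inr ⟨hb, rfl⟩)
  · apply Multiset.map_congr rfl
    intro p hp
    show (p.1, _) = (p.1, _)
    congr 1
    show DS R (col p.1) _ (p.2.map (flipV v)) = _
    apply DS_map_of_eq
    intro b hb
    exact dS_flip_out h (Or.inl ⟨hp, hb, rfl⟩)

end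

end Pool.Agent.Helper64.Chi
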