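import Mathlib
import Pool.Agent.Helper64.Chi.Flip

/-!
# Bookkeeping along surfaces
-/

set_option autoImplicit false

namespace Pool.Agent.Helper64.Chi

section
variable {R : Type} [CommRing R]

/-- the classes of the components -/
abbrev cls (D : Diagram) : Multiset ℕ := D.map Prod.fst

def rho (c d : ℕ) (a : ℕ) : ℕ := if a = d then c else a

lemma rho_self (c : ℕ) : rho c c = id := by
  funext a; unfold rho; split_ifs with h
  · exact h.symm
  · rfl

lemma count_rho_left {c d : ℕ} (h : c ≠ d) (C : Multiset ℕ) :
    (C.map (rho c d)).count c = C.count c + C.count d := by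
  induction C using Multiset.induction_on with
  | empty => rfl
  | cons a C ih =>
    rw [Multiset.map_cons, Multiset.count_cons, ih, Multiset.count_cons, Multiset.count_cons]
    unfold rho
    by_cases h1 : a = d
    · subst h1
      have : c ≠ a := h
      simp [this]; omega
    · rw [if_neg h1]
      have h2 : ¬ d = a := fun h' => h1 h'.symm
      simp [h2]; omega

lemma count_rho_other {c d c' : ℕ} (h : c' ≠ c) (h' : c' ≠ d) (C : Multiset ℕ) :
    (C.map (rho c d)).count c' = C.count c' := by
  induction C using Multiset.induction_on with
  | empty => rfl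
  | cons a C ih =>
    rw [Multiset.map_cons, Multiset.count_cons, ih, Multiset.count_cons]
    unfold rho
    by_cases h1 : a = d
    · subst h1
      simp [h, h']
    · rw [if_neg h1]

lemma mem_rho {c d a : ℕ} {C : Multiset ℕ} (h : a ∈ C.map (rho c d)) (ha : a ≠ c) :
    a ∈ C ∧ a ≠ d := by
  obtain ⟨b, hb, rfl⟩ := Multiset.mem_map.1 h
  unfold rho at *
  split_ifs at * with h1
  · exact absurd rfl ha
  · exact ⟨hb, h1⟩

lemma cut_cls (c d : ℕ) (w : Word) (D : Diagram) :
    cls ((c, w) ::ₘ D.map fun p => (if p.1 = d then c else p.1, p.2)) =
      c ::ₘ (cls D).map (rho c d) := by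
  simp [cls, rho, Function.comp_def]

lemma cls_move {D D' : Diagram} (h : RMove D D' ∨ RMove D' D) : cls D = cls D' := by
  rcases h with h | h
  · have := flows_move (R := ℤ) (col := fun _ => .O) h
    rw [cls, cls, ← flows_fst (R := ℤ) (fun _ => .O) D, this, flows_fst]
  · have := flows_move (R := ℤ) (col := fun _ => .O) h
    rw [cls, cls, ← flows_fst (R := ℤ) (fun _ => .O) D, ← this, flows_fst]

lemma cls_flip (v : Word) (D : Diagram) : cls (flipSigns v D) = cls D := by
  simp [cls, flipSigns, Function.comp_def]

/-- `2 - χ - (number of boundary circles)` is nonnegative. -/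
theorem gen_nonneg {D : Diagram} {χ : ℕ → ℤ} {o : ℕ → Bool} (h : Bounds D χ o) :
    ∀ c ∈ cls D, 0 ≤ 2 - χ c - (cls D).count c := by
  induction h with
  | empty χ o => intro c hc; simp [cls] at hc
  | @move D D' χ o h1 h2 _ ih =>
    rw [cls_move h2]; exact ih
  | @death D χ o c b h1 hc ih =>
    intro c' hc'
    rw [cls, Multiset.map_cons] at hc' ⊢
    by_cases h : c' = c
    · subst h
      rw [Function.update_self, Multiset.count_cons_self, Multiset.count_eq_zero.2 hc]
      norm_num
    · rw [Function.update_of_ne h, Multiset.count_cons_of_ne h]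
      exact ih c' ((Multiset.mem_cons.1 hc').resolve_left h)
  | @birth D χ o c h1 hc ih =>
    intro c' hc'
    have := ih c' (by rw [cls, Multiset.map_cons]; exact Multiset.mem_cons_of_mem hc')
    rw [cls, Multiset.map_cons] at this
    by_cases h : c' = c
    · subst h
      rw [Multiset.count_cons_self] at this
      rw [Function.update_self]
      push_cast at this ⊢
      linarith
    · rw [Multiset.count_cons_of_ne h] at this
      rw [Function.update_of_ne h]
      exact this
  | @cut D χ o c d u v h1 ho hpl ih =>
    intro c' hc'
    rw [cut_cls] at hc' ⊢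
    have ihc := ih c (by simp [cls])
    have ihd := ih d (by simp [cls])
    rw [cls, Multiset.map_cons, Multiset.map_cons] at ihc ihd ih
    by_cases h : c' = c
    · subst h
      rw [Function.update_self, Multiset.count_cons_self]
      by_cases hcd : c' = d
      · subst hcd
        rw [if_pos rfl, rho_self, Multiset.map_id]
        simp only [Multiset.count_cons_self] at ihc
        push_cast at ihc ⊢
        linarith
      · rw [if_neg hcd, count_rho_left hcd]
        simp only [Multiset.count_cons_self, Multiset.count_cons_of_ne hcd,
          Multiset.count_cons_of_ne (Ne.symm hcd)] at ihc ihd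
        push_cast at ihc ihd ⊢
        linarith
    · have hm := mem_rho ((Multiset.mem_cons.1 hc').resolve_left h) h
      have := ih c' (by simp only [Multiset.mem_cons]; exact Or.inr (Or.inr hm.1))
      simp only [Multiset.count_cons_of_ne h, Multiset.count_cons_of_ne hm.2] at this
      rw [Function.update_of_ne h, Multiset.count_cons_of_ne h, count_rho_other h hm.2]
      exact this
  | @join D χ o c u v h1 hpl ih =>
    intro c' hc'
    rw [cls, Multiset.map_cons, Multiset.map_cons] at hc' ⊢
    rw [cls, Multiset.map_cons] at ih
    by_cases h : c' = c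
    · subst h
      have := ih c' (by simp)
      simp only [Multiset.count_cons_self] at this
      rw [Function.update_self]
      simp only [Multiset.count_cons_self]
      push_cast at this ⊢
      linarith
    · have := ih c' (by
        simp only [Multiset.mem_cons, h, false_or] at hc' ⊢; exact hc')
      simp only [Multiset.count_cons_of_ne h] at this
      rw [Function.update_of_ne h]
      simp only [Multiset.count_cons_of_ne h]
      exact this
  | @twist D χ o c u v h1 ho hpl hpl' ih =>
    intro c' hc'
    rw [cls_flip, cls, Multiset.map_cons] at hc' ⊢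
    rw [cls, Multiset.map_cons] at ih
    have := ih c' hc'
    by_cases h : c' = c
    · subst h
      rw [Function.update_self]
      linarith
    · rw [Function.update_of_ne h]
      exact this
  | @reverse D χ o c v h1 ho hpl ih =>
    intro c' hc'
    rw [cls_flip, cls, Multiset.map_cons] at hc' ⊢
    rw [cls, Multiset.map_cons] at ih
    exact ih c' hc'

/-! ### Number of nonzero flows in a class -/

open Classical in
noncomputable def nz (c : ℕ) (F : Multiset (ℕ × (ℤ × R))) : ℕ :=
  F.countP fun q => q.1 = c ∧ q.2 ≠ 0

open Classical in
lemma nz_cons (c : ℕ) (q : ℕ × (ℤ × R)) (F : Multiset (ℕ × (ℤ × R))) :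
    nz c (q ::ₘ F) = nz c F + if q.1 = c ∧ q.2 ≠ 0 then 1 else 0 := by
  unfold nz; rw [Multiset.countP_cons]

lemma nz_zero_of_not_mem {c : ℕ} {F : Multiset (ℕ × (ℤ × R))} (h : c ∉ F.map Prod.fst) :
    nz c F = 0 := by
  classical
  unfold nz
  rw [Multiset.countP_eq_zero]
  rintro q hq ⟨h1, -⟩
  exact h (h1 ▸ Multiset.mem_map_of_mem _ hq)

lemma nz_zero_iff {c : ℕ} {F : Multiset (ℕ × (ℤ × R))} :
    nz c F = 0 ↔ ∀ q ∈ F, q.1 = c → q.2 = 0 := by
  classical
  unfold nz
  rw [Multiset.countP_eq_zero]
  constructor
  · intro h q hq h1
    by_contra h2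
    exact h q hq ⟨h1, h2⟩
  · rintro h q hq ⟨h1, h2⟩
    exact h2 (h q hq h1)

def rhoF (c d : ℕ) (q : ℕ × (ℤ × R)) : ℕ × (ℤ × R) := (rho c d q.1, q.2)

lemma nz_rho_left {c d : ℕ} (h : c ≠ d) (F : Multiset (ℕ × (ℤ × R))) :
    nz c (F.map (rhoF c d)) = nz c F + nz d F := by
  classical
  induction F using Multiset.induction_on with
  | empty => rfl
  | cons a C ih =>
    rw [Multiset.map_cons, nz_cons, ih, nz_cons, nz_cons]
    unfold rhoF rho
    simp only
    by_cases h1 : a.1 = d
    · rw [if_pos h1, h1]
      have h2 : ¬ d = c := fun h' => h h'.symm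
      simp [h2]; omega
    · rw [if_neg h1]
      simp [h1]; omega

lemma nz_rho_other {c d c' : ℕ} (h : c' ≠ c) (h' : c' ≠ d) (F : Multiset (ℕ × (ℤ × R))) :
    nz c' (F.map (rhoF c d)) = nz c' F := by
  classical
  induction F using Multiset.induction_on with
  | empty => rfl
  | cons a C ih =>
    rw [Multiset.map_cons, nz_cons, ih, nz_cons]
    unfold rhoF rho
    simp only
    by_cases h1 : a.1 = d
    · rw [if_pos h1, h1]
      have h2 : ¬ c = c' := fun h'' => h h''.symm
      have h3 : ¬ d = c' := fun h'' => h' h''.symm
      simp [h2, h3]
    · rw [if_neg h1]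

structure Adm (R : Type) [CommRing R] (col : ℕ → Color) (o : ℕ → Bool) (C : Multiset ℕ) :
    Prop where
  hK : ∀ c ∈ C, col c = .K → o c = true
  hJ : ∀ c ∈ C, col c = .J → o c = true ∨ (2 : R) = 0

lemma env_nil (col : ℕ → Color) (c : ℕ) (D : Diagram) : env col ((c, []) ::ₘ D) = env col D := by
  simp [env_cons]

lemma flows_nil (col : ℕ → Color) (c : ℕ) (D : Diagram) :
    flows R col ((c, []) ::ₘ D) = (c, 0) ::ₘ flows R col D := by
  unfold flows; rw [env_nil, Multiset.map_cons]; rfl

lemma env_join (col : ℕ → Color) (c : ℕ) (u v : Word) (D : Diagram) :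
    env col ((c, u ++ v) ::ₘ D) = env col ((c, u) ::ₘ (c, v) ::ₘ D) := by
  simp only [env_cons, cnt_append]
  congr 1
  · funext x; split_ifs <;> ring
  · funext x; split_ifs <;> ring

lemma env_cut (col : ℕ → Color) (c d : ℕ) (u v : Word) (D : Diagram) :
    env col ((c, u ++ v) ::ₘ D.map fun p => (if p.1 = d then c else p.1, p.2)) =
      env (Function.update col d (col c)) ((c, u) ::ₘ (d, v) ::ₘ D) := by
  have hcol : ∀ a, col (if a = d then c else a) = Function.update col d (col c) a := by
    intro a
    split_ifs with h
    · subst h; rw [Function.update_self]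
    · rw [Function.update_of_ne h]
  have hc : Function.update col d (col c) c = col c := by
    by_cases h : c = d
    · subst h; rw [Function.update_self]
    · rw [Function.update_of_ne h]
  have hd : Function.update col d (col c) d = col c := Function.update_self _ _ _
  have h0 : env col (D.map fun p => (if p.1 = d then c else p.1, p.2)) =
      env (Function.update col d (col c)) D := by
    unfold env
    simp only [Multiset.map_map, Function.comp_def, hcol]
  rw [env_cons, env_cons, env_cons, h0]
  simp only [hc, hd, cnt_append]
  congr 1
  · funext x; split_ifs <;> ring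
  · funext x; split_ifs <;> ring

lemma flows_cut (col : ℕ → Color) (c d : ℕ) (u v : Word) (D : Diagram) :
    ∃ (fu fv : ℤ × R) (F : Multiset (ℕ × (ℤ × R))),
      fu = DS R (col c) (env col ((c, u ++ v) ::ₘ
        D.map fun p => (if p.1 = d then c else p.1, p.2))) u ∧
      flows R col ((c, u ++ v) ::ₘ D.map fun p => (if p.1 = d then c else p.1, p.2)) =
        (c, fu + fv) ::ₘ F.map (rhoF c d) ∧
      flows R (Function.update col d (col c)) ((c, u) ::ₘ (d, v) ::ₘ D) =
        (c, fu) ::ₘ (d, fv) ::ₘ F := by
  have hcol : ∀ a, col (if a = d then c else a) = Function.update col d (col c) a := by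
    intro a
    split_ifs with h
    · subst h; rw [Function.update_self]
    · rw [Function.update_of_ne h]
  have hc : Function.update col d (col c) c = col c := by
    by_cases h : c = d
    · subst h; rw [Function.update_self]
    · rw [Function.update_of_ne h]
  have hd : Function.update col d (col c) d = col c := Function.update_self _ _ _
  refine ⟨_, DS R (col c) (env col ((c, u ++ v) ::ₘ
        D.map fun p => (if p.1 = d then c else p.1, p.2))) v,
    D.map fun p => (p.1, DS R (Function.update col d (col c) p.1) (env col ((c, u ++ v) ::ₘ
        D.map fun p => (if p.1 = d then c else p.1, p.2))) p.2), rfl, ?_, ?_⟩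
  · unfold flows
    rw [Multiset.map_cons, DS_append, Multiset.map_map, Multiset.map_map]
    congr 1
    apply Multiset.map_congr rfl
    intro p _
    simp only [Function.comp_apply, rhoF, rho, hcol]
  · unfold flows
    rw [Multiset.map_cons, Multiset.map_cons, ← env_cut, hc, hd]

lemma adm_cut {col : ℕ → Color} {o : ℕ → Bool} {c d : ℕ} {C : Multiset ℕ}
    (h : Adm R col o (c ::ₘ C.map (rho c d))) (ho : o c = o d) :
    Adm R (Function.update col d (col c)) o (c ::ₘ d ::ₘ C) := by
  have hc : Function.update col d (col c) c = col c := by
    by_cases h : c = d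
    · subst h; rw [Function.update_self]
    · rw [Function.update_of_ne h]
  have hd : Function.update col d (col c) d = col c := Function.update_self _ _ _
  have key : ∀ a ∈ c ::ₘ d ::ₘ C, ∃ b ∈ c ::ₘ C.map (rho c d),
      Function.update col d (col c) a = col b ∧ o a = o b := by
    intro a ha
    by_cases h1 : a = d
    · subst h1
      exact ⟨c, Multiset.mem_cons_self _ _, hd, ho.symm⟩
    · rcases Multiset.mem_cons.1 ha with h2 | h2
      · subst h2; exact ⟨a, Multiset.mem_cons_self _ _, hc, rfl⟩
      · have h3 := (Multiset.mem_cons.1 h2).resolve_left h1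
        refine ⟨a, Multiset.mem_cons_of_mem (Multiset.mem_map.2 ⟨a, h3, ?_⟩),
          Function.update_of_ne h1 _ _, rfl⟩
        unfold rho; rw [if_neg h1]
  constructor
  · intro a ha hcol
    obtain ⟨b, hb, h1, h2⟩ := key a ha
    rw [h2]; exact h.hK b hb (h1 ▸ hcol)
  · intro a ha hcol
    obtain ⟨b, hb, h1, h2⟩ := key a ha
    rw [h2]; exact h.hJ b hb (h1 ▸ hcol)

lemma adm_death {col : ℕ → Color} {o : ℕ → Bool} {c : ℕ} {b : Bool} {C : Multiset ℕ}
    (h : Adm R col (Function.update o c b) (c ::ₘ C)) (hc : c ∉ C) : Adm R col o C := by
  constructor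
  · intro a ha hcol
    have h1 := h.hK a (Multiset.mem_cons_of_mem ha) hcol
    rwa [Function.update_of_ne (by rintro rfl; exact hc ha)] at h1
  · intro a ha hcol
    have h1 := h.hJ a (Multiset.mem_cons_of_mem ha) hcol
    rwa [Function.update_of_ne (by rintro rfl; exact hc ha)] at h1

lemma rev_of_adm {col : ℕ → Color} {o : ℕ → Bool} {c : ℕ} {w : Word} {D : Diagram}
    {C : Multiset ℕ} (h : Adm R col o C) (hc : c ∈ C) (ho : o c = false)
    (hv : Planar ((c, w) ::ₘ D)) : Rev R col c w D where
  hv := hv.1
  hK := fun hk => by
    have := h.hK c hc hk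
    rw [ho] at this
    exact Bool.noConfusion this
  hJ := fun hj => by
    rcases h.hJ c hc hj with h1 | h1
    · rw [ho] at h1
      exact Bool.noConfusion h1
    · exact h1

theorem nz_ne_one {D : Diagram} {χ : ℕ → ℤ} {o : ℕ → Bool} (h : Bounds D χ o) :
    ∀ col : ℕ → Color, Adm R col o (cls D) → ∀ c ∈ cls D,
      2 - χ c - (cls D).count c = 0 → nz c (flows R col D) ≠ 1 := by
  classical
  induction h with
  | empty χ o => intro col _ c hc; simp [cls] at hc
  | @move D D' χ o h1 h2 _ ih =>
    intro col hadm c hc hg
    rw [cls_move h2] at hadm hc hg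
    have : flows R col D = flows R col D' := by
      rcases h2 with h2 | h2
      · exact flows_move h2
      · exact (flows_move h2).symm
    rw [this]
    exact ih col hadm c hc hg
  | @death D χ o c b h1 hc ih =>
    intro col hadm c' hc' hg
    rw [flows_nil, nz_cons, if_neg (by simp), add_zero]
    rw [cls, Multiset.map_cons] at hadm hc' hg
    by_cases h : c' = c
    · subst h
      rw [nz_zero_of_not_mem (by rw [flows_fst]; exact hc)]
      norm_num
    · rw [Function.update_of_ne h, Multiset.count_cons_of_ne h] at hg
      exact ih col (adm_death hadm hc) c' ((Multiset.mem_cons.1 hc').resolve_left h) hg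
  | @birth D χ o c h1 hc ih =>
    intro col hadm c' hc' hg
    have hadm' : Adm R col o (cls ((c, []) ::ₘ D)) := by
      rw [cls, Multiset.map_cons]
      constructor
      · intro a ha
        rcases Multiset.mem_cons.1 ha with h2 | h2
        · subst h2; exact hadm.hK a hc
        · exact hadm.hK a h2
      · intro a ha
        rcases Multiset.mem_cons.1 ha with h2 | h2
        · subst h2; exact hadm.hJ a hc
        · exact hadm.hJ a h2
    have := ih col hadm' c' (by rw [cls, Multiset.map_cons]; exact Multiset.mem_cons_of_mem hc')
    rw [flows_nil, nz_cons, if_neg (by simp), add_zero] at this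
    apply this
    rw [cls, Multiset.map_cons]
    by_cases h : c' = c
    · subst h
      rw [Function.update_self] at hg
      rw [Multiset.count_cons_self]
      push_cast at hg ⊢
      linarith
    · rw [Function.update_of_ne h] at hg
      rw [Multiset.count_cons_of_ne h]
      exact hg
  | @cut D χ o c d u v h1 ho hpl ih =>
    intro col hadm c' hc' hg
    rw [cut_cls] at hadm hc' hg
    obtain ⟨fu, fv, F, -, hF, hF'⟩ := flows_cut (R := R) col c d u v D
    have hadm' := adm_cut hadm ho
    have ih' := ih (Function.update col d (col c)) (by simpa [cls] using hadm')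
    rw [hF'] at ih'
    rw [hF]
    have hG := gen_nonneg h1
    rw [cls, Multiset.map_cons, Multiset.map_cons] at ih' hG
    have hGc := hG c (by simp)
    have hGd := hG d (by simp)
    by_cases h : c' = c
    · subst h
      rw [Function.update_self, Multiset.count_cons_self] at hg
      by_cases hcd : c' = d
      · subst hcd
        rw [if_pos rfl, rho_self, Multiset.map_id] at hg
        simp only [Multiset.count_cons_self] at hGc
        push_cast at hGc hg
        linarith
      · rw [if_neg hcd, count_rho_left hcd] at hg
        have hIc := ih' c' (by simp)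
        have hId := ih' d (by simp)
        simp only [Multiset.count_cons_self, Multiset.count_cons_of_ne hcd,
          Multiset.count_cons_of_ne (Ne.symm hcd)] at hGc hGd hIc hId
        push_cast at hGc hGd hg hIc hId
        have e1 := hIc (by linarith)
        have e2 := hId (by linarith)
        have hdc : ¬ d = c' := fun h' => hcd h'.symm
        simp only [nz_cons, hcd, hdc, false_and, if_false, true_and, add_zero] at e1 e2
        simp only [nz_cons, nz_rho_left hcd, true_and]
        by_cases a1 : fu = 0
        · by_cases a2 : fv = 0
          · simp only [a1, a2, ne_eq, not_true_eq_false, if_false, add_zero] at e1 e2 ⊢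
            omega
          · simp only [a1, a2, ne_eq, not_true_eq_false, not_false_eq_true, if_false, if_true,
              add_zero, zero_add] at e1 e2 ⊢
            omega
        · by_cases a2 : fv = 0
          · simp only [a1, a2, ne_eq, not_true_eq_false, not_false_eq_true, if_false, if_true,
              add_zero, zero_add] at e1 e2 ⊢
            omega
          · simp only [a1, a2, ne_eq, not_false_eq_true, if_true] at e1 e2
            split_ifs <;> omega
    · have hm := mem_rho ((Multiset.mem_cons.1 hc').resolve_left h) h
      have hI := ih' c' (by simp only [Multiset.mem_cons]; exact Or.inr (Or.inr hm.1))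
      simp only [Multiset.count_cons_of_ne h, Multiset.count_cons_of_ne hm.2] at hI
      rw [Function.update_of_ne h, Multiset.count_cons_of_ne h, count_rho_other h hm.2] at hg
      have e1 := hI hg
      have h3 : ¬ c = c' := fun h' => h h'.symm
      have h4 : ¬ d = c' := fun h' => hm.2 h'.symm
      simp only [nz_cons, h3, h4, false_and, if_false, add_zero] at e1
      simp only [nz_cons, h3, false_and, if_false, add_zero, nz_rho_other h hm.2]
      exact e1
  | @join D χ o c u v h1 hpl ih =>
    intro col hadm c' hc' hg
    rw [cls, Multiset.map_cons, Multiset.map_cons] at hc' hg hadm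
    rw [cls, Multiset.map_cons] at ih
    have hadm' : Adm R col o (c ::ₘ D.map Prod.fst) := by
      constructor
      · intro a ha; exact hadm.hK a (by
          simp only [Multiset.mem_cons] at ha ⊢; exact Or.inr ha)
      · intro a ha; exact hadm.hJ a (by
          simp only [Multiset.mem_cons] at ha ⊢; exact Or.inr ha)
    have ih' := ih col hadm'
    unfold flows at ih' ⊢
    rw [env_join, Multiset.map_cons, DS_append] at ih'
    rw [Multiset.map_cons, Multiset.map_cons]
    generalize DS R (col c) (env col ((c, u) ::ₘ (c, v) ::ₘ D)) u = fu at ih' ⊢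
    generalize DS R (col c) (env col ((c, u) ::ₘ (c, v) ::ₘ D)) v = fv at ih' ⊢
    by_cases h : c' = c
    · subst h
      have hI := ih' c' (by simp)
      rw [Function.update_self] at hg
      simp only [Multiset.count_cons_self] at hg hI
      push_cast at hg hI
      have e1 := hI (by linarith)
      simp only [nz_cons, true_and] at e1 ⊢
      by_cases a1 : fu = 0
      · by_cases a2 : fv = 0
        · simp only [a1, a2, ne_eq, not_true_eq_false, if_false, add_zero] at e1 ⊢
          omega
        · simp only [a1, a2, ne_eq, not_true_eq_false, not_false_eq_true, if_false, if_true,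
            add_zero, zero_add] at e1 ⊢
          omega
      · by_cases a2 : fv = 0
        · simp only [a1, a2, ne_eq, not_true_eq_false, not_false_eq_true, if_false, if_true,
            add_zero, zero_add] at e1 ⊢
          omega
        · simp only [a1, a2, ne_eq, not_false_eq_true, if_true]
          omega
    · have hI := ih' c' (by
        simp only [Multiset.mem_cons, h, false_or] at hc' ⊢; exact hc')
      rw [Function.update_of_ne h] at hg
      simp only [Multiset.count_cons_of_ne h] at hg hI
      have e1 := hI hg
      have h3 : ¬ c = c' := fun h' => h h'.symm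
      simp only [nz_cons, h3, false_and, if_false, add_zero] at e1 ⊢
      exact e1
  | @twist D χ o c u v h1 ho hpl hpl' ih =>
    intro col hadm c' hc' hg
    rw [cls_flip, cls, Multiset.map_cons] at hadm hc' hg
    rw [cls, Multiset.map_cons] at ih
    have hrev := rev_of_adm hadm (Multiset.mem_cons_self _ _) ho hpl
    rw [flows_twist hrev]
    have hG := gen_nonneg h1
    rw [cls, Multiset.map_cons] at hG
    by_cases h : c' = c
    · subst h
      have := hG c' (by simp)
      rw [Function.update_self] at hg
      linarith
    · rw [Function.update_of_ne h] at hg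
      have e1 := ih col hadm c' hc' hg
      unfold flows at e1
      have h3 : ¬ c = c' := fun h' => h h'.symm
      simp only [Multiset.map_cons, nz_cons, h3, false_and, if_false, add_zero] at e1 ⊢
      exact e1
  | @reverse D χ o c v h1 ho hpl ih =>
    intro col hadm c' hc' hg
    rw [cls_flip, cls, Multiset.map_cons] at hadm hc' hg
    rw [cls, Multiset.map_cons] at ih
    have hrev : Rev R col c ([] ++ v) D := rev_of_adm hadm (Multiset.mem_cons_self _ _) ho hpl
    have hft := flows_twist hrev
    rw [List.nil_append, List.nil_append] at hft
    rw [hft]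
    have e1 := ih col hadm c' hc' hg
    unfold flows at e1
    simp only [Multiset.map_cons, nz_cons, DS_nil, zero_sub, ne_eq, neg_eq_zero] at e1 ⊢
    exact e1

end

end Pool.Agent.Helper64.Chi
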