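import Mathlib
import Pool.Agent.Helper64.Chi.Surf

/-!
# The state sum modulo 2 does not change when a part of a component is reversed
-/

set_option autoImplicit false

namespace Pool.Agent.Helper64.Chi

section
variable {R : Type} [CommRing R]

def flipLV (v : Word) (a : LV R) : LV R := (a.1, flipV v a.2.1, a.2.2)

def revLV (v : Word) (e : Env) (a : LV R) : LV R :=
  (a.1, flipV v a.2.1, a.2.2 + dS R a.1 e a.2.1)

lemma scan_map_eq {c : Color} {e : Env} {v w : Word}
    (h : ∀ b ∈ w, dS R c e (flipV v b) = dS R c e b) (s : ℤ × R) :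
    scan c e (w.map (flipV v)) s = (scan c e w s).map (flipLV v) := by
  induction w generalizing s with
  | nil => rfl
  | cons a w ih =>
    rw [List.map_cons, scan_cons, scan_cons, h a List.mem_cons_self,
      ih (fun b hb => h b (List.mem_cons_of_mem _ hb))]
    split_ifs <;> rfl

lemma scan_reverse {c : Color} {e : Env} {v w : Word}
    (h : ∀ b ∈ w, dS R c e (flipV v b) = - dS R c e b) (s : ℤ × R) :
    (scan c e (w.reverse.map (flipV v)) (s + DS R c e w) : Multiset (LV R)) =
      ((scan c e w s).map (revLV v e) : List (LV R)) := by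
  by_cases hc : c = .O
  · subst hc; simp
  induction w generalizing s with
  | nil => simp
  | cons a w ih =>
    have hw := fun b hb => h b (List.mem_cons_of_mem _ hb)
    rw [List.reverse_cons, List.map_append, scan_append, ← Multiset.coe_add, scan_cons c e a w s,
      if_neg hc, DS_cons, ← add_assoc, ih hw, DS_map_of_neg hw]
    rw [List.map_cons, List.map_nil, scan_cons, if_neg hc, scan_nil, List.map_cons,
      ← Multiset.cons_coe, add_comm, Multiset.cons_add]
    simp only [Multiset.coe_nil, zero_add, ← Multiset.cons_coe]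
    congr 1
    unfold revLV
    simp only
    congr 2
    abel

lemma pair_map_map {A B : Multiset (LV R)} {f g : LV R → LV R} {δ : LV R → LV R → R}
    (h : ∀ a ∈ A, ∀ b ∈ B, theta (f a) (g b) = theta a b + δ a b) :
    pair (A.map f) (B.map g) = pair A B + (A.map fun a => (B.map fun b => δ a b).sum).sum := by
  unfold pair
  rw [Multiset.map_map, ← Multiset.sum_map_add]
  congr 1
  apply Multiset.map_congr rfl
  intro a ha
  rw [Function.comp_apply, Multiset.map_map, ← Multiset.sum_map_add]
  congr 1
  apply Multiset.map_congr rfl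
  intro b hb
  exact h a ha b hb

lemma pair_map_map_zero {A B : Multiset (LV R)} {f g : LV R → LV R}
    (h : ∀ a ∈ A, ∀ b ∈ B, theta (f a) (g b) = theta a b) :
    pair (A.map f) (B.map g) = pair A B := by
  rw [pair_map_map (δ := fun _ _ => 0) (fun a ha b hb => by rw [h a ha b hb, add_zero])]
  simp

lemma pair_sq (A B : Multiset (LV R)) :
    pair (A + B) (A + B) = pair A A + pair A B + (pair B A + pair B B) := by
  rw [pair_add_left, pair_add_right, pair_add_right]

/-- the label on the right side of the passage -/
def nR (b : LV R) : ℤ := if b.2.1.pos then b.2.2.1 + 1 else b.2.2.1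

lemma square_sum {e : Env} (hk : ∀ x, e.k x = 0 ∨ e.k x = 1) (w : Word) (s : ℤ × R) :
    ((scan .J e w s).map fun b : LV R => if b.2.1.up = false then
      sgn b.2.1.pos * e.k b.2.1.x * (2 * nR b - 1) else 0).sum =
      (s.1 + (DS R .J e w).1) ^ 2 - s.1 ^ 2 := by
  induction w generalizing s with
  | nil => simp
  | cons a w ih =>
    rw [scan_cons, if_neg (by decide), List.map_cons, List.sum_cons, ih, DS_cons]
    have h1 : (s + dS R .J e a).1 = s.1 + dN .J e a := rfl
    have h2 : (dS R .J e a + DS R .J e w).1 = dN .J e a + (DS R .J e w).1 := rfl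
    rw [h1, h2]
    unfold dN nR
    simp only [true_and]
    cases hup : a.up
    · rcases hk a.x with hk0 | hk1
      · simp [hk0]
      · cases hp : a.pos <;> simp [hk1] <;> ring
    · simp

lemma lin_sum {e : Env} (w : Word) (s : ℤ × R) :
    ((scan .J e w s).map fun b : LV R => if b.2.1.up = false then
      sgn b.2.1.pos * e.k b.2.1.x else 0).sum = (DS R .J e w).1 := by
  induction w generalizing s with
  | nil => simp
  | cons a w ih =>
    rw [scan_cons, if_neg (by decide), List.map_cons, List.sum_cons, ih, DS_cons]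
    have h2 : (dS R .J e a + DS R .J e w).1 = dN .J e a + (DS R .J e w).1 := rfl
    rw [h2]
    unfold dN
    simp only [true_and]

lemma nR_sum {e : Env} (hk : ∀ x, e.k x = 0 ∨ e.k x = 1) (w : Word) (s : ℤ × R)
    (h0 : DS R .J e w = 0) :
    ((scan .J e w s).map fun b : LV R => if b.2.1.up = false then
      sgn b.2.1.pos * e.k b.2.1.x * nR b else 0).sum = 0 := by
  have h1 := square_sum hk w s
  have h2 := lin_sum (R := R) (e := e) w s
  rw [h0] at h1 h2
  have h3 : ((scan .J e w s).map fun b : LV R => if b.2.1.up = false then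
      sgn b.2.1.pos * e.k b.2.1.x * (2 * nR b - 1) else 0).sum =
      2 * ((scan .J e w s).map fun b : LV R => if b.2.1.up = false then
      sgn b.2.1.pos * e.k b.2.1.x * nR b else 0).sum -
      ((scan .J e w s).map fun b : LV R => if b.2.1.up = false then
      sgn b.2.1.pos * e.k b.2.1.x else 0).sum := by
    generalize scan .J e w s = l
    induction l with
    | nil => simp
    | cons a l ih =>
      simp only [List.map_cons, List.sum_cons, ih]
      split_ifs <;> ring
  rw [h3, h2] at h1
  simp at h1
  omega

/-- number of `K`-coloured over-passages among labelled visits -/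
lemma count_scan (c : Color) (e : Env) (w : Word) (s : ℤ × R) (x : ℕ) :
    ((scan c e w s).map fun a : LV R => if a.1 = .K ∧ a.2.1.up = true ∧ a.2.1.x = x then (1 : ℤ)
      else 0).sum = if c = .K then cnt x true w else 0 := by
  induction w generalizing s with
  | nil => simp
  | cons a w ih =>
    rw [scan_cons]
    by_cases hc : c = .O
    · subst hc; simp
    · rw [if_neg hc, List.map_cons, List.sum_cons, ih, cnt_cons]
      by_cases hK : c = .K
      · subst hK
        simp [and_comm]
      · simp [hK]

lemma count_lvs (col : ℕ → Color) (e : Env) (S : Deco R) (x : ℕ) :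
    ((lvs col e S).map fun a : LV R => if a.1 = .K ∧ a.2.1.up = true ∧ a.2.1.x = x then (1 : ℤ)
      else 0).sum = (env col (S.map Prod.fst)).k x := by
  unfold lvs
  rw [Multiset.map_bind, Multiset.sum_bind]
  show _ = ((S.map Prod.fst).map _).sum
  rw [Multiset.map_map]
  congr 1
  apply Multiset.map_congr rfl
  intro p _
  rw [Multiset.map_coe, Multiset.sum_coe, count_scan]
  rfl

section twist

variable {col : ℕ → Color} {c : ℕ} {u v : Word} {D : Diagram}

/-- `b` is a passage outside of `v`, on a component coloured `c'` -/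
def Out (col : ℕ → Color) (c : ℕ) (u : Word) (D : Diagram) (c' : Color) (b : Visit) : Prop :=
  (∃ q ∈ D, b ∈ q.2 ∧ c' = col q.1) ∨ (b ∈ u ∧ c' = col c)

lemma out_cnt (h : Rev R col c (u ++ v) D) {c' : Color} {b : Visit} (hb : Out col c u D c' b)
    {o : Bool} (ho : b.up = o) : cnt b.x o v = 0 := by
  have h1 := tot_le_one h.hv b.x o
  rw [tot_cons] at h1
  simp only [cnt_append] at h1
  have h2 := cnt_nonneg b.x o v
  rcases hb with ⟨q, hq, hbq, -⟩ | ⟨hbu, -⟩
  · obtain ⟨D1, rfl⟩ := Multiset.exists_cons_of_mem hq
    rw [tot_cons] at h1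
    have h3 := cnt_pos_of_mem hbq ho
    have h4 := tot_nonneg D1 b.x o
    have h5 := cnt_nonneg b.x o u
    omega
  · have h3 := cnt_pos_of_mem hbu ho
    have h4 := tot_nonneg D b.x o
    omega

/-- a passage outside of `v` which is over and on a component not coloured `K` -/
lemma out_k (h : Rev R col c (u ++ v) D) {c' : Color} {b : Visit} (hb : Out col c u D c' b)
    (ho : b.up = true) (hc' : c' ≠ .K) : (env col ((c, u ++ v) ::ₘ D)).k b.x = 0 := by
  rcases hb with ⟨q, hq, hbq, hc⟩ | ⟨hbu, -⟩
  · obtain ⟨D1, rfl⟩ := Multiset.exists_cons_of_mem hq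
    have h1 : (c, u ++ v) ::ₘ q ::ₘ D1 = q ::ₘ (c, u ++ v) ::ₘ D1 := Multiset.cons_swap _ _ _
    have hv := h.hv
    rw [h1] at hv ⊢
    obtain ⟨q1, q2⟩ := q
    apply k_zero hv
    · rw [← hc]; exact hc'
    · exact cnt_pos_of_mem hbq ho
  · apply k_zero h.hv h.hK
    rw [cnt_append]
    have h3 := cnt_pos_of_mem hbu ho
    have h4 := cnt_nonneg b.x true v
    omega

lemma in_k (h : Rev R col c (u ++ v) D) {b : Visit} (hb : b ∈ v) (ho : b.up = true) :
    (env col ((c, u ++ v) ::ₘ D)).k b.x = 0 := by
  apply k_zero h.hv h.hK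
  rw [cnt_append]
  have h3 := cnt_pos_of_mem hb ho
  have h4 := cnt_nonneg b.x true u
  omega

lemma out_mem {c' : Color} {b : Visit} (hb : Out col c u D c' b) :
    b ∈ visits ((c, u ++ v) ::ₘ D) := by
  unfold visits
  rw [Multiset.cons_bind, Multiset.mem_add]
  rcases hb with ⟨q, hq, hbq, -⟩ | ⟨hbu, -⟩
  · exact Or.inr (Multiset.mem_bind.2 ⟨q, hq, hbq⟩)
  · left
    show b ∈ u ++ v
    exact List.mem_append_left _ hbu

lemma in_mem {b : Visit} (hb : b ∈ v) : b ∈ visits ((c, u ++ v) ::ₘ D) := by
  unfold visits
  rw [Multiset.cons_bind, Multiset.mem_add]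
  left
  show b ∈ u ++ v
  exact List.mem_append_right _ hb

lemma pos_eq {M : Multiset Visit} (h : ValidCode M) {a b : Visit} (ha : a ∈ M) (hb : b ∈ M)
    (hx : a.x = b.x) : a.pos = b.pos := by
  have h1 := h a ha
  have h2 : b ∈ M.filter fun u => u.x = a.x := Multiset.mem_filter.2 ⟨hb, hx.symm⟩
  rw [h1] at h2
  have h3 : b = a ∨ b = other a := by simpa using h2
  rcases h3 with h3 | h3 <;> rw [h3]
  rfl

lemma out_U {S : Deco R} (hS : S.map Prod.fst = D) (s : ℤ × R) (e : Env) {a : LV R}
    (ha : a ∈ (scan (col c) e u s : Multiset (LV R)) + lvs col e S) :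
    Out col c u D a.1 a.2.1 := by
  rcases Multiset.mem_add.1 ha with h | h
  · have := mem_scan (Multiset.mem_coe.1 h)
    exact Or.inr ⟨this.2, this.1⟩
  · unfold lvs at h
    obtain ⟨p, hp, hpa⟩ := Multiset.mem_bind.1 h
    have := mem_scan (Multiset.mem_coe.1 hpa)
    exact Or.inl ⟨p.1, hS ▸ Multiset.mem_map_of_mem _ hp, this.2, this.1⟩

lemma flip_out_eq (h : Rev R col c (u ++ v) D) {c1 c2 : Color} {a b : Visit}
    (ha : Out col c u D c1 a) (hb : Out col c u D c2 b) (hau : a.up = true) (hbu : b.up = false)
    (hx : a.x = b.x) : flipV v a = a := by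
  have h1 := out_cnt h ha hau
  have h2 := out_cnt h hb hbu
  rw [← hx] at h2
  rw [flipV_eq, h1, h2]
  simp

theorem Psi_twist (h : Rev R col c (u ++ v) D) {S : Deco R} (hS : S.map Prod.fst = D)
    (hu : DS R (col c) (env col ((c, u ++ v) ::ₘ D)) u = 0)
    (hv : DS R (col c) (env col ((c, u ++ v) ::ₘ D)) v = 0) (s : ℤ × R) :
    Psi col (((c, (u ++ v.reverse).map (flipV v)), s) ::ₘ
      S.map fun p => ((p.1.1, p.1.2.map (flipV v)), p.2)) = Psi col (((c, u ++ v), s) ::ₘ S) := by
  set e := env col ((c, u ++ v) ::ₘ D) with he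
  have henv : env col ((((c, (u ++ v.reverse).map (flipV v)), s) ::ₘ
      S.map fun p => ((p.1.1, p.1.2.map (flipV v)), p.2)).map Prod.fst) = e := by
    rw [he, ← env_twist, ← hS]
    simp [flipSigns, Function.comp_def]
  have henv' : env col ((((c, u ++ v), s) ::ₘ S).map Prod.fst) = e := by
    rw [he, ← hS]; simp
  unfold Psi
  rw [henv, henv']
  set U : Multiset (LV R) := (scan (col c) e u s : Multiset (LV R)) + lvs col e S with hU
  set V : Multiset (LV R) := (scan (col c) e v s : Multiset (LV R)) with hV
  have hold : lvs col e (((c, u ++ v), s) ::ₘ S) = U + V := by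
    rw [lvs_cons, scan_append, hu, add_zero, ← Multiset.coe_add, hU, hV]
    abel
  have hnew : lvs col e (((c, (u ++ v.reverse).map (flipV v)), s) ::ₘ
      S.map fun p => ((p.1.1, p.1.2.map (flipV v)), p.2)) =
      U.map (flipLV v) + V.map (revLV v e) := by
    rw [lvs_cons]
    simp only
    rw [List.map_append, scan_append]
    have e1 : scan (col c) e (u.map (flipV v)) s = (scan (col c) e u s).map (flipLV v) :=
      scan_map_eq (fun b hb => dS_flip_out (q := (0, [])) h (Or.inr ⟨hb, rfl⟩)) s
    have e2 : DS R (col c) e (u.map (flipV v)) = 0 := by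
      rw [DS_map_of_eq (fun b hb => dS_flip_out (q := (0, [])) h (Or.inr ⟨hb, rfl⟩)), hu]
    have e3 : (scan (col c) e (v.reverse.map (flipV v)) s : Multiset (LV R)) =
        V.map (revLV v e) := by
      have := scan_reverse (R := R) (c := col c) (e := e) (v := v) (w := v)
        (fun b hb => dS_flip_in h hb) s
      rw [hv, add_zero] at this
      rw [this, hV, Multiset.map_coe]
    have e4 : lvs col e (S.map fun p => ((p.1.1, p.1.2.map (flipV v)), p.2)) =
        (lvs col e S).map (flipLV v) := by
      unfold lvs
      rw [Multiset.bind_map, Multiset.map_bind]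
      apply Multiset.bind_congr
      intro p hp
      rw [Multiset.map_coe]
      congr 1
      exact scan_map_eq (fun b hb => dS_flip_out h
        (Or.inl ⟨hS ▸ Multiset.mem_map_of_mem _ hp, hb, rfl⟩)) _
    rw [e1, e2, add_zero, ← Multiset.coe_add, e3, e4, hU, Multiset.map_add]
    simp only [Multiset.map_coe]
    abel
  rw [hold, hnew]
  have hUO : ∀ a ∈ U, Out col c u D a.1 a.2.1 := fun a ha => out_U hS s e ha
  have hVm : ∀ b ∈ V, b.1 = col c ∧ b.2.1 ∈ v := fun b hb => mem_scan (Multiset.mem_coe.1 hb)
  -- the outer pairs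
  have huu : pair (U.map (flipLV v)) (U.map (flipLV v)) = pair U U := by
    apply pair_map_map_zero
    intro a ha b hb
    unfold theta flipLV
    simp only [flipV_up, flipV_x]
    split_ifs with hc
    · rw [flip_out_eq h (hUO a ha) (hUO b hb) hc.1 hc.2.1 hc.2.2]
    · rfl
  by_cases hcO : col c = .O
  · have hV0 : V = 0 := by rw [hV, hcO, scan_O]; rfl
    rw [hV0, Multiset.map_zero, add_zero, add_zero, huu]
  have hcJ : col c = .J := by
    have := h.hK
    cases hcc : col c
    · exact absurd hcc this
    · rfl
    · exact absurd hcc hcO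
  have h2 : (2 : R) = 0 := h.hJ hcJ
  have hs : ∀ b : Bool, ((sgn b : ℤ) : R) = 1 := fun b => sgn_cast_two h2 b
  have hneg : ∀ a : R, -a = a := neg_eq_of_two h2
  have hvu : pair (V.map (revLV v e)) (U.map (flipLV v)) = pair V U := by
    apply pair_map_map_zero
    intro a ha b hb
    unfold theta flipLV revLV
    simp only [flipV_up, flipV_x]
    split_ifs with hc
    · have hd : dS R a.1 e a.2.1 = 0 := by
        rw [(hVm a ha).1, hcJ]
        simp [dS, dN, dM, hc.1]
      rw [hd, add_zero, (hVm a ha).1, hcJ]
      cases hb1 : b.1 <;> simp [psi, hs]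
    · rfl
  have hvv : pair (V.map (revLV v e)) (V.map (revLV v e)) = pair V V := by
    apply pair_map_map_zero
    intro a ha b hb
    unfold theta revLV
    simp only [flipV_up, flipV_x]
    split_ifs with hc
    · have hd : dS R a.1 e a.2.1 = 0 := by
        rw [(hVm a ha).1, hcJ]
        simp [dS, dN, dM, hc.1]
      have hd' : dS R b.1 e b.2.1 = 0 := by
        have hk : e.k b.2.1.x = 0 := by
          rw [← hc.2.2]; exact in_k h (hVm a ha).2 hc.1
        rw [(hVm b hb).1, hcJ]
        simp [dS, dN, dM, hk]
      rw [hd, hd', add_zero, add_zero, (hVm a ha).1, (hVm b hb).1, hcJ]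
      simp [psi, hs]
    · rfl
  have hk01 : ∀ x, e.k x = 0 ∨ e.k x = 1 := fun x => k_le_one h.hv x
  let δ : LV R → LV R → R := fun a b =>
    if b.2.1.up = false then
      (((if a.1 = .K ∧ a.2.1.up = true ∧ a.2.1.x = b.2.1.x then (1 : ℤ) else 0 : ℤ) : ℤ) : R) *
        ((nR b : ℤ) : R) else 0
  have huv : pair (U.map (flipLV v)) (V.map (revLV v e)) = pair U V +
      (U.map fun a => (V.map fun b => δ a b).sum).sum := by
    apply pair_map_map
    intro a ha b hb
    unfold theta flipLV revLV
    simp only [flipV_up, flipV_x]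
    by_cases hc : a.2.1.up = true ∧ b.2.1.up = false ∧ a.2.1.x = b.2.1.x
    · rw [if_pos hc, if_pos hc]
      have hδ : δ a b = (((if a.1 = .K then (1 : ℤ) else 0 : ℤ) : ℤ) : R) * ((nR b : ℤ) : R) := by
        simp only [δ, hc.2.1, if_true, hc.1, hc.2.2, true_and, and_true]
      rw [hδ, (hVm b hb).1, hcJ]
      cases ha1 : a.1
      · -- K over J
        have hpos : a.2.1.pos = b.2.1.pos :=
          pos_eq h.hv (out_mem (hUO a ha)) (in_mem (hVm b hb).2) hc.2.2
        have hflip : flipV v a.2.1 = ⟨a.2.1.x, a.2.1.up, !a.2.1.pos⟩ := by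
          have h3 := out_cnt h (hUO a ha) hc.1
          have h4 := cnt_pos_of_mem (hVm b hb).2 hc.2.1
          have h5 := tot_le_one h.hv b.2.1.x false
          rw [tot_cons] at h5
          simp only [cnt_append] at h5
          have h6 := tot_nonneg D b.2.1.x false
          have h7 := cnt_nonneg b.2.1.x false u
          rw [flipV_eq, if_pos]
          rw [h3, hc.2.2]
          omega
        have hk : e.k b.2.1.x = 1 := by
          rcases hk01 b.2.1.x with h0 | h1
          swap
          · exact h1
          exfalso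
          have h8 : 1 ≤ e.k a.2.1.x := by
            have hO := hUO a ha
            rw [ha1] at hO
            rcases hO with ⟨q, hq, hbq, hcq⟩ | ⟨_, hcq⟩
            · obtain ⟨D1, hD1⟩ := Multiset.exists_cons_of_mem hq
              have h9 : e = env col (q ::ₘ (c, u ++ v) ::ₘ D1) := by
                rw [he, hD1, Multiset.cons_swap]
              rw [h9, env_cons]
              simp only [← hcq, if_true]
              have h10 := cnt_pos_of_mem hbq hc.1
              have h11 := env_k_nonneg col ((c, u ++ v) ::ₘ D1) a.2.1.x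
              omega
            · exact absurd hcq.symm h.hK
          rw [hc.2.2] at h8
          omega
        rw [hflip]
        have hdS : dS R .J e b.2.1 = (sgn b.2.1.pos, 0) := by
          simp [dS, dN, dM, hc.2.1, hk]
        rw [hdS]
        simp only [psi, nR, ← hpos]
        have hm : ∀ m n : R, m * n = -((m + 1) * n) + n := by
          intro m n
          have : m * n - (-((m + 1) * n) + n) = 2 * (m * n) := by ring
          rw [h2, zero_mul, sub_eq_zero] at this
          exact this
        have hm2 : ∀ m n : R, -((m + 1) * n) = m * n + n := by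
          intro m n
          rw [hneg]; ring
        cases hp : a.2.1.pos
        · simp only [Bool.not_false, if_true, Prod.fst_add, Prod.snd_add, sgn_false, add_zero,
            Bool.false_eq_true, if_false, Int.cast_one, one_mul]
          push_cast
          have : ((b.2.2.1 : ℤ) : R) + -1 + 1 = (b.2.2.1 : R) := by ring
          rw [this]
          exact hm2 _ _
        · simp only [Bool.not_true, if_true, Prod.fst_add, Prod.snd_add, sgn_true, add_zero,
            Bool.false_eq_true, if_false, Int.cast_one, one_mul]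
          push_cast
          exact hm _ _
      · -- J over J
        have hk : e.k b.2.1.x = 0 := by
          rw [← hc.2.2]
          exact out_k h (hUO a ha) hc.1 (by rw [ha1]; decide)
        have hd' : dS R .J e b.2.1 = 0 := by simp [dS, dN, dM, hk]
        rw [hd', add_zero]
        simp [psi, hs]
      · simp [psi]
    · rw [if_neg hc, if_neg hc]
      have hδ : δ a b = 0 := by
        simp only [δ]
        split_ifs with h5 h6
        · exact absurd ⟨h6.2.1, h5, h6.2.2⟩ hc
        · simp
        · rfl
      rw [hδ, add_zero]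
  -- the correction vanishes
  have hzero : (U.map fun a => (V.map fun b => δ a b).sum).sum = 0 := by
    rw [Multiset.sum_map_sum_map]
    have h3 : ∀ b ∈ V, (U.map fun a => δ a b).sum =
        (((if b.2.1.up = false then sgn b.2.1.pos * e.k b.2.1.x * nR b else 0 : ℤ)) : R) := by
      intro b hb
      by_cases hbu : b.2.1.up = false
      · simp only [δ, hbu, if_true]
        rw [Multiset.sum_map_mul_right]
        have h4 : (U.map fun a : LV R => (((if a.1 = .K ∧ a.2.1.up = true ∧ a.2.1.x = b.2.1.x then
            (1 : ℤ) else 0 : ℤ) : ℤ) : R)).sum = ((e.k b.2.1.x : ℤ) : R) := by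
          have h5 : (U.map fun a : LV R => (if a.1 = .K ∧ a.2.1.up = true ∧ a.2.1.x = b.2.1.x then
            (1 : ℤ) else 0 : ℤ)).sum = e.k b.2.1.x := by
            rw [hU, Multiset.map_add, Multiset.sum_add, count_lvs, Multiset.map_coe,
              Multiset.sum_coe, count_scan, hS, he, env_cons]
            simp [hcJ]
          rw [← h5, Int.cast_multiset_sum, Multiset.map_map]
          rfl
        rw [h4]
        push_cast
        rw [hs, one_mul]
      · simp only [δ, hbu, if_false]
        simp
    rw [Multiset.map_congr rfl h3]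
    have h6 := nR_sum (R := R) hk01 v s (by rw [← hcJ]; exact hv)
    have h7 : (V.map fun b : LV R => (if b.2.1.up = false then
        sgn b.2.1.pos * e.k b.2.1.x * nR b else 0 : ℤ)).sum = 0 := by
      rw [hV, hcJ, Multiset.map_coe, Multiset.sum_coe]
      exact h6
    have h8 := congrArg (fun z : ℤ => (z : R)) h7
    simp only [Int.cast_zero] at h8
    rw [Int.cast_multiset_sum, Multiset.map_map] at h8
    exact h8
  rw [pair_sq, pair_sq, huu, huv, hvu, hvv, hzero, add_zero]

end twist

end

end Pool.Agent.Helper64.Chi
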