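import Mathlib
import Pool.Agent.Helper64.Chi.Twist

/-!
# A link which bounds a suitable surface has labels with vanishing state sum
-/

set_option autoImplicit false

namespace Pool.Agent.Helper64.Chi

section
variable {R : Type} [CommRing R]

lemma DS_J_snd (e : Env) (w : Word) : (DS R .J e w).2 = 0 := by
  induction w with
  | nil => rfl
  | cons a w ih =>
    rw [DS_cons, Prod.snd_add, ih, add_zero]
    simp [dS, dM]

/-- the visible classes bound discs, annuli, ... without handles -/
structure Good (R : Type) [CommRing R] (col : ℕ → Color) (χ : ℕ → ℤ) (o : ℕ → Bool)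
    (C : Multiset ℕ) : Prop where
  adm : Adm R col o C
  hK : ∀ c ∈ C, col c = .K → 2 - χ c - C.count c = 0
  hJ : ∀ c ∈ C, col c = .J → 2 - χ c - C.count c = 0 ∨
    (o c = false ∧ 2 - χ c - C.count c ≤ 1)

theorem exists_deco {D : Diagram} {χ : ℕ → ℤ} {o : ℕ → Bool} (h : Bounds D χ o) :
    ∀ col : ℕ → Color, Good R col χ o (cls D) → (∀ q ∈ flows R col D, q.2 = 0) →
      ∃ S : Deco R, S.map Prod.fst = D ∧ ∀ t, Psi col (shift t S) = 0 := by
  classical
  induction h with
  | empty χ o =>
    intro col _ _
    exact ⟨0, rfl, fun t => by simp [Psi, shift, lvs]⟩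
  | @move D D' χ o h1 h2 _ ih =>
    intro col hg hz
    rw [cls_move h2] at hg
    have hF : flows R col D = flows R col D' := by
      rcases h2 with h2 | h2
      · exact flows_move h2
      · exact (flows_move h2).symm
    rw [hF] at hz
    obtain ⟨S', hS', hP⟩ := ih col hg hz
    obtain ⟨S, hS, hPS⟩ := deco_move h2 hz S' hS'
    exact ⟨S, hS, fun t => by rw [hPS, hP]⟩
  | @death D χ o c b h1 hc ih =>
    intro col hg hz
    rw [cls, Multiset.map_cons] at hg
    have hg' : Good R col χ o (cls D) := by
      refine ⟨adm_death hg.adm hc, ?_, ?_⟩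
      · intro a ha hcol
        have hac : a ≠ c := by rintro rfl; exact hc ha
        have := hg.hK a (Multiset.mem_cons_of_mem ha) hcol
        rwa [Function.update_of_ne hac, Multiset.count_cons_of_ne hac] at this
      · intro a ha hcol
        have hac : a ≠ c := by rintro rfl; exact hc ha
        have := hg.hJ a (Multiset.mem_cons_of_mem ha) hcol
        rwa [Function.update_of_ne hac, Function.update_of_ne hac,
          Multiset.count_cons_of_ne hac] at this
    rw [flows_nil] at hz
    obtain ⟨S, hS, hP⟩ := ih col hg' (fun q hq => hz q (Multiset.mem_cons_of_mem hq))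
    refine ⟨((c, []), 0) ::ₘ S, by simp [hS], fun t => ?_⟩
    rw [← hP t]
    unfold Psi
    rw [shift_map_fst, shift_map_fst, shift_cons, Multiset.map_cons, env_nil, lvs_cons]
    simp
  | @birth D χ o c h1 hc ih =>
    intro col hg hz
    have hg' : Good R col χ o (cls ((c, []) ::ₘ D)) := by
      rw [cls, Multiset.map_cons]
      have hmem : ∀ a ∈ c ::ₘ D.map Prod.fst, a ∈ D.map Prod.fst := by
        intro a ha
        rcases Multiset.mem_cons.1 ha with h2 | h2
        · subst h2; exact hc
        · exact h2
      have hcount : ∀ a, 2 - χ a - ((c ::ₘ D.map Prod.fst).count a : ℤ) =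
          2 - Function.update χ c (χ c + 1) a - ((D.map Prod.fst).count a : ℤ) := by
        intro a
        by_cases h : a = c
        · subst h
          rw [Function.update_self, Multiset.count_cons_self]
          push_cast; ring
        · rw [Function.update_of_ne h, Multiset.count_cons_of_ne h]
      refine ⟨⟨fun a ha => hg.adm.hK a (hmem a ha), fun a ha => hg.adm.hJ a (hmem a ha)⟩, ?_, ?_⟩
      · intro a ha hcol
        rw [hcount]; exact hg.hK a (hmem a ha) hcol
      · intro a ha hcol
        rw [hcount]; exact hg.hJ a (hmem a ha) hcol
    obtain ⟨S', hS', hP⟩ := ih col hg' (by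
      rw [flows_nil]
      intro q hq
      rcases Multiset.mem_cons.1 hq with h2 | h2
      · rw [h2]
      · exact hz q h2)
    obtain ⟨⟨p, s⟩, S, rfl, hp, hS⟩ := map_cons_split hS'
    simp only at hp
    subst hp
    refine ⟨S, hS, fun t => ?_⟩
    rw [← hP t]
    unfold Psi
    rw [shift_map_fst, shift_map_fst, shift_cons, Multiset.map_cons, env_nil, lvs_cons]
    simp
  | @cut D χ o c d u v h1 ho hpl ih =>
    intro col hg hz
    rw [cut_cls] at hg
    obtain ⟨fu, fv, F, hfu, hF, hF'⟩ := flows_cut (R := R) col c d u v D
    rw [hF] at hz
    set col' := Function.update col d (col c) with hcol'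
    have hcc : col' c = col c := by
      rw [hcol']
      by_cases h : c = d
      · subst h; rw [Function.update_self]
      · rw [Function.update_of_ne h]
    have hcd : col' d = col c := Function.update_self _ _ _
    have hco : ∀ a, a ≠ d → col' a = col a := fun a ha => Function.update_of_ne ha _ _
    have hG := gen_nonneg h1
    rw [cls, Multiset.map_cons, Multiset.map_cons] at hG ih
    have hGc : 0 ≤ 2 - χ c - ((c ::ₘ d ::ₘ cls D).count c : ℤ) := hG c (by simp)
    have hGd : 0 ≤ 2 - χ d - ((c ::ₘ d ::ₘ cls D).count d : ℤ) := hG d (by simp)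
    -- genus of the new class
    have hgen : c ≠ d → 2 - Function.update χ c (if c = d then χ c - 1 else χ c + χ d - 1) c -
        ((c ::ₘ (cls D).map (rho c d)).count c : ℤ) =
        (2 - χ c - ((c ::ₘ d ::ₘ cls D).count c : ℤ)) +
        (2 - χ d - ((c ::ₘ d ::ₘ cls D).count d : ℤ)) := by
      intro h
      rw [Function.update_self, if_neg h, Multiset.count_cons_self, count_rho_left h]
      simp only [Multiset.count_cons_self, Multiset.count_cons_of_ne h,
        Multiset.count_cons_of_ne (Ne.symm h)]
      push_cast; ring
    have hgen2 : c = d → 2 ≤ 2 - Function.update χ c (if c = d then χ c - 1 else χ c + χ d - 1) c -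
        ((c ::ₘ (cls D).map (rho c d)).count c : ℤ) := by
      intro h
      subst h
      rw [Function.update_self, if_pos rfl, Multiset.count_cons_self, rho_self, Multiset.map_id]
      simp only [Multiset.count_cons_self] at hGc
      push_cast at hGc ⊢
      linarith
    have hvis : col c ≠ .O → c ≠ d := by
      intro hO hcd'
      have h3 := hgen2 hcd'
      cases hc1 : col c
      · have := hg.hK c (Multiset.mem_cons_self _ _) hc1
        rw [this] at h3
        norm_num at h3
      · rcases hg.hJ c (Multiset.mem_cons_self _ _) hc1 with h4 | h4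
        · rw [h4] at h3
          norm_num at h3
        · have := h4.2
          linarith
      · exact hO hc1
    have hgen3 : ∀ a, a ≠ c → a ≠ d →
        2 - Function.update χ c (if c = d then χ c - 1 else χ c + χ d - 1) a -
        ((c ::ₘ (cls D).map (rho c d)).count a : ℤ) =
        2 - χ a - ((c ::ₘ d ::ₘ cls D).count a : ℤ) := by
      intro a h3 h4
      rw [Function.update_of_ne h3]
      simp only [Multiset.count_cons_of_ne h3, Multiset.count_cons_of_ne h4, count_rho_other h3 h4]
    have hmemr : ∀ a ∈ c ::ₘ d ::ₘ cls D, a ≠ d → a ∈ c ::ₘ (cls D).map (rho c d) := by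
      intro a ha had
      rcases Multiset.mem_cons.1 ha with h5 | h5
      · subst h5; exact Multiset.mem_cons_self _ _
      · refine Multiset.mem_cons_of_mem (Multiset.mem_map.2
          ⟨a, (Multiset.mem_cons.1 h5).resolve_left had, ?_⟩)
        unfold rho; rw [if_neg had]
    have hg' : Good R col' χ o (c ::ₘ d ::ₘ cls D) := by
      refine ⟨adm_cut hg.adm ho, ?_, ?_⟩
      · intro a ha hca
        by_cases had : a = d
        · subst had
          rw [hcd] at hca
          have hne := hvis (by rw [hca]; decide)
          have := hg.hK c (Multiset.mem_cons_self _ _) hca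
          rw [hgen hne] at this
          linarith
        · rw [hco a had] at hca
          by_cases hac : a = c
          · subst hac
            have := hg.hK a (Multiset.mem_cons_self _ _) hca
            rw [hgen had] at this
            linarith
          · rw [← hgen3 a hac had]
            exact hg.hK a (hmemr a ha had) hca
      · intro a ha hca
        by_cases had : a = d
        · subst had
          rw [hcd] at hca
          have hne := hvis (by rw [hca]; decide)
          rcases hg.hJ c (Multiset.mem_cons_self _ _) hca with h4 | h4
          · rw [hgen hne] at h4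
            left; linarith
          · rw [hgen hne] at h4
            right; exact ⟨by rw [← ho]; exact h4.1, by linarith [h4.2]⟩
        · rw [hco a had] at hca
          by_cases hac : a = c
          · subst hac
            rcases hg.hJ a (Multiset.mem_cons_self _ _) hca with h4 | h4
            · rw [hgen had] at h4
              left; linarith
            · rw [hgen had] at h4
              right; exact ⟨h4.1, by linarith [h4.2]⟩
          · rw [← hgen3 a hac had]
            exact hg.hJ a (hmemr a ha had) hca
    have hFz : ∀ q ∈ F, q.2 = 0 := by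
      intro q hq
      have := hz (rhoF c d q) (Multiset.mem_cons_of_mem (Multiset.mem_map_of_mem _ hq))
      exact this
    have hsum : fu + fv = 0 := hz _ (Multiset.mem_cons_self _ _)
    have hfu0 : fu = 0 := by
      by_cases hO : col c = .O
      · rw [hfu, hO, DS_O]
      · have hne := hvis hO
        have hle : (2 - χ c - ((c ::ₘ d ::ₘ cls D).count c : ℤ)) +
            (2 - χ d - ((c ::ₘ d ::ₘ cls D).count d : ℤ)) ≤ 1 := by
          rw [← hgen hne]
          cases hc1 : col c
          · rw [hg.hK c (Multiset.mem_cons_self _ _) hc1]; norm_num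
          · rcases hg.hJ c (Multiset.mem_cons_self _ _) hc1 with h4 | h4
            · rw [h4]; norm_num
            · exact h4.2
          · exact absurd hc1 hO
        have hne' : ¬ d = c := fun h' => hne h'.symm
        have hF0 : ∀ a, nz a F = 0 := fun a => nz_zero_iff.2 (fun q hq _ => hFz q hq)
        have hNZ := nz_ne_one (R := R) h1 col' (by
          rw [cls, Multiset.map_cons, Multiset.map_cons]; exact hg'.adm)
        rw [hF', cls, Multiset.map_cons, Multiset.map_cons] at hNZ
        by_contra hfu1
        have hfv1 : fv ≠ 0 := by
          rintro rfl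
          rw [add_zero] at hsum
          exact hfu1 hsum
        have hcases : 2 - χ c - ((c ::ₘ d ::ₘ cls D).count c : ℤ) = 0 ∨
            2 - χ d - ((c ::ₘ d ::ₘ cls D).count d : ℤ) = 0 := by
          omega
        rcases hcases with h5 | h5
        · apply hNZ c (by simp) h5
          simp only [nz_cons, hF0, hne', true_and, false_and, if_false, ne_eq, hfu1,
            not_false_eq_true, if_true]
        · apply hNZ d (by simp) h5
          simp only [nz_cons, hF0, hne, true_and, false_and, if_false, ne_eq, hfv1,
            not_false_eq_true, if_true]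
    have hfv0 : fv = 0 := by rw [hfu0, zero_add] at hsum; exact hsum
    obtain ⟨S', hS', hP⟩ := ih col' hg' (by
      rw [hF', hfu0, hfv0]
      intro q hq
      rcases Multiset.mem_cons.1 hq with h2 | h2
      · rw [h2]
      · rcases Multiset.mem_cons.1 h2 with h3 | h3
        · rw [h3]
        · exact hFz q h3)
    obtain ⟨⟨p1, s1⟩, S1, rfl, hp1, hS1⟩ := map_cons_split hS'
    obtain ⟨⟨p2, s2⟩, S0, rfl, hp2, hS0⟩ := map_cons_split hS1
    simp only at hp1 hp2
    subst hp1 hp2
    have hcolr : ∀ a, col (if a = d then c else a) = col' a := by
      intro a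
      split_ifs with h
      · subst h; rw [hcd]
      · rw [hco a h]
    by_cases hO : col c = .O
    · -- invisible class
      refine ⟨((c, u ++ v), s1) ::ₘ S0.map fun p =>
        ((if p.1.1 = d then c else p.1.1, p.1.2), p.2), ?_, fun t => ?_⟩
      · rw [Multiset.map_cons, Multiset.map_map, ← hS0, Multiset.map_map]; rfl
      · have hP' := hP (fun a => t (if a = d then c else a))
        rw [← hP']
        unfold Psi
        rw [shift_map_fst, shift_map_fst]
        have hm : (((c, u ++ v), s1) ::ₘ S0.map fun p =>
            ((if p.1.1 = d then c else p.1.1, p.1.2), p.2)).map Prod.fst =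
            (c, u ++ v) ::ₘ D.map fun p => (if p.1 = d then c else p.1, p.2) := by
          rw [Multiset.map_cons, Multiset.map_map, ← hS0, Multiset.map_map]; rfl
        have hm' : (((c, u), s1) ::ₘ ((d, v), s2) ::ₘ S0).map Prod.fst =
            (c, u) ::ₘ (d, v) ::ₘ D := by
          rw [Multiset.map_cons, Multiset.map_cons, hS0]
        rw [hm, hm', env_cut, ← hcol']
        rw [shift_cons, shift_cons, shift_cons, lvs_cons, lvs_cons, lvs_cons]
        simp only [hO, hcc, hcd, scan_O, Multiset.coe_nil, zero_add]
        have hl : ∀ e : Env, lvs col e (shift t (S0.map fun p =>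
            ((if p.1.1 = d then c else p.1.1, p.1.2), p.2))) =
            lvs col' e (shift (fun a => t (if a = d then c else a)) S0) := by
          intro e
          unfold lvs shift
          simp only [Multiset.map_map, Multiset.bind_map, Function.comp_def, hcolr]
        rw [hl]
    · have hne := hvis hO
      refine ⟨((c, u ++ v), s1) ::ₘ S0.map fun p =>
        ((if p.1.1 = d then c else p.1.1, p.1.2), p.2 + if p.1.1 = d then s1 - s2 else 0),
        ?_, fun t => ?_⟩
      · rw [Multiset.map_cons, Multiset.map_map, ← hS0, Multiset.map_map]; rfl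
      · have hP' := hP (fun a => if a = d then t c + (s1 - s2) else t a)
        rw [← hP']
        unfold Psi
        rw [shift_map_fst, shift_map_fst]
        have hm : (((c, u ++ v), s1) ::ₘ S0.map fun p =>
            ((if p.1.1 = d then c else p.1.1, p.1.2), p.2 + if p.1.1 = d then s1 - s2 else
              0)).map Prod.fst =
            (c, u ++ v) ::ₘ D.map fun p => (if p.1 = d then c else p.1, p.2) := by
          rw [Multiset.map_cons, Multiset.map_map, ← hS0, Multiset.map_map]; rfl
        have hm' : (((c, u), s1) ::ₘ ((d, v), s2) ::ₘ S0).map Prod.fst =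
            (c, u) ::ₘ (d, v) ::ₘ D := by
          rw [Multiset.map_cons, Multiset.map_cons, hS0]
        rw [hm, hm']
        set e := env col ((c, u ++ v) ::ₘ
          D.map fun p => (if p.1 = d then c else p.1, p.2)) with he
        have hDSu : DS R (col c) e u = 0 := hfu.symm.trans hfu0
        have hee : env col' ((c, u) ::ₘ (d, v) ::ₘ D) = e := by rw [he, env_cut]
        rw [hee, shift_cons, shift_cons, shift_cons, lvs_cons, lvs_cons, lvs_cons]
        simp only [hcc, hcd, if_neg hne, if_true]
        have hl : lvs col e (shift t (S0.map fun p =>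
            ((if p.1.1 = d then c else p.1.1, p.1.2), p.2 + if p.1.1 = d then s1 - s2 else 0))) =
            lvs col' e (shift (fun a => if a = d then t c + (s1 - s2) else t a) S0) := by
          unfold lvs shift
          simp only [Multiset.map_map, Multiset.bind_map, Function.comp_def, hcolr]
          apply Multiset.bind_congr
          intro p _
          congr 2
          split_ifs <;> abel
        rw [hl, scan_append, hDSu, add_zero, ← Multiset.coe_add]
        have hs : s2 + (t c + (s1 - s2)) = s1 + t c := by abel
        rw [hs, ← add_assoc]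
  | @join D χ o c u v h1 hpl ih =>
    intro col hg hz
    rw [cls, Multiset.map_cons, Multiset.map_cons] at hg
    rw [cls, Multiset.map_cons] at ih
    have hcount : ∀ a ∈ c ::ₘ D.map Prod.fst, 2 - χ a - ((c ::ₘ D.map Prod.fst).count a : ℤ) =
        2 - Function.update χ c (χ c - 1) a - ((c ::ₘ c ::ₘ D.map Prod.fst).count a : ℤ) := by
      intro a _
      by_cases h : a = c
      · subst h
        rw [Function.update_self]
        simp only [Multiset.count_cons_self]
        push_cast; ring
      · rw [Function.update_of_ne h]
        simp only [Multiset.count_cons_of_ne h]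
    have hmem : ∀ a ∈ c ::ₘ D.map Prod.fst, a ∈ c ::ₘ c ::ₘ D.map Prod.fst :=
      fun a ha => Multiset.mem_cons_of_mem ha
    have hg' : Good R col χ o (c ::ₘ D.map Prod.fst) := by
      refine ⟨⟨fun a ha => hg.adm.hK a (hmem a ha), fun a ha => hg.adm.hJ a (hmem a ha)⟩, ?_, ?_⟩
      · intro a ha hcol
        rw [hcount a ha]; exact hg.hK a (hmem a ha) hcol
      · intro a ha hcol
        rw [hcount a ha]; exact hg.hJ a (hmem a ha) hcol
    set e := env col ((c, u) ::ₘ (c, v) ::ₘ D) with he
    have hflows : flows R col ((c, u) ::ₘ (c, v) ::ₘ D) = (c, DS R (col c) e u) ::ₘ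
        (c, DS R (col c) e v) ::ₘ D.map fun p => (p.1, DS R (col p.1) e p.2) := by
      unfold flows; rw [Multiset.map_cons, Multiset.map_cons]
    rw [hflows] at hz
    have hu0 : DS R (col c) e u = 0 := hz _ (Multiset.mem_cons_self _ _)
    have hv0 : DS R (col c) e v = 0 :=
      hz _ (Multiset.mem_cons_of_mem (Multiset.mem_cons_self _ _))
    obtain ⟨S', hS', hP⟩ := ih col hg' (by
      unfold flows
      rw [env_join, ← he, Multiset.map_cons, DS_append, hu0, hv0]
      intro q hq
      rcases Multiset.mem_cons.1 hq with h2 | h2
      · rw [h2]; simp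
      · exact hz q (Multiset.mem_cons_of_mem (Multiset.mem_cons_of_mem h2)))
    obtain ⟨⟨p, s⟩, S, rfl, hp, hS⟩ := map_cons_split hS'
    simp only at hp
    subst hp
    refine ⟨((c, u), s) ::ₘ ((c, v), s) ::ₘ S, by simp [hS], fun t => ?_⟩
    rw [← hP t]
    unfold Psi
    rw [shift_map_fst, shift_map_fst, shift_cons, shift_cons, shift_cons, hS', Multiset.map_cons,
      Multiset.map_cons, hS, env_join, ← he, lvs_cons, lvs_cons, lvs_cons, scan_append, hu0,
      add_zero, ← Multiset.coe_add, add_assoc]
  | @twist D χ o c u v h1 ho hpl hpl' ih =>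
    intro col hg hz
    rw [cls_flip, cls, Multiset.map_cons] at hg
    rw [cls, Multiset.map_cons] at ih
    have hcm : c ∈ c ::ₘ D.map Prod.fst := Multiset.mem_cons_self _ _
    have hrev := rev_of_adm hg.adm hcm ho hpl
    rw [flows_twist hrev] at hz
    set e := env col ((c, u ++ v) ::ₘ D) with he
    have hG := gen_nonneg h1
    rw [cls, Multiset.map_cons] at hG
    have hGc := hG c hcm
    have hg' : Good R col χ o (c ::ₘ D.map Prod.fst) := by
      refine ⟨hg.adm, ?_, ?_⟩
      · intro a ha hcol
        have hac : a ≠ c := by rintro rfl; exact hrev.hK hcol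
        have := hg.hK a ha hcol
        rwa [Function.update_of_ne hac] at this
      · intro a ha hcol
        by_cases hac : a = c
        · subst hac
          rcases hg.hJ a ha hcol with h4 | h4
          · rw [Function.update_self] at h4
            linarith
          · rw [Function.update_self] at h4
            right; exact ⟨h4.1, by linarith [h4.2]⟩
        · have := hg.hJ a ha hcol
          rwa [Function.update_of_ne hac] at this
    have hFz : ∀ q ∈ D.map fun p => (p.1, DS R (col p.1) e p.2), q.2 = 0 :=
      fun q hq => hz q (Multiset.mem_cons_of_mem hq)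
    have hdiff : DS R (col c) e u - DS R (col c) e v = 0 := hz _ (Multiset.mem_cons_self _ _)
    have hflows : flows R col ((c, u ++ v) ::ₘ D) =
        (c, DS R (col c) e u + DS R (col c) e v) ::ₘ
        D.map fun p => (p.1, DS R (col p.1) e p.2) := by
      unfold flows; rw [Multiset.map_cons, ← he, DS_append]
    have huv : DS R (col c) e u = 0 ∧ DS R (col c) e v = 0 := by
      by_cases hO : col c = .O
      · rw [hO, DS_O, DS_O]; exact ⟨rfl, rfl⟩
      have hcJ : col c = .J := by
        cases hcc : col c
        · exact absurd hcc hrev.hK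
        · rfl
        · exact absurd hcc hO
      have hgen0 : 2 - χ c - ((c ::ₘ D.map Prod.fst).count c : ℤ) = 0 := by
        rcases hg.hJ c hcm hcJ with h4 | h4
        · rw [Function.update_self] at h4
          linarith
        · rw [Function.update_self] at h4
          linarith [h4.2]
      have hNZ := nz_ne_one (R := R) h1 col (by
        rw [cls, Multiset.map_cons]; exact hg.adm) c (by simp) (by
        rw [cls, Multiset.map_cons]; exact hgen0)
      rw [hflows, nz_cons, nz_zero_iff.2 (fun q hq _ => hFz q hq)] at hNZ
      have hsum : DS R (col c) e u + DS R (col c) e v = 0 := by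
        by_contra h5
        apply hNZ
        simp only [true_and, ne_eq, h5, not_false_eq_true, if_true]
      rw [hcJ] at hsum hdiff ⊢
      have h6 : (DS R .J e u).1 + (DS R .J e v).1 = 0 := by
        rw [← Prod.fst_add, hsum]; rfl
      have h7 : (DS R .J e u).1 - (DS R .J e v).1 = 0 := by
        rw [← Prod.fst_sub, hdiff]; rfl
      constructor
      · exact Prod.ext (by show (DS R .J e u).1 = 0; omega) (DS_J_snd e u)
      · exact Prod.ext (by show (DS R .J e v).1 = 0; omega) (DS_J_snd e v)
    obtain ⟨S', hS', hP⟩ := ih col hg' (by
      rw [hflows, huv.1, huv.2]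
      intro q hq
      rcases Multiset.mem_cons.1 hq with h2 | h2
      · rw [h2]; simp
      · exact hFz q h2)
    obtain ⟨⟨p, s⟩, S, rfl, hp, hS⟩ := map_cons_split hS'
    simp only at hp
    subst hp
    refine ⟨((c, (u ++ v.reverse).map (flipV v)), s) ::ₘ
      S.map fun p => ((p.1.1, p.1.2.map (flipV v)), p.2), ?_, fun t => ?_⟩
    · rw [Multiset.map_cons, Multiset.map_map, ← hS]
      unfold flipSigns
      rw [Multiset.map_cons, Multiset.map_map]
      rfl
    · rw [← hP t, shift_cons, shift_cons]
      have hsh : shift t (S.map fun p => ((p.1.1, p.1.2.map (flipV v)), p.2)) =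
          (shift t S).map fun p => ((p.1.1, p.1.2.map (flipV v)), p.2) := by
        unfold shift; rw [Multiset.map_map, Multiset.map_map]; rfl
      rw [hsh]
      exact Psi_twist hrev ((shift_map_fst t S).trans hS) huv.1 huv.2 _
  | @reverse D χ o c v h1 ho hpl ih =>
    intro col hg hz
    rw [cls_flip, cls, Multiset.map_cons] at hg
    rw [cls, Multiset.map_cons] at ih
    have hcm : c ∈ c ::ₘ D.map Prod.fst := Multiset.mem_cons_self _ _
    have hrev : Rev R col c ([] ++ v) D := rev_of_adm hg.adm hcm ho hpl
    have hft := flows_twist hrev
    rw [List.nil_append, List.nil_append] at hft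
    rw [hft, DS_nil, zero_sub] at hz
    set e := env col ((c, v) ::ₘ D) with he
    have hv0 : DS R (col c) e v = 0 := by
      have := hz _ (Multiset.mem_cons_self _ _)
      simpa using this
    obtain ⟨S', hS', hP⟩ := ih col hg (by
      unfold flows
      rw [Multiset.map_cons, ← he, hv0]
      intro q hq
      rcases Multiset.mem_cons.1 hq with h2 | h2
      · rw [h2]
      · exact hz q (Multiset.mem_cons_of_mem h2))
    obtain ⟨⟨p, s⟩, S, rfl, hp, hS⟩ := map_cons_split hS'
    simp only at hp
    subst hp
    refine ⟨((c, (([] : Word) ++ v.reverse).map (flipV v)), s) ::ₘ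
      S.map fun p => ((p.1.1, p.1.2.map (flipV v)), p.2), ?_, fun t => ?_⟩
    · rw [Multiset.map_cons, Multiset.map_map, ← hS]
      unfold flipSigns
      rw [Multiset.map_cons, Multiset.map_map]
      rfl
    · rw [← hP t, shift_cons, shift_cons]
      have hsh : shift t (S.map fun p => ((p.1.1, p.1.2.map (flipV v)), p.2)) =
          (shift t S).map fun p => ((p.1.1, p.1.2.map (flipV v)), p.2) := by
        unfold shift; rw [Multiset.map_map, Multiset.map_map]; rfl
      rw [hsh]
      exact Psi_twist hrev ((shift_map_fst t S).trans hS) rfl hv0 _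

end

end Pool.Agent.Helper64.Chi
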