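import Mathlib
import Pool.Agent.Helper64.Chi.Main

/-!
# Values of the state sum
-/

set_option autoImplicit false

namespace Pool.Agent.Helper64.Chi

section
variable {R : Type} [CommRing R]

/-- the marked component is coloured `K`, the others `J` -/
def vcol (c : ℕ) : Color := if c = 0 then .K else if c = 1 then .J else .O

/-- all flows vanish and the state sum has the value `r` for all labels -/
def GoodVal (R : Type) [CommRing R] (D : Diagram) (r : R) : Prop :=
  (∀ q ∈ flows R vcol D, q.2 = 0) ∧ ∀ S : Deco R, S.map Prod.fst = D → Psi vcol S = r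

lemma shift_zero (S : Deco R) : shift (0 : ℕ → ℤ × R) S = S := by
  unfold shift; simp

lemma goodVal_move {D D' : Diagram} {r : R} (h : RMove D D' ∨ RMove D' D)
    (hg : GoodVal R D r) : GoodVal R D' r := by
  have hF : flows R vcol D = flows R vcol D' := by
    rcases h with h | h
    · exact flows_move h
    · exact (flows_move h).symm
  refine ⟨by rw [← hF]; exact hg.1, fun S' hS' => ?_⟩
  obtain ⟨S, hS, hP⟩ := deco_move (R := R) (col := vcol) h (by rw [← hF]; exact hg.1) S' hS'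
  have := hP 0
  rw [shift_zero, shift_zero] at this
  rw [← this]
  exact hg.2 S hS

lemma goodVal_eqv {D D' : Diagram} {r : R}
    (h : Relation.EqvGen (fun D D' => Planar D ∧ Planar D' ∧ RMove D D') D D') :
    GoodVal R D r ↔ GoodVal R D' r := by
  induction h with
  | rel x y h => exact ⟨goodVal_move (Or.inl h.2.2), goodVal_move (Or.inr h.2.2)⟩
  | refl x => exact Iff.rfl
  | symm x y _ ih => exact ih.symm
  | trans x y z _ _ ih1 ih2 => exact ih1.trans ih2

lemma goodVal_isotopic {L L' : Code} {r : R} (h : Isotopic L L') :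
    GoodVal R (tag L) r ↔ GoodVal R (tag L') r := goodVal_eqv h

lemma isotopic_length {L L' : Code} (h : Isotopic L L') : L.length = L'.length := by
  have key : ∀ {D D' : Diagram}, Relation.EqvGen (fun D D' => Planar D ∧ Planar D' ∧ RMove D D')
      D D' → (cls D).card = (cls D').card := by
    intro D D' h
    induction h with
    | rel x y h => rw [cls_move (Or.inl h.2.2)]
    | refl x => rfl
    | symm x y _ ih => exact ih.symm
    | trans x y z _ _ ih1 ih2 => exact ih1.trans ih2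
  have h2 := key h
  have hc : ∀ L : Code, (cls (tag L)).card = L.length := by
    intro L
    cases L <;> simp [tag]
  rw [hc, hc] at h2
  exact h2

lemma good_two {k a : Word} {r : R}
    (h0 : DS R .K (env vcol ((0, k) ::ₘ (1, a) ::ₘ 0)) k = 0)
    (h1 : DS R .J (env vcol ((0, k) ::ₘ (1, a) ::ₘ 0)) a = 0)
    (h2 : ∀ s0 s1, Psi vcol (((0, k), s0) ::ₘ ((1, a), s1) ::ₘ 0 : Deco R) = r) :
    GoodVal R (tag [k, a]) r := by
  refine ⟨?_, fun S hS => ?_⟩
  · intro q hq
    have hq' : q ∈ (0, DS R .K (env vcol ((0, k) ::ₘ (1, a) ::ₘ 0)) k) ::ₘ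
      (1, DS R .J (env vcol ((0, k) ::ₘ (1, a) ::ₘ 0)) a) ::ₘ 0 := hq
    rw [h0, h1] at hq'
    simp only [Multiset.mem_cons, Multiset.notMem_zero, or_false] at hq'
    rcases hq' with h | h <;> rw [h]
  have hS' : S.map Prod.fst = (0, k) ::ₘ (1, a) ::ₘ 0 := hS
  obtain ⟨⟨p, s0⟩, S1, rfl, hp, hS1⟩ := map_cons_split hS'
  obtain ⟨⟨q, s1⟩, S2, rfl, hq, hS2⟩ := map_cons_split hS1
  rw [Multiset.map_eq_zero] at hS2
  simp only at hp hq
  subst hp hq hS2
  exact h2 s0 s1

lemma good_three {k a b : Word} {r : R}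
    (h0 : DS R .K (env vcol ((0, k) ::ₘ (1, a) ::ₘ (1, b) ::ₘ 0)) k = 0)
    (h1 : DS R .J (env vcol ((0, k) ::ₘ (1, a) ::ₘ (1, b) ::ₘ 0)) a = 0)
    (h1' : DS R .J (env vcol ((0, k) ::ₘ (1, a) ::ₘ (1, b) ::ₘ 0)) b = 0)
    (h2 : ∀ s0 s1 s2, Psi vcol (((0, k), s0) ::ₘ ((1, a), s1) ::ₘ ((1, b), s2) ::ₘ 0 :
      Deco R) = r) :
    GoodVal R (tag [k, a, b]) r := by
  refine ⟨?_, fun S hS => ?_⟩
  · intro q hq
    have hq' : q ∈ (0, DS R .K (env vcol ((0, k) ::ₘ (1, a) ::ₘ (1, b) ::ₘ 0)) k) ::ₘ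
      (1, DS R .J (env vcol ((0, k) ::ₘ (1, a) ::ₘ (1, b) ::ₘ 0)) a) ::ₘ
      (1, DS R .J (env vcol ((0, k) ::ₘ (1, a) ::ₘ (1, b) ::ₘ 0)) b) ::ₘ 0 := hq
    rw [h0, h1, h1'] at hq'
    simp only [Multiset.mem_cons, Multiset.notMem_zero, or_false] at hq'
    rcases hq' with h | h | h <;> rw [h]
  have hS' : S.map Prod.fst = (0, k) ::ₘ (1, a) ::ₘ (1, b) ::ₘ 0 := hS
  obtain ⟨⟨p, s0⟩, S1, rfl, hp, hS1⟩ := map_cons_split hS'
  obtain ⟨⟨q, s1⟩, S2, rfl, hq, hS2⟩ := map_cons_split hS1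
  obtain ⟨⟨q', s2⟩, S3, rfl, hq', hS3⟩ := map_cons_split hS2
  rw [Multiset.map_eq_zero] at hS3
  simp only at hp hq hq'
  subst hp hq hq' hS3
  exact h2 s0 s1 s2

end

end Pool.Agent.Helper64.Chi
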