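import Mathlib
import Pool.Agent.Helper64.Chi.Eval

/-!
# The Borromean rings
-/

set_option autoImplicit false
set_option linter.unusedSimpArgs false

namespace Pool.Agent.Helper64.Chi

lemma choices_borromean : choices borromean = [
  [ [⟨0, true, true⟩, ⟨1, false, false⟩, ⟨3, true, false⟩, ⟨4, false, true⟩],
    [⟨0, false, true⟩, ⟨2, true, true⟩, ⟨3, false, false⟩, ⟨5, true, false⟩],
    [⟨1, true, false⟩, ⟨2, false, true⟩, ⟨4, true, true⟩, ⟨5, false, false⟩] ],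
  [ [⟨0, false, true⟩, ⟨2, true, true⟩, ⟨3, false, false⟩, ⟨5, true, false⟩],
    [⟨0, true, true⟩, ⟨1, false, false⟩, ⟨3, true, false⟩, ⟨4, false, true⟩],
    [⟨1, true, false⟩, ⟨2, false, true⟩, ⟨4, true, true⟩, ⟨5, false, false⟩] ],
  [ [⟨1, true, false⟩, ⟨2, false, true⟩, ⟨4, true, true⟩, ⟨5, false, false⟩],
    [⟨0, true, true⟩, ⟨1, false, false⟩, ⟨3, true, false⟩, ⟨4, false, true⟩],
    [⟨0, false, true⟩, ⟨2, true, true⟩, ⟨3, false, false⟩, ⟨5, true, false⟩] ],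
  [ [⟨4, false, false⟩, ⟨3, true, true⟩, ⟨1, false, true⟩, ⟨0, true, false⟩],
    [⟨0, false, false⟩, ⟨2, true, true⟩, ⟨3, false, true⟩, ⟨5, true, false⟩],
    [⟨1, true, true⟩, ⟨2, false, true⟩, ⟨4, true, false⟩, ⟨5, false, false⟩] ],
  [ [⟨0, false, false⟩, ⟨2, true, true⟩, ⟨3, false, true⟩, ⟨5, true, false⟩],
    [⟨4, false, false⟩, ⟨3, true, true⟩, ⟨1, false, true⟩, ⟨0, true, false⟩],
    [⟨1, true, true⟩, ⟨2, false, true⟩, ⟨4, true, false⟩, ⟨5, false, false⟩] ],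
  [ [⟨1, true, true⟩, ⟨2, false, true⟩, ⟨4, true, false⟩, ⟨5, false, false⟩],
    [⟨4, false, false⟩, ⟨3, true, true⟩, ⟨1, false, true⟩, ⟨0, true, false⟩],
    [⟨0, false, false⟩, ⟨2, true, true⟩, ⟨3, false, true⟩, ⟨5, true, false⟩] ],
  [ [⟨0, true, false⟩, ⟨1, false, false⟩, ⟨3, true, true⟩, ⟨4, false, true⟩],
    [⟨5, true, true⟩, ⟨3, false, true⟩, ⟨2, true, false⟩, ⟨0, false, false⟩],
    [⟨1, true, false⟩, ⟨2, false, false⟩, ⟨4, true, true⟩, ⟨5, false, true⟩] ],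
  [ [⟨5, true, true⟩, ⟨3, false, true⟩, ⟨2, true, false⟩, ⟨0, false, false⟩],
    [⟨0, true, false⟩, ⟨1, false, false⟩, ⟨3, true, true⟩, ⟨4, false, true⟩],
    [⟨1, true, false⟩, ⟨2, false, false⟩, ⟨4, true, true⟩, ⟨5, false, true⟩] ],
  [ [⟨1, true, false⟩, ⟨2, false, false⟩, ⟨4, true, true⟩, ⟨5, false, true⟩],
    [⟨0, true, false⟩, ⟨1, false, false⟩, ⟨3, true, true⟩, ⟨4, false, true⟩],
    [⟨5, true, true⟩, ⟨3, false, true⟩, ⟨2, true, false⟩, ⟨0, false, false⟩] ],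
  [ [⟨4, false, false⟩, ⟨3, true, false⟩, ⟨1, false, true⟩, ⟨0, true, true⟩],
    [⟨5, true, true⟩, ⟨3, false, false⟩, ⟨2, true, false⟩, ⟨0, false, true⟩],
    [⟨1, true, true⟩, ⟨2, false, false⟩, ⟨4, true, false⟩, ⟨5, false, true⟩] ],
  [ [⟨5, true, true⟩, ⟨3, false, false⟩, ⟨2, true, false⟩, ⟨0, false, true⟩],
    [⟨4, false, false⟩, ⟨3, true, false⟩, ⟨1, false, true⟩, ⟨0, true, true⟩],
    [⟨1, true, true⟩, ⟨2, false, false⟩, ⟨4, true, false⟩, ⟨5, false, true⟩] ],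
  [ [⟨1, true, true⟩, ⟨2, false, false⟩, ⟨4, true, false⟩, ⟨5, false, true⟩],
    [⟨4, false, false⟩, ⟨3, true, false⟩, ⟨1, false, true⟩, ⟨0, true, true⟩],
    [⟨5, true, true⟩, ⟨3, false, false⟩, ⟨2, true, false⟩, ⟨0, false, true⟩] ],
  [ [⟨0, true, true⟩, ⟨1, false, true⟩, ⟨3, true, false⟩, ⟨4, false, false⟩],
    [⟨0, false, true⟩, ⟨2, true, false⟩, ⟨3, false, false⟩, ⟨5, true, true⟩],
    [⟨5, false, true⟩, ⟨4, true, false⟩, ⟨2, false, false⟩, ⟨1, true, true⟩] ],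
  [ [⟨0, false, true⟩, ⟨2, true, false⟩, ⟨3, false, false⟩, ⟨5, true, true⟩],
    [⟨0, true, true⟩, ⟨1, false, true⟩, ⟨3, true, false⟩, ⟨4, false, false⟩],
    [⟨5, false, true⟩, ⟨4, true, false⟩, ⟨2, false, false⟩, ⟨1, true, true⟩] ],
  [ [⟨5, false, true⟩, ⟨4, true, false⟩, ⟨2, false, false⟩, ⟨1, true, true⟩],
    [⟨0, true, true⟩, ⟨1, false, true⟩, ⟨3, true, false⟩, ⟨4, false, false⟩],
    [⟨0, false, true⟩, ⟨2, true, false⟩, ⟨3, false, false⟩, ⟨5, true, true⟩] ],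
  [ [⟨4, false, true⟩, ⟨3, true, true⟩, ⟨1, false, false⟩, ⟨0, true, false⟩],
    [⟨0, false, false⟩, ⟨2, true, false⟩, ⟨3, false, true⟩, ⟨5, true, true⟩],
    [⟨5, false, true⟩, ⟨4, true, true⟩, ⟨2, false, false⟩, ⟨1, true, false⟩] ],
  [ [⟨0, false, false⟩, ⟨2, true, false⟩, ⟨3, false, true⟩, ⟨5, true, true⟩],
    [⟨4, false, true⟩, ⟨3, true, true⟩, ⟨1, false, false⟩, ⟨0, true, false⟩],
    [⟨5, false, true⟩, ⟨4, true, true⟩, ⟨2, false, false⟩, ⟨1, true, false⟩] ],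
  [ [⟨5, false, true⟩, ⟨4, true, true⟩, ⟨2, false, false⟩, ⟨1, true, false⟩],
    [⟨4, false, true⟩, ⟨3, true, true⟩, ⟨1, false, false⟩, ⟨0, true, false⟩],
    [⟨0, false, false⟩, ⟨2, true, false⟩, ⟨3, false, true⟩, ⟨5, true, true⟩] ],
  [ [⟨0, true, false⟩, ⟨1, false, true⟩, ⟨3, true, true⟩, ⟨4, false, false⟩],
    [⟨5, true, false⟩, ⟨3, false, true⟩, ⟨2, true, true⟩, ⟨0, false, false⟩],
    [⟨5, false, false⟩, ⟨4, true, false⟩, ⟨2, false, true⟩, ⟨1, true, true⟩] ],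
  [ [⟨5, true, false⟩, ⟨3, false, true⟩, ⟨2, true, true⟩, ⟨0, false, false⟩],
    [⟨0, true, false⟩, ⟨1, false, true⟩, ⟨3, true, true⟩, ⟨4, false, false⟩],
    [⟨5, false, false⟩, ⟨4, true, false⟩, ⟨2, false, true⟩, ⟨1, true, true⟩] ],
  [ [⟨5, false, false⟩, ⟨4, true, false⟩, ⟨2, false, true⟩, ⟨1, true, true⟩],
    [⟨0, true, false⟩, ⟨1, false, true⟩, ⟨3, true, true⟩, ⟨4, false, false⟩],
    [⟨5, true, false⟩, ⟨3, false, true⟩, ⟨2, true, true⟩, ⟨0, false, false⟩] ],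
  [ [⟨4, false, true⟩, ⟨3, true, false⟩, ⟨1, false, false⟩, ⟨0, true, true⟩],
    [⟨5, true, false⟩, ⟨3, false, false⟩, ⟨2, true, true⟩, ⟨0, false, true⟩],
    [⟨5, false, false⟩, ⟨4, true, true⟩, ⟨2, false, true⟩, ⟨1, true, false⟩] ],
  [ [⟨5, true, false⟩, ⟨3, false, false⟩, ⟨2, true, true⟩, ⟨0, false, true⟩],
    [⟨4, false, true⟩, ⟨3, true, false⟩, ⟨1, false, false⟩, ⟨0, true, true⟩],
    [⟨5, false, false⟩, ⟨4, true, true⟩, ⟨2, false, true⟩, ⟨1, true, false⟩] ],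
  [ [⟨5, false, false⟩, ⟨4, true, true⟩, ⟨2, false, true⟩, ⟨1, true, false⟩],
    [⟨4, false, true⟩, ⟨3, true, false⟩, ⟨1, false, false⟩, ⟨0, true, true⟩],
    [⟨5, true, false⟩, ⟨3, false, false⟩, ⟨2, true, true⟩, ⟨0, false, true⟩] ]] := by decide +kernel

lemma good_bo0 : GoodVal (ZMod 2) (tag
    [ [⟨0, true, true⟩, ⟨1, false, false⟩, ⟨3, true, false⟩, ⟨4, false, true⟩],
      [⟨0, false, true⟩, ⟨2, true, true⟩, ⟨3, false, false⟩, ⟨5, true, false⟩],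
      [⟨1, true, false⟩, ⟨2, false, true⟩, ⟨4, true, true⟩, ⟨5, false, false⟩] ]) 1 := by
  apply good_three
  · simp [env, vcol, cnt_cons, DS_cons, dS, dN, dM, Prod.ext_iff]; try rfl
  · simp [env, vcol, cnt_cons, DS_cons, dS, dN, dM, Prod.ext_iff]
  · simp [env, vcol, cnt_cons, DS_cons, dS, dN, dM, Prod.ext_iff]
  · rintro ⟨n0, m0⟩ ⟨n1, m1⟩ ⟨n2, m2⟩
    simp [Psi, env, lvs, scan_cons, vcol, cnt_cons, dS, dN, dM, pair, theta, psi]
    generalize ((n1 : ℤ) : ZMod 2) = a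
    generalize ((n2 : ℤ) : ZMod 2) = b
    revert m0 a b
    decide

lemma good_bo1 : GoodVal (ZMod 2) (tag
    [ [⟨0, false, true⟩, ⟨2, true, true⟩, ⟨3, false, false⟩, ⟨5, true, false⟩],
      [⟨0, true, true⟩, ⟨1, false, false⟩, ⟨3, true, false⟩, ⟨4, false, true⟩],
      [⟨1, true, false⟩, ⟨2, false, true⟩, ⟨4, true, true⟩, ⟨5, false, false⟩] ]) 1 := by
  apply good_three
  · simp [env, vcol, cnt_cons, DS_cons, dS, dN, dM, Prod.ext_iff]; try rfl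
  · simp [env, vcol, cnt_cons, DS_cons, dS, dN, dM, Prod.ext_iff]
  · simp [env, vcol, cnt_cons, DS_cons, dS, dN, dM, Prod.ext_iff]
  · rintro ⟨n0, m0⟩ ⟨n1, m1⟩ ⟨n2, m2⟩
    simp [Psi, env, lvs, scan_cons, vcol, cnt_cons, dS, dN, dM, pair, theta, psi]
    generalize ((n1 : ℤ) : ZMod 2) = a
    generalize ((n2 : ℤ) : ZMod 2) = b
    revert m0 a b
    decide

lemma good_bo2 : GoodVal (ZMod 2) (tag
    [ [⟨1, true, false⟩, ⟨2, false, true⟩, ⟨4, true, true⟩, ⟨5, false, false⟩],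
      [⟨0, true, true⟩, ⟨1, false, false⟩, ⟨3, true, false⟩, ⟨4, false, true⟩],
      [⟨0, false, true⟩, ⟨2, true, true⟩, ⟨3, false, false⟩, ⟨5, true, false⟩] ]) 1 := by
  apply good_three
  · simp [env, vcol, cnt_cons, DS_cons, dS, dN, dM, Prod.ext_iff]; try rfl
  · simp [env, vcol, cnt_cons, DS_cons, dS, dN, dM, Prod.ext_iff]
  · simp [env, vcol, cnt_cons, DS_cons, dS, dN, dM, Prod.ext_iff]
  · rintro ⟨n0, m0⟩ ⟨n1, m1⟩ ⟨n2, m2⟩
    simp [Psi, env, lvs, scan_cons, vcol, cnt_cons, dS, dN, dM, pair, theta, psi]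
    generalize ((n1 : ℤ) : ZMod 2) = a
    generalize ((n2 : ℤ) : ZMod 2) = b
    revert m0 a b
    decide

lemma good_bo3 : GoodVal (ZMod 2) (tag
    [ [⟨4, false, false⟩, ⟨3, true, true⟩, ⟨1, false, true⟩, ⟨0, true, false⟩],
      [⟨0, false, false⟩, ⟨2, true, true⟩, ⟨3, false, true⟩, ⟨5, true, false⟩],
      [⟨1, true, true⟩, ⟨2, false, true⟩, ⟨4, true, false⟩, ⟨5, false, false⟩] ]) 1 := by
  apply good_three
  · simp [env, vcol, cnt_cons, DS_cons, dS, dN, dM, Prod.ext_iff]; try rfl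
  · simp [env, vcol, cnt_cons, DS_cons, dS, dN, dM, Prod.ext_iff]
  · simp [env, vcol, cnt_cons, DS_cons, dS, dN, dM, Prod.ext_iff]
  · rintro ⟨n0, m0⟩ ⟨n1, m1⟩ ⟨n2, m2⟩
    simp [Psi, env, lvs, scan_cons, vcol, cnt_cons, dS, dN, dM, pair, theta, psi]
    generalize ((n1 : ℤ) : ZMod 2) = a
    generalize ((n2 : ℤ) : ZMod 2) = b
    revert m0 a b
    decide

lemma good_bo4 : GoodVal (ZMod 2) (tag
    [ [⟨0, false, false⟩, ⟨2, true, true⟩, ⟨3, false, true⟩, ⟨5, true, false⟩],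
      [⟨4, false, false⟩, ⟨3, true, true⟩, ⟨1, false, true⟩, ⟨0, true, false⟩],
      [⟨1, true, true⟩, ⟨2, false, true⟩, ⟨4, true, false⟩, ⟨5, false, false⟩] ]) 1 := by
  apply good_three
  · simp [env, vcol, cnt_cons, DS_cons, dS, dN, dM, Prod.ext_iff]; try rfl
  · simp [env, vcol, cnt_cons, DS_cons, dS, dN, dM, Prod.ext_iff]
  · simp [env, vcol, cnt_cons, DS_cons, dS, dN, dM, Prod.ext_iff]
  · rintro ⟨n0, m0⟩ ⟨n1, m1⟩ ⟨n2, m2⟩
    simp [Psi, env, lvs, scan_cons, vcol, cnt_cons, dS, dN, dM, pair, theta, psi]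
    generalize ((n1 : ℤ) : ZMod 2) = a
    generalize ((n2 : ℤ) : ZMod 2) = b
    revert m0 a b
    decide

lemma good_bo5 : GoodVal (ZMod 2) (tag
    [ [⟨1, true, true⟩, ⟨2, false, true⟩, ⟨4, true, false⟩, ⟨5, false, false⟩],
      [⟨4, false, false⟩, ⟨3, true, true⟩, ⟨1, false, true⟩, ⟨0, true, false⟩],
      [⟨0, false, false⟩, ⟨2, true, true⟩, ⟨3, false, true⟩, ⟨5, true, false⟩] ]) 1 := by
  apply good_three
  · simp [env, vcol, cnt_cons, DS_cons, dS, dN, dM, Prod.ext_iff]; try rfl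
  · simp [env, vcol, cnt_cons, DS_cons, dS, dN, dM, Prod.ext_iff]
  · simp [env, vcol, cnt_cons, DS_cons, dS, dN, dM, Prod.ext_iff]
  · rintro ⟨n0, m0⟩ ⟨n1, m1⟩ ⟨n2, m2⟩
    simp [Psi, env, lvs, scan_cons, vcol, cnt_cons, dS, dN, dM, pair, theta, psi]
    generalize ((n1 : ℤ) : ZMod 2) = a
    generalize ((n2 : ℤ) : ZMod 2) = b
    revert m0 a b
    decide

lemma good_bo6 : GoodVal (ZMod 2) (tag
    [ [⟨0, true, false⟩, ⟨1, false, false⟩, ⟨3, true, true⟩, ⟨4, false, true⟩],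
      [⟨5, true, true⟩, ⟨3, false, true⟩, ⟨2, true, false⟩, ⟨0, false, false⟩],
      [⟨1, true, false⟩, ⟨2, false, false⟩, ⟨4, true, true⟩, ⟨5, false, true⟩] ]) 1 := by
  apply good_three
  · simp [env, vcol, cnt_cons, DS_cons, dS, dN, dM, Prod.ext_iff]; try rfl
  · simp [env, vcol, cnt_cons, DS_cons, dS, dN, dM, Prod.ext_iff]
  · simp [env, vcol, cnt_cons, DS_cons, dS, dN, dM, Prod.ext_iff]
  · rintro ⟨n0, m0⟩ ⟨n1, m1⟩ ⟨n2, m2⟩
    simp [Psi, env, lvs, scan_cons, vcol, cnt_cons, dS, dN, dM, pair, theta, psi]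
    generalize ((n1 : ℤ) : ZMod 2) = a
    generalize ((n2 : ℤ) : ZMod 2) = b
    revert m0 a b
    decide

lemma good_bo7 : GoodVal (ZMod 2) (tag
    [ [⟨5, true, true⟩, ⟨3, false, true⟩, ⟨2, true, false⟩, ⟨0, false, false⟩],
      [⟨0, true, false⟩, ⟨1, false, false⟩, ⟨3, true, true⟩, ⟨4, false, true⟩],
      [⟨1, true, false⟩, ⟨2, false, false⟩, ⟨4, true, true⟩, ⟨5, false, true⟩] ]) 1 := by
  apply good_three
  · simp [env, vcol, cnt_cons, DS_cons, dS, dN, dM, Prod.ext_iff]; try rfl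
  · simp [env, vcol, cnt_cons, DS_cons, dS, dN, dM, Prod.ext_iff]
  · simp [env, vcol, cnt_cons, DS_cons, dS, dN, dM, Prod.ext_iff]
  · rintro ⟨n0, m0⟩ ⟨n1, m1⟩ ⟨n2, m2⟩
    simp [Psi, env, lvs, scan_cons, vcol, cnt_cons, dS, dN, dM, pair, theta, psi]
    generalize ((n1 : ℤ) : ZMod 2) = a
    generalize ((n2 : ℤ) : ZMod 2) = b
    revert m0 a b
    decide

lemma good_bo8 : GoodVal (ZMod 2) (tag
    [ [⟨1, true, false⟩, ⟨2, false, false⟩, ⟨4, true, true⟩, ⟨5, false, true⟩],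
      [⟨0, true, false⟩, ⟨1, false, false⟩, ⟨3, true, true⟩, ⟨4, false, true⟩],
      [⟨5, true, true⟩, ⟨3, false, true⟩, ⟨2, true, false⟩, ⟨0, false, false⟩] ]) 1 := by
  apply good_three
  · simp [env, vcol, cnt_cons, DS_cons, dS, dN, dM, Prod.ext_iff]; try rfl
  · simp [env, vcol, cnt_cons, DS_cons, dS, dN, dM, Prod.ext_iff]
  · simp [env, vcol, cnt_cons, DS_cons, dS, dN, dM, Prod.ext_iff]
  · rintro ⟨n0, m0⟩ ⟨n1, m1⟩ ⟨n2, m2⟩
    simp [Psi, env, lvs, scan_cons, vcol, cnt_cons, dS, dN, dM, pair, theta, psi]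
    generalize ((n1 : ℤ) : ZMod 2) = a
    generalize ((n2 : ℤ) : ZMod 2) = b
    revert m0 a b
    decide

lemma good_bo9 : GoodVal (ZMod 2) (tag
    [ [⟨4, false, false⟩, ⟨3, true, false⟩, ⟨1, false, true⟩, ⟨0, true, true⟩],
      [⟨5, true, true⟩, ⟨3, false, false⟩, ⟨2, true, false⟩, ⟨0, false, true⟩],
      [⟨1, true, true⟩, ⟨2, false, false⟩, ⟨4, true, false⟩, ⟨5, false, true⟩] ]) 1 := by
  apply good_three
  · simp [env, vcol, cnt_cons, DS_cons, dS, dN, dM, Prod.ext_iff]; try rfl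
  · simp [env, vcol, cnt_cons, DS_cons, dS, dN, dM, Prod.ext_iff]
  · simp [env, vcol, cnt_cons, DS_cons, dS, dN, dM, Prod.ext_iff]
  · rintro ⟨n0, m0⟩ ⟨n1, m1⟩ ⟨n2, m2⟩
    simp [Psi, env, lvs, scan_cons, vcol, cnt_cons, dS, dN, dM, pair, theta, psi]
    generalize ((n1 : ℤ) : ZMod 2) = a
    generalize ((n2 : ℤ) : ZMod 2) = b
    revert m0 a b
    decide

lemma good_bo10 : GoodVal (ZMod 2) (tag
    [ [⟨5, true, true⟩, ⟨3, false, false⟩, ⟨2, true, false⟩, ⟨0, false, true⟩],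
      [⟨4, false, false⟩, ⟨3, true, false⟩, ⟨1, false, true⟩, ⟨0, true, true⟩],
      [⟨1, true, true⟩, ⟨2, false, false⟩, ⟨4, true, false⟩, ⟨5, false, true⟩] ]) 1 := by
  apply good_three
  · simp [env, vcol, cnt_cons, DS_cons, dS, dN, dM, Prod.ext_iff]; try rfl
  · simp [env, vcol, cnt_cons, DS_cons, dS, dN, dM, Prod.ext_iff]
  · simp [env, vcol, cnt_cons, DS_cons, dS, dN, dM, Prod.ext_iff]
  · rintro ⟨n0, m0⟩ ⟨n1, m1⟩ ⟨n2, m2⟩
    simp [Psi, env, lvs, scan_cons, vcol, cnt_cons, dS, dN, dM, pair, theta, psi]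
    generalize ((n1 : ℤ) : ZMod 2) = a
    generalize ((n2 : ℤ) : ZMod 2) = b
    revert m0 a b
    decide

lemma good_bo11 : GoodVal (ZMod 2) (tag
    [ [⟨1, true, true⟩, ⟨2, false, false⟩, ⟨4, true, false⟩, ⟨5, false, true⟩],
      [⟨4, false, false⟩, ⟨3, true, false⟩, ⟨1, false, true⟩, ⟨0, true, true⟩],
      [⟨5, true, true⟩, ⟨3, false, false⟩, ⟨2, true, false⟩, ⟨0, false, true⟩] ]) 1 := by
  apply good_three
  · simp [env, vcol, cnt_cons, DS_cons, dS, dN, dM, Prod.ext_iff]; try rfl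
  · simp [env, vcol, cnt_cons, DS_cons, dS, dN, dM, Prod.ext_iff]
  · simp [env, vcol, cnt_cons, DS_cons, dS, dN, dM, Prod.ext_iff]
  · rintro ⟨n0, m0⟩ ⟨n1, m1⟩ ⟨n2, m2⟩
    simp [Psi, env, lvs, scan_cons, vcol, cnt_cons, dS, dN, dM, pair, theta, psi]
    generalize ((n1 : ℤ) : ZMod 2) = a
    generalize ((n2 : ℤ) : ZMod 2) = b
    revert m0 a b
    decide

lemma good_bo12 : GoodVal (ZMod 2) (tag
    [ [⟨0, true, true⟩, ⟨1, false, true⟩, ⟨3, true, false⟩, ⟨4, false, false⟩],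
      [⟨0, false, true⟩, ⟨2, true, false⟩, ⟨3, false, false⟩, ⟨5, true, true⟩],
      [⟨5, false, true⟩, ⟨4, true, false⟩, ⟨2, false, false⟩, ⟨1, true, true⟩] ]) 1 := by
  apply good_three
  · simp [env, vcol, cnt_cons, DS_cons, dS, dN, dM, Prod.ext_iff]; try rfl
  · simp [env, vcol, cnt_cons, DS_cons, dS, dN, dM, Prod.ext_iff]
  · simp [env, vcol, cnt_cons, DS_cons, dS, dN, dM, Prod.ext_iff]
  · rintro ⟨n0, m0⟩ ⟨n1, m1⟩ ⟨n2, m2⟩
    simp [Psi, env, lvs, scan_cons, vcol, cnt_cons, dS, dN, dM, pair, theta, psi]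
    generalize ((n1 : ℤ) : ZMod 2) = a
    generalize ((n2 : ℤ) : ZMod 2) = b
    revert m0 a b
    decide

lemma good_bo13 : GoodVal (ZMod 2) (tag
    [ [⟨0, false, true⟩, ⟨2, true, false⟩, ⟨3, false, false⟩, ⟨5, true, true⟩],
      [⟨0, true, true⟩, ⟨1, false, true⟩, ⟨3, true, false⟩, ⟨4, false, false⟩],
      [⟨5, false, true⟩, ⟨4, true, false⟩, ⟨2, false, false⟩, ⟨1, true, true⟩] ]) 1 := by
  apply good_three
  · simp [env, vcol, cnt_cons, DS_cons, dS, dN, dM, Prod.ext_iff]; try rfl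
  · simp [env, vcol, cnt_cons, DS_cons, dS, dN, dM, Prod.ext_iff]
  · simp [env, vcol, cnt_cons, DS_cons, dS, dN, dM, Prod.ext_iff]
  · rintro ⟨n0, m0⟩ ⟨n1, m1⟩ ⟨n2, m2⟩
    simp [Psi, env, lvs, scan_cons, vcol, cnt_cons, dS, dN, dM, pair, theta, psi]
    generalize ((n1 : ℤ) : ZMod 2) = a
    generalize ((n2 : ℤ) : ZMod 2) = b
    revert m0 a b
    decide

lemma good_bo14 : GoodVal (ZMod 2) (tag
    [ [⟨5, false, true⟩, ⟨4, true, false⟩, ⟨2, false, false⟩, ⟨1, true, true⟩],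
      [⟨0, true, true⟩, ⟨1, false, true⟩, ⟨3, true, false⟩, ⟨4, false, false⟩],
      [⟨0, false, true⟩, ⟨2, true, false⟩, ⟨3, false, false⟩, ⟨5, true, true⟩] ]) 1 := by
  apply good_three
  · simp [env, vcol, cnt_cons, DS_cons, dS, dN, dM, Prod.ext_iff]; try rfl
  · simp [env, vcol, cnt_cons, DS_cons, dS, dN, dM, Prod.ext_iff]
  · simp [env, vcol, cnt_cons, DS_cons, dS, dN, dM, Prod.ext_iff]
  · rintro ⟨n0, m0⟩ ⟨n1, m1⟩ ⟨n2, m2⟩
    simp [Psi, env, lvs, scan_cons, vcol, cnt_cons, dS, dN, dM, pair, theta, psi]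
    generalize ((n1 : ℤ) : ZMod 2) = a
    generalize ((n2 : ℤ) : ZMod 2) = b
    revert m0 a b
    decide

lemma good_bo15 : GoodVal (ZMod 2) (tag
    [ [⟨4, false, true⟩, ⟨3, true, true⟩, ⟨1, false, false⟩, ⟨0, true, false⟩],
      [⟨0, false, false⟩, ⟨2, true, false⟩, ⟨3, false, true⟩, ⟨5, true, true⟩],
      [⟨5, false, true⟩, ⟨4, true, true⟩, ⟨2, false, false⟩, ⟨1, true, false⟩] ]) 1 := by
  apply good_three
  · simp [env, vcol, cnt_cons, DS_cons, dS, dN, dM, Prod.ext_iff]; try rfl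
  · simp [env, vcol, cnt_cons, DS_cons, dS, dN, dM, Prod.ext_iff]
  · simp [env, vcol, cnt_cons, DS_cons, dS, dN, dM, Prod.ext_iff]
  · rintro ⟨n0, m0⟩ ⟨n1, m1⟩ ⟨n2, m2⟩
    simp [Psi, env, lvs, scan_cons, vcol, cnt_cons, dS, dN, dM, pair, theta, psi]
    generalize ((n1 : ℤ) : ZMod 2) = a
    generalize ((n2 : ℤ) : ZMod 2) = b
    revert m0 a b
    decide

lemma good_bo16 : GoodVal (ZMod 2) (tag
    [ [⟨0, false, false⟩, ⟨2, true, false⟩, ⟨3, false, true⟩, ⟨5, true, true⟩],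
      [⟨4, false, true⟩, ⟨3, true, true⟩, ⟨1, false, false⟩, ⟨0, true, false⟩],
      [⟨5, false, true⟩, ⟨4, true, true⟩, ⟨2, false, false⟩, ⟨1, true, false⟩] ]) 1 := by
  apply good_three
  · simp [env, vcol, cnt_cons, DS_cons, dS, dN, dM, Prod.ext_iff]; try rfl
  · simp [env, vcol, cnt_cons, DS_cons, dS, dN, dM, Prod.ext_iff]
  · simp [env, vcol, cnt_cons, DS_cons, dS, dN, dM, Prod.ext_iff]
  · rintro ⟨n0, m0⟩ ⟨n1, m1⟩ ⟨n2, m2⟩
    simp [Psi, env, lvs, scan_cons, vcol, cnt_cons, dS, dN, dM, pair, theta, psi]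
    generalize ((n1 : ℤ) : ZMod 2) = a
    generalize ((n2 : ℤ) : ZMod 2) = b
    revert m0 a b
    decide

lemma good_bo17 : GoodVal (ZMod 2) (tag
    [ [⟨5, false, true⟩, ⟨4, true, true⟩, ⟨2, false, false⟩, ⟨1, true, false⟩],
      [⟨4, false, true⟩, ⟨3, true, true⟩, ⟨1, false, false⟩, ⟨0, true, false⟩],
      [⟨0, false, false⟩, ⟨2, true, false⟩, ⟨3, false, true⟩, ⟨5, true, true⟩] ]) 1 := by
  apply good_three
  · simp [env, vcol, cnt_cons, DS_cons, dS, dN, dM, Prod.ext_iff]; try rfl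
  · simp [env, vcol, cnt_cons, DS_cons, dS, dN, dM, Prod.ext_iff]
  · simp [env, vcol, cnt_cons, DS_cons, dS, dN, dM, Prod.ext_iff]
  · rintro ⟨n0, m0⟩ ⟨n1, m1⟩ ⟨n2, m2⟩
    simp [Psi, env, lvs, scan_cons, vcol, cnt_cons, dS, dN, dM, pair, theta, psi]
    generalize ((n1 : ℤ) : ZMod 2) = a
    generalize ((n2 : ℤ) : ZMod 2) = b
    revert m0 a b
    decide

lemma good_bo18 : GoodVal (ZMod 2) (tag
    [ [⟨0, true, false⟩, ⟨1, false, true⟩, ⟨3, true, true⟩, ⟨4, false, false⟩],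
      [⟨5, true, false⟩, ⟨3, false, true⟩, ⟨2, true, true⟩, ⟨0, false, false⟩],
      [⟨5, false, false⟩, ⟨4, true, false⟩, ⟨2, false, true⟩, ⟨1, true, true⟩] ]) 1 := by
  apply good_three
  · simp [env, vcol, cnt_cons, DS_cons, dS, dN, dM, Prod.ext_iff]; try rfl
  · simp [env, vcol, cnt_cons, DS_cons, dS, dN, dM, Prod.ext_iff]
  · simp [env, vcol, cnt_cons, DS_cons, dS, dN, dM, Prod.ext_iff]
  · rintro ⟨n0, m0⟩ ⟨n1, m1⟩ ⟨n2, m2⟩
    simp [Psi, env, lvs, scan_cons, vcol, cnt_cons, dS, dN, dM, pair, theta, psi]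
    generalize ((n1 : ℤ) : ZMod 2) = a
    generalize ((n2 : ℤ) : ZMod 2) = b
    revert m0 a b
    decide

lemma good_bo19 : GoodVal (ZMod 2) (tag
    [ [⟨5, true, false⟩, ⟨3, false, true⟩, ⟨2, true, true⟩, ⟨0, false, false⟩],
      [⟨0, true, false⟩, ⟨1, false, true⟩, ⟨3, true, true⟩, ⟨4, false, false⟩],
      [⟨5, false, false⟩, ⟨4, true, false⟩, ⟨2, false, true⟩, ⟨1, true, true⟩] ]) 1 := by
  apply good_three
  · simp [env, vcol, cnt_cons, DS_cons, dS, dN, dM, Prod.ext_iff]; try rfl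
  · simp [env, vcol, cnt_cons, DS_cons, dS, dN, dM, Prod.ext_iff]
  · simp [env, vcol, cnt_cons, DS_cons, dS, dN, dM, Prod.ext_iff]
  · rintro ⟨n0, m0⟩ ⟨n1, m1⟩ ⟨n2, m2⟩
    simp [Psi, env, lvs, scan_cons, vcol, cnt_cons, dS, dN, dM, pair, theta, psi]
    generalize ((n1 : ℤ) : ZMod 2) = a
    generalize ((n2 : ℤ) : ZMod 2) = b
    revert m0 a b
    decide

lemma good_bo20 : GoodVal (ZMod 2) (tag
    [ [⟨5, false, false⟩, ⟨4, true, false⟩, ⟨2, false, true⟩, ⟨1, true, true⟩],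
      [⟨0, true, false⟩, ⟨1, false, true⟩, ⟨3, true, true⟩, ⟨4, false, false⟩],
      [⟨5, true, false⟩, ⟨3, false, true⟩, ⟨2, true, true⟩, ⟨0, false, false⟩] ]) 1 := by
  apply good_three
  · simp [env, vcol, cnt_cons, DS_cons, dS, dN, dM, Prod.ext_iff]; try rfl
  · simp [env, vcol, cnt_cons, DS_cons, dS, dN, dM, Prod.ext_iff]
  · simp [env, vcol, cnt_cons, DS_cons, dS, dN, dM, Prod.ext_iff]
  · rintro ⟨n0, m0⟩ ⟨n1, m1⟩ ⟨n2, m2⟩
    simp [Psi, env, lvs, scan_cons, vcol, cnt_cons, dS, dN, dM, pair, theta, psi]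
    generalize ((n1 : ℤ) : ZMod 2) = a
    generalize ((n2 : ℤ) : ZMod 2) = b
    revert m0 a b
    decide

lemma good_bo21 : GoodVal (ZMod 2) (tag
    [ [⟨4, false, true⟩, ⟨3, true, false⟩, ⟨1, false, false⟩, ⟨0, true, true⟩],
      [⟨5, true, false⟩, ⟨3, false, false⟩, ⟨2, true, true⟩, ⟨0, false, true⟩],
      [⟨5, false, false⟩, ⟨4, true, true⟩, ⟨2, false, true⟩, ⟨1, true, false⟩] ]) 1 := by
  apply good_three
  · simp [env, vcol, cnt_cons, DS_cons, dS, dN, dM, Prod.ext_iff]; try rfl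
  · simp [env, vcol, cnt_cons, DS_cons, dS, dN, dM, Prod.ext_iff]
  · simp [env, vcol, cnt_cons, DS_cons, dS, dN, dM, Prod.ext_iff]
  · rintro ⟨n0, m0⟩ ⟨n1, m1⟩ ⟨n2, m2⟩
    simp [Psi, env, lvs, scan_cons, vcol, cnt_cons, dS, dN, dM, pair, theta, psi]
    generalize ((n1 : ℤ) : ZMod 2) = a
    generalize ((n2 : ℤ) : ZMod 2) = b
    revert m0 a b
    decide

lemma good_bo22 : GoodVal (ZMod 2) (tag
    [ [⟨5, true, false⟩, ⟨3, false, false⟩, ⟨2, true, true⟩, ⟨0, false, true⟩],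
      [⟨4, false, true⟩, ⟨3, true, false⟩, ⟨1, false, false⟩, ⟨0, true, true⟩],
      [⟨5, false, false⟩, ⟨4, true, true⟩, ⟨2, false, true⟩, ⟨1, true, false⟩] ]) 1 := by
  apply good_three
  · simp [env, vcol, cnt_cons, DS_cons, dS, dN, dM, Prod.ext_iff]; try rfl
  · simp [env, vcol, cnt_cons, DS_cons, dS, dN, dM, Prod.ext_iff]
  · simp [env, vcol, cnt_cons, DS_cons, dS, dN, dM, Prod.ext_iff]
  · rintro ⟨n0, m0⟩ ⟨n1, m1⟩ ⟨n2, m2⟩
    simp [Psi, env, lvs, scan_cons, vcol, cnt_cons, dS, dN, dM, pair, theta, psi]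
    generalize ((n1 : ℤ) : ZMod 2) = a
    generalize ((n2 : ℤ) : ZMod 2) = b
    revert m0 a b
    decide

lemma good_bo23 : GoodVal (ZMod 2) (tag
    [ [⟨5, false, false⟩, ⟨4, true, true⟩, ⟨2, false, true⟩, ⟨1, true, false⟩],
      [⟨4, false, true⟩, ⟨3, true, false⟩, ⟨1, false, false⟩, ⟨0, true, true⟩],
      [⟨5, true, false⟩, ⟨3, false, false⟩, ⟨2, true, true⟩, ⟨0, false, true⟩] ]) 1 := by
  apply good_three
  · simp [env, vcol, cnt_cons, DS_cons, dS, dN, dM, Prod.ext_iff]; try rfl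
  · simp [env, vcol, cnt_cons, DS_cons, dS, dN, dM, Prod.ext_iff]
  · simp [env, vcol, cnt_cons, DS_cons, dS, dN, dM, Prod.ext_iff]
  · rintro ⟨n0, m0⟩ ⟨n1, m1⟩ ⟨n2, m2⟩
    simp [Psi, env, lvs, scan_cons, vcol, cnt_cons, dS, dN, dM, pair, theta, psi]
    generalize ((n1 : ℤ) : ZMod 2) = a
    generalize ((n2 : ℤ) : ZMod 2) = b
    revert m0 a b
    decide

theorem good_borromean : ∀ L ∈ choices borromean, GoodVal (ZMod 2) (tag L) 1 := by
  intro L hL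
  rw [choices_borromean] at hL
  simp only [List.mem_cons, List.not_mem_nil, or_false] at hL
  rcases hL with rfl | rfl | rfl | rfl | rfl | rfl | rfl | rfl | rfl | rfl | rfl | rfl |
    rfl | rfl | rfl | rfl | rfl | rfl | rfl | rfl | rfl | rfl | rfl | rfl
  · exact good_bo0
  · exact good_bo1
  · exact good_bo2
  · exact good_bo3
  · exact good_bo4
  · exact good_bo5
  · exact good_bo6
  · exact good_bo7
  · exact good_bo8
  · exact good_bo9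
  · exact good_bo10
  · exact good_bo11
  · exact good_bo12
  · exact good_bo13
  · exact good_bo14
  · exact good_bo15
  · exact good_bo16
  · exact good_bo17
  · exact good_bo18
  · exact good_bo19
  · exact good_bo20
  · exact good_bo21
  · exact good_bo22
  · exact good_bo23

end Pool.Agent.Helper64.Chi
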