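import Mathlib
import Pool.Agent.Helper64.Chi.Eval

/-!
# The Whitehead link
-/

set_option autoImplicit false
set_option linter.unusedSimpArgs false

namespace Pool.Agent.Helper64.Chi

variable {R : Type} [CommRing R]

lemma choices_whitehead : choices whitehead = [
  [ [⟨0, true, true⟩, ⟨1, false, false⟩, ⟨3, true, false⟩, ⟨4, false, false⟩,
     ⟨1, true, false⟩, ⟨2, false, true⟩],
    [⟨0, false, true⟩, ⟨2, true, true⟩, ⟨3, false, false⟩, ⟨4, true, false⟩] ],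
  [ [⟨0, false, true⟩, ⟨2, true, true⟩, ⟨3, false, false⟩, ⟨4, true, false⟩],
    [⟨0, true, true⟩, ⟨1, false, false⟩, ⟨3, true, false⟩, ⟨4, false, false⟩,
     ⟨1, true, false⟩, ⟨2, false, true⟩] ],
  [ [⟨2, false, false⟩, ⟨1, true, false⟩, ⟨4, false, true⟩, ⟨3, true, true⟩,
     ⟨1, false, false⟩, ⟨0, true, false⟩],
    [⟨0, false, false⟩, ⟨2, true, false⟩, ⟨3, false, true⟩, ⟨4, true, true⟩] ],
  [ [⟨0, false, false⟩, ⟨2, true, false⟩, ⟨3, false, true⟩, ⟨4, true, true⟩],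
    [⟨2, false, false⟩, ⟨1, true, false⟩, ⟨4, false, true⟩, ⟨3, true, true⟩,
     ⟨1, false, false⟩, ⟨0, true, false⟩] ],
  [ [⟨0, true, false⟩, ⟨1, false, false⟩, ⟨3, true, true⟩, ⟨4, false, true⟩,
     ⟨1, true, false⟩, ⟨2, false, false⟩],
    [⟨4, true, true⟩, ⟨3, false, true⟩, ⟨2, true, false⟩, ⟨0, false, false⟩] ],
  [ [⟨4, true, true⟩, ⟨3, false, true⟩, ⟨2, true, false⟩, ⟨0, false, false⟩],
    [⟨0, true, false⟩, ⟨1, false, false⟩, ⟨3, true, true⟩, ⟨4, false, true⟩,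
     ⟨1, true, false⟩, ⟨2, false, false⟩] ],
  [ [⟨2, false, true⟩, ⟨1, true, false⟩, ⟨4, false, false⟩, ⟨3, true, false⟩,
     ⟨1, false, false⟩, ⟨0, true, true⟩],
    [⟨4, true, false⟩, ⟨3, false, false⟩, ⟨2, true, true⟩, ⟨0, false, true⟩] ],
  [ [⟨4, true, false⟩, ⟨3, false, false⟩, ⟨2, true, true⟩, ⟨0, false, true⟩],
    [⟨2, false, true⟩, ⟨1, true, false⟩, ⟨4, false, false⟩, ⟨3, true, false⟩,
     ⟨1, false, false⟩, ⟨0, true, true⟩] ]] := by decide +kernel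

lemma good_wh0 : GoodVal R (tag
    [ [⟨0, true, true⟩, ⟨1, false, false⟩, ⟨3, true, false⟩, ⟨4, false, false⟩,
       ⟨1, true, false⟩, ⟨2, false, true⟩],
      [⟨0, false, true⟩, ⟨2, true, true⟩, ⟨3, false, false⟩, ⟨4, true, false⟩] ]) 1 := by
  apply good_two
  · simp [env, vcol, cnt_cons, DS_cons, dS, dN, dM]
  · simp [env, vcol, cnt_cons, DS_cons, dS, dN, dM]
  · rintro ⟨n0, m0⟩ ⟨n1, m1⟩
    simp [Psi, env, lvs, scan_cons, vcol, cnt_cons, dS, dN, dM, pair, theta, psi]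
    ring

lemma good_wh1 : GoodVal R (tag
    [ [⟨0, false, true⟩, ⟨2, true, true⟩, ⟨3, false, false⟩, ⟨4, true, false⟩],
      [⟨0, true, true⟩, ⟨1, false, false⟩, ⟨3, true, false⟩, ⟨4, false, false⟩,
       ⟨1, true, false⟩, ⟨2, false, true⟩] ]) 1 := by
  apply good_two
  · simp [env, vcol, cnt_cons, DS_cons, dS, dN, dM]
  · simp [env, vcol, cnt_cons, DS_cons, dS, dN, dM]
  · rintro ⟨n0, m0⟩ ⟨n1, m1⟩
    simp [Psi, env, lvs, scan_cons, vcol, cnt_cons, dS, dN, dM, pair, theta, psi]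
    ring

lemma good_wh2 : GoodVal R (tag
    [ [⟨2, false, false⟩, ⟨1, true, false⟩, ⟨4, false, true⟩, ⟨3, true, true⟩,
       ⟨1, false, false⟩, ⟨0, true, false⟩],
      [⟨0, false, false⟩, ⟨2, true, false⟩, ⟨3, false, true⟩, ⟨4, true, true⟩] ]) 1 := by
  apply good_two
  · simp [env, vcol, cnt_cons, DS_cons, dS, dN, dM]
  · simp [env, vcol, cnt_cons, DS_cons, dS, dN, dM]
  · rintro ⟨n0, m0⟩ ⟨n1, m1⟩
    simp [Psi, env, lvs, scan_cons, vcol, cnt_cons, dS, dN, dM, pair, theta, psi]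
    ring

lemma good_wh3 : GoodVal R (tag
    [ [⟨0, false, false⟩, ⟨2, true, false⟩, ⟨3, false, true⟩, ⟨4, true, true⟩],
      [⟨2, false, false⟩, ⟨1, true, false⟩, ⟨4, false, true⟩, ⟨3, true, true⟩,
       ⟨1, false, false⟩, ⟨0, true, false⟩] ]) 1 := by
  apply good_two
  · simp [env, vcol, cnt_cons, DS_cons, dS, dN, dM]
  · simp [env, vcol, cnt_cons, DS_cons, dS, dN, dM]
  · rintro ⟨n0, m0⟩ ⟨n1, m1⟩
    simp [Psi, env, lvs, scan_cons, vcol, cnt_cons, dS, dN, dM, pair, theta, psi]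
    ring

lemma good_wh4 : GoodVal R (tag
    [ [⟨0, true, false⟩, ⟨1, false, false⟩, ⟨3, true, true⟩, ⟨4, false, true⟩,
       ⟨1, true, false⟩, ⟨2, false, false⟩],
      [⟨4, true, true⟩, ⟨3, false, true⟩, ⟨2, true, false⟩, ⟨0, false, false⟩] ]) 1 := by
  apply good_two
  · simp [env, vcol, cnt_cons, DS_cons, dS, dN, dM]
  · simp [env, vcol, cnt_cons, DS_cons, dS, dN, dM]
  · rintro ⟨n0, m0⟩ ⟨n1, m1⟩
    simp [Psi, env, lvs, scan_cons, vcol, cnt_cons, dS, dN, dM, pair, theta, psi]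
    ring

lemma good_wh5 : GoodVal R (tag
    [ [⟨4, true, true⟩, ⟨3, false, true⟩, ⟨2, true, false⟩, ⟨0, false, false⟩],
      [⟨0, true, false⟩, ⟨1, false, false⟩, ⟨3, true, true⟩, ⟨4, false, true⟩,
       ⟨1, true, false⟩, ⟨2, false, false⟩] ]) 1 := by
  apply good_two
  · simp [env, vcol, cnt_cons, DS_cons, dS, dN, dM]
  · simp [env, vcol, cnt_cons, DS_cons, dS, dN, dM]
  · rintro ⟨n0, m0⟩ ⟨n1, m1⟩
    simp [Psi, env, lvs, scan_cons, vcol, cnt_cons, dS, dN, dM, pair, theta, psi]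
    ring

lemma good_wh6 : GoodVal R (tag
    [ [⟨2, false, true⟩, ⟨1, true, false⟩, ⟨4, false, false⟩, ⟨3, true, false⟩,
       ⟨1, false, false⟩, ⟨0, true, true⟩],
      [⟨4, true, false⟩, ⟨3, false, false⟩, ⟨2, true, true⟩, ⟨0, false, true⟩] ]) 1 := by
  apply good_two
  · simp [env, vcol, cnt_cons, DS_cons, dS, dN, dM]
  · simp [env, vcol, cnt_cons, DS_cons, dS, dN, dM]
  · rintro ⟨n0, m0⟩ ⟨n1, m1⟩
    simp [Psi, env, lvs, scan_cons, vcol, cnt_cons, dS, dN, dM, pair, theta, psi]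
    ring

lemma good_wh7 : GoodVal R (tag
    [ [⟨4, true, false⟩, ⟨3, false, false⟩, ⟨2, true, true⟩, ⟨0, false, true⟩],
      [⟨2, false, true⟩, ⟨1, true, false⟩, ⟨4, false, false⟩, ⟨3, true, false⟩,
       ⟨1, false, false⟩, ⟨0, true, true⟩] ]) 1 := by
  apply good_two
  · simp [env, vcol, cnt_cons, DS_cons, dS, dN, dM]
  · simp [env, vcol, cnt_cons, DS_cons, dS, dN, dM]
  · rintro ⟨n0, m0⟩ ⟨n1, m1⟩
    simp [Psi, env, lvs, scan_cons, vcol, cnt_cons, dS, dN, dM, pair, theta, psi]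
    ring

theorem good_whitehead : ∀ L ∈ choices whitehead, GoodVal R (tag L) 1 := by
  intro L hL
  rw [choices_whitehead] at hL
  simp only [List.mem_cons, List.not_mem_nil, or_false] at hL
  rcases hL with rfl | rfl | rfl | rfl | rfl | rfl | rfl | rfl
  · exact good_wh0
  · exact good_wh1
  · exact good_wh2
  · exact good_wh3
  · exact good_wh4
  · exact good_wh5
  · exact good_wh6
  · exact good_wh7

end Pool.Agent.Helper64.Chi
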