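import Mathlib
import Pool.Agent.Helper64.Chi.Defs

/-!
# Checking explicit sequences of moves
-/

set_option autoImplicit false

namespace Pool.Agent.Helper64.Chi

/-- isotopy of coloured diagrams through planar diagrams -/
def IsoD (D D' : Diagram) : Prop :=
  Relation.EqvGen (fun D D' => Planar D ∧ Planar D' ∧ RMove D D') D D'

abbrev LD := List (ℕ × Word)

def planarB (l : LD) : Bool :=
  decide (ValidCode (visits (l : Multiset (ℕ × Word)))) && decide (eulerOK (l.map Prod.snd))

lemma planar_of_planarB {l : LD} (h : planarB l = true) : Planar (l : Multiset (ℕ × Word)) := by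
  unfold planarB at h
  rw [Bool.and_eq_true, decide_eq_true_iff, decide_eq_true_iff] at h
  exact ⟨h.1, l, rfl, h.2⟩

/-- names of Reidemeister moves -/
inductive RD
  | r2 (x y : ℕ) (s p : Bool)
  | r3 (x y z : ℕ) (a b c : Bool)

def RD.lo : RD → Fin 3 → Word
  | r2 _ _ _ _ => ![[], [], []]
  | r3 x y z a b c => triangle x y z a b c true

def RD.hi : RD → Fin 3 → Word
  | r2 x y s p => ![[⟨x, true, s⟩, ⟨y, true, !s⟩],
      if p then [⟨x, false, s⟩, ⟨y, false, !s⟩] else [⟨y, false, !s⟩, ⟨x, false, s⟩], []]
  | r3 x y z a b c => triangle x y z a b c false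

def RD.cr : RD → List ℕ
  | r2 x y _ _ => [x, y]
  | r3 x y z _ _ _ => [x, y, z]

lemma RD.reid (t : RD) (h : t.cr.Nodup) : Reid t.lo t.hi t.cr := by
  cases t with
  | r2 x y s p =>
    have hxy : x ≠ y := by
      simp only [RD.cr, List.nodup_cons, List.mem_singleton] at h
      exact h.1
    exact Reid.r2 x y s p hxy
  | r3 x y z a b c => exact Reid.r3 x y z a b c h

abbrev LC := List (ℕ × HWord)

def fillL (E : LC) (f : Fin 3 → Word) : LD := E.map fun p => (p.1, fillW f p.2)

lemma fillL_coe (E : LC) (f : Fin 3 → Word) :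
    ((fillL E f : LD) : Multiset (ℕ × Word)) = fill (E : Multiset (ℕ × HWord)) f := rfl

def avoidsB (E : LC) (X : List ℕ) : Bool :=
  E.all fun p => p.2.all fun a => match a with
    | Sum.inl v => decide (v.x ∉ X)
    | Sum.inr _ => true

lemma avoids_of_avoidsB {E : LC} {X : List ℕ} (h : avoidsB E X = true) :
    Avoids (E : Multiset (ℕ × HWord)) X := by
  intro p hp v hv
  unfold avoidsB at h
  rw [List.all_eq_true] at h
  have h1 := h p (Multiset.mem_coe.1 hp)
  rw [List.all_eq_true] at h1
  have h2 := h1 _ hv
  simpa using h2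

inductive Step
  | rot (i n : ℕ)
  | ren (l : List (ℕ × ℕ))
  | reid (E : LC) (t : RD) (back : Bool)

def rotAt : ℕ → ℕ → LD → LD
  | _, _, [] => []
  | 0, n, p :: l => (p.1, p.2.rotate n) :: l
  | i + 1, n, p :: l => p :: rotAt i n l

lemma rotAt_move (i n : ℕ) (l : LD) (K : Diagram) :
    RMove ((l : Multiset (ℕ × Word)) + K) ((rotAt i n l : Multiset (ℕ × Word)) + K) ∨
      rotAt i n l = l := by
  induction l generalizing i K with
  | nil => right; cases i <;> rfl
  | cons p l ih =>
    cases i with
    | zero =>
      left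
      have h := RMove.rot p.1 (p.2.take (n % p.2.length)) (p.2.drop (n % p.2.length))
        ((l : Multiset (ℕ × Word)) + K)
      rw [List.take_append_drop, ← List.rotate_eq_drop_append_take_mod] at h
      simpa [rotAt, ← Multiset.cons_coe] using h
    | succ i =>
      rcases ih i (p ::ₘ K) with h | h
      · left
        simpa [rotAt, ← Multiset.cons_coe] using h
      · right
        simp [rotAt, h]

def renPerm (l : List (ℕ × ℕ)) : Equiv.Perm ℕ := (l.map fun p => Equiv.swap p.1 p.2).prod

def renFun : List (ℕ × ℕ) → ℕ → ℕ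
  | [], x => x
  | p :: l, x => let y := renFun l x; if y = p.1 then p.2 else if y = p.2 then p.1 else y

lemma renPerm_apply (l : List (ℕ × ℕ)) (x : ℕ) : renPerm l x = renFun l x := by
  induction l with
  | nil => rfl
  | cons p l ih =>
    unfold renPerm at ih ⊢
    rw [List.map_cons, List.prod_cons, Equiv.Perm.mul_apply, ih, Equiv.swap_apply_def]
    rfl

def Step.out : Step → LD → LD
  | .rot i n, l => rotAt i n l
  | .ren s, l => l.map fun p => (p.1, p.2.map fun v => ⟨renFun s v.x, v.up, v.pos⟩)
  | .reid E t back, _ => if back then fillL E t.lo else fillL E t.hi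

def Step.ok : Step → LD → Bool
  | .rot _ _, _ => true
  | .ren _, _ => true
  | .reid E t back, l =>
    decide (t.cr.Nodup) && decide (holes (E : Multiset (ℕ × HWord)) = {0, 1, 2}) &&
    avoidsB E t.cr && decide (l = if back then fillL E t.hi else fillL E t.lo)

def runB : List Step → LD → LD → Bool
  | [], l, l' => decide (l.Perm l')
  | s :: ss, l, l' => s.ok l && planarB (s.out l) && runB ss (s.out l) l'

lemma step_sound {s : Step} {l : LD} (hl : Planar (l : Multiset (ℕ × Word)))
    (h : s.ok l = true) (h' : planarB (s.out l) = true) :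
    IsoD (l : Multiset (ℕ × Word)) (s.out l : Multiset (ℕ × Word)) := by
  have hp := planar_of_planarB h'
  cases s with
  | rot i n =>
    rcases rotAt_move i n l 0 with h1 | h1
    · rw [add_zero, add_zero] at h1
      exact Relation.EqvGen.rel _ _ ⟨hl, hp, h1⟩
    · show IsoD _ ((rotAt i n l : LD) : Multiset (ℕ × Word))
      rw [h1]
      exact Relation.EqvGen.refl _
  | ren r =>
    apply Relation.EqvGen.rel
    refine ⟨hl, hp, ?_⟩
    have := RMove.rename (renPerm r) (l : Multiset (ℕ × Word))
    simp only [renPerm_apply] at this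
    exact this
  | reid E t back =>
    simp only [Step.ok, Bool.and_eq_true, decide_eq_true_iff] at h
    obtain ⟨⟨⟨h1, h2⟩, h3⟩, h4⟩ := h
    have hR := RMove.reid (E : Multiset (ℕ × HWord)) h2 (avoids_of_avoidsB h3) (t.reid h1)
    rw [← fillL_coe, ← fillL_coe] at hR
    cases back with
    | true =>
      simp only [if_true] at h4
      subst h4
      apply Relation.EqvGen.symm
      exact Relation.EqvGen.rel _ _ ⟨hp, hl, hR⟩
    | false =>
      simp only [Bool.false_eq_true, if_false] at h4
      subst h4
      exact Relation.EqvGen.rel _ _ ⟨hl, hp, hR⟩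

theorem run_sound {ss : List Step} {l l' : LD} (hl : Planar (l : Multiset (ℕ × Word)))
    (h : runB ss l l' = true) : IsoD (l : Multiset (ℕ × Word)) (l' : Multiset (ℕ × Word)) := by
  induction ss generalizing l with
  | nil =>
    simp only [runB, decide_eq_true_iff] at h
    rw [Multiset.coe_eq_coe.2 h]
    exact Relation.EqvGen.refl _
  | cons s ss ih =>
    simp only [runB, Bool.and_eq_true] at h
    exact Relation.EqvGen.trans _ _ _ (step_sound hl h.1.1 h.1.2)
      (ih (planar_of_planarB h.1.2) h.2)

lemma bounds_iso {D D' : Diagram} (h : IsoD D D') {χ : ℕ → ℤ} {o : ℕ → Bool} :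
    Bounds D χ o ↔ Bounds D' χ o := by
  induction h with
  | rel x y h => exact ⟨fun h' => Bounds.move h' (Or.inr h.2.2) h.2.1,
      fun h' => Bounds.move h' (Or.inl h.2.2) h.1⟩
  | refl x => exact Iff.rfl
  | symm x y _ ih => exact ih.symm
  | trans x y z _ _ ih1 ih2 => exact ih1.trans ih2

def tagL : Code → LD
  | [] => []
  | k :: A => (0, k) :: A.map fun w => (1, w)

lemma tagL_coe (L : Code) : ((tagL L : LD) : Multiset (ℕ × Word)) = tag L := by
  cases L <;> rfl

lemma isotopic_of_run {L L' : Code} {ss : List Step} (h : planarB (tagL L) = true)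
    (h' : runB ss (tagL L) (tagL L') = true) : Isotopic L L' := by
  have := run_sound (planar_of_planarB h) h'
  rw [tagL_coe, tagL_coe] at this
  exact this

end Pool.Agent.Helper64.Chi
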