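import Mathlib
import Pool.Agent.Helper64.Chi.Iso

/-!
# The movie for twice the Borromean rings
-/

set_option autoImplicit false

namespace Pool.Agent.Helper64.Chi

/-- the closure of the inverse braid, with new names -/
def bm : Code :=
  [[⟨10, false, false⟩, ⟨9, true, true⟩, ⟨7, false, true⟩, ⟨6, true, false⟩],
    [⟨11, true, true⟩, ⟨9, false, true⟩, ⟨8, true, false⟩, ⟨6, false, false⟩],
    [⟨11, false, true⟩, ⟨10, true, false⟩, ⟨8, false, false⟩, ⟨7, true, true⟩]]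

/-- an isotopy from the Borromean rings to `bm` -/
def pathSteps : List Step :=
    [.reid [(0, [.inl ⟨0, true, true⟩, .inr 0, .inl ⟨1, false, false⟩, .inl ⟨3, true, false⟩, .inl ⟨4, false, true⟩, .inr 2]),
      (1, [.inl ⟨0, false, true⟩, .inl ⟨2, true, true⟩, .inl ⟨3, false, false⟩, .inl ⟨5, true, false⟩]),
      (1, [.inl ⟨1, true, false⟩, .inr 1, .inl ⟨2, false, true⟩, .inl ⟨4, true, true⟩, .inl ⟨5, false, false⟩])]
      (.r2 6 7 true false) false,
    .reid [(0, [.inr 0, .inl ⟨7, true, false⟩, .inl ⟨1, false, false⟩, .inl ⟨3, true, false⟩, .inl ⟨4, false, true⟩]),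
      (1, [.inr 1, .inl ⟨3, false, false⟩, .inl ⟨5, true, false⟩]),
      (1, [.inl ⟨1, true, false⟩, .inl ⟨7, false, false⟩, .inr 2, .inl ⟨4, true, true⟩, .inl ⟨5, false, false⟩])]
      (.r3 0 6 2 true true true) false,
    .reid [(0, [.inl ⟨6, true, true⟩, .inl ⟨0, true, true⟩, .inl ⟨7, true, false⟩, .inl ⟨1, false, false⟩, .inl ⟨3, true, false⟩, .inl ⟨4, false, true⟩, .inr 2]),
      (1, [.inl ⟨2, true, true⟩, .inl ⟨0, false, true⟩, .inl ⟨3, false, false⟩, .inr 1, .inl ⟨5, true, false⟩]),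
      (1, [.inl ⟨1, true, false⟩, .inl ⟨7, false, false⟩, .inl ⟨2, false, true⟩, .inl ⟨6, false, true⟩, .inl ⟨4, true, true⟩, .inl ⟨5, false, false⟩, .inr 0])]
      (.r2 8 9 false false) false,
    .rot 2 1,
    .reid [(0, [.inl ⟨6, true, true⟩, .inl ⟨0, true, true⟩, .inl ⟨7, true, false⟩, .inr 1, .inl ⟨4, false, true⟩]),
      (1, [.inl ⟨2, true, true⟩, .inl ⟨0, false, true⟩, .inr 2, .inl ⟨8, false, false⟩, .inl ⟨5, true, false⟩]),
      (1, [.inl ⟨7, false, false⟩, .inl ⟨2, false, true⟩, .inl ⟨6, false, true⟩, .inl ⟨4, true, true⟩, .inl ⟨5, false, false⟩, .inl ⟨8, true, false⟩, .inr 0])]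
      (.r3 1 9 3 false true false) true,
    .rot 2 1,
    .reid [(0, [.inl ⟨6, true, true⟩, .inr 0, .inl ⟨3, true, false⟩, .inl ⟨1, false, false⟩, .inl ⟨4, false, true⟩]),
      (1, [.inl ⟨2, true, true⟩, .inr 2, .inl ⟨3, false, false⟩, .inl ⟨8, false, false⟩, .inl ⟨5, true, false⟩]),
      (1, [.inl ⟨2, false, true⟩, .inl ⟨6, false, true⟩, .inl ⟨4, true, true⟩, .inl ⟨5, false, false⟩, .inl ⟨8, true, false⟩, .inl ⟨1, true, false⟩, .inr 1])]
      (.r3 7 0 9 false true true) false,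
    .reid [(0, [.inl ⟨6, true, true⟩, .inl ⟨7, true, false⟩, .inr 0, .inl ⟨1, false, false⟩, .inl ⟨4, false, true⟩, .inr 2]),
      (1, [.inl ⟨2, true, true⟩, .inl ⟨9, false, true⟩, .inr 1, .inl ⟨8, false, false⟩, .inl ⟨5, true, false⟩]),
      (1, [.inl ⟨2, false, true⟩, .inl ⟨6, false, true⟩, .inl ⟨4, true, true⟩, .inl ⟨5, false, false⟩, .inl ⟨8, true, false⟩, .inl ⟨1, true, false⟩, .inl ⟨7, false, false⟩, .inl ⟨9, true, true⟩])]
      (.r2 0 3 true true) true,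
    .reid [(0, [.inl ⟨6, true, true⟩, .inl ⟨7, true, false⟩, .inl ⟨1, false, false⟩, .inr 1, .inl ⟨4, false, true⟩, .inr 2]),
      (1, [.inl ⟨2, true, true⟩, .inl ⟨9, false, true⟩, .inl ⟨8, false, false⟩, .inr 0, .inl ⟨5, true, false⟩]),
      (1, [.inl ⟨2, false, true⟩, .inl ⟨6, false, true⟩, .inl ⟨4, true, true⟩, .inl ⟨5, false, false⟩, .inl ⟨8, true, false⟩, .inl ⟨1, true, false⟩, .inl ⟨7, false, false⟩, .inl ⟨9, true, true⟩])]
      (.r2 0 3 false true) false,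
    .reid [(0, [.inl ⟨6, true, true⟩, .inl ⟨7, true, false⟩, .inl ⟨1, false, false⟩, .inl ⟨0, false, false⟩, .inr 2]),
      (1, [.inl ⟨2, true, true⟩, .inl ⟨9, false, true⟩, .inl ⟨8, false, false⟩, .inl ⟨0, true, false⟩, .inr 0]),
      (1, [.inl ⟨2, false, true⟩, .inl ⟨6, false, true⟩, .inr 1, .inl ⟨8, true, false⟩, .inl ⟨1, true, false⟩, .inl ⟨7, false, false⟩, .inl ⟨9, true, true⟩])]
      (.r3 5 3 4 false true true) false,
    .rot 0 1,
    .rot 1 1,
    .reid [(0, [.inl ⟨7, true, false⟩, .inl ⟨1, false, false⟩, .inl ⟨0, false, false⟩, .inl ⟨4, false, true⟩, .inr 1]),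
      (1, [.inl ⟨9, false, true⟩, .inl ⟨8, false, false⟩, .inl ⟨0, true, false⟩, .inl ⟨5, true, false⟩, .inr 0]),
      (1, [.inr 2, .inl ⟨5, false, false⟩, .inl ⟨4, true, true⟩, .inl ⟨8, true, false⟩, .inl ⟨1, true, false⟩, .inl ⟨7, false, false⟩, .inl ⟨9, true, true⟩])]
      (.r3 3 2 6 true true true) false,
    .reid [(0, [.inl ⟨7, true, false⟩, .inl ⟨1, false, false⟩, .inl ⟨0, false, false⟩, .inl ⟨4, false, true⟩, .inl ⟨6, true, true⟩, .inl ⟨3, false, true⟩, .inr 2]),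
      (1, [.inl ⟨9, false, true⟩, .inl ⟨8, false, false⟩, .inl ⟨0, true, false⟩, .inr 0, .inl ⟨3, true, true⟩]),
      (1, [.inl ⟨6, false, true⟩, .inr 1, .inl ⟨4, true, true⟩, .inl ⟨8, true, false⟩, .inl ⟨1, true, false⟩, .inl ⟨7, false, false⟩, .inl ⟨9, true, true⟩])]
      (.r2 5 2 false false) true,
    .reid [(0, [.inl ⟨7, true, false⟩, .inr 2, .inl ⟨4, false, true⟩, .inl ⟨6, true, true⟩, .inl ⟨3, false, true⟩]),
      (1, [.inl ⟨9, false, true⟩, .inr 1, .inl ⟨3, true, true⟩]),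
      (1, [.inl ⟨6, false, true⟩, .inl ⟨4, true, true⟩, .inr 0, .inl ⟨7, false, false⟩, .inl ⟨9, true, true⟩])]
      (.r3 8 1 0 false false false) true,
    .reid [(0, [.inl ⟨7, true, false⟩, .inl ⟨0, false, false⟩, .inr 1, .inl ⟨6, true, true⟩, .inl ⟨3, false, true⟩, .inr 2]),
      (1, [.inl ⟨9, false, true⟩, .inl ⟨0, true, false⟩, .inl ⟨8, false, false⟩, .inl ⟨3, true, true⟩]),
      (1, [.inl ⟨6, false, true⟩, .inr 0, .inl ⟨8, true, false⟩, .inl ⟨7, false, false⟩, .inl ⟨9, true, true⟩])]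
      (.r2 4 1 true false) true,
    .rot 0 1,
    .rot 2 3,
    .ren [(0, 10), (3, 7), (7, 6), (6, 9), (9, 11)]]

theorem iso_bm : Isotopic borromean bm :=
  isotopic_of_run (ss := pathSteps) (by decide +kernel) (by decide +kernel)

def choiceSteps : List (List Step) := [
    [],
    [.rot 0 1, .rot 1 2, .rot 2 1, .ren [(0, 4), (4, 2), (1, 5), (5, 3)]],
    [.rot 0 2, .rot 1 3, .rot 2 3, .ren [(0, 2), (2, 4), (1, 3), (3, 5)]],
    [.rot 1 1, .rot 2 1, .ren [(0, 6), (1, 7), (2, 11), (11, 5), (5, 8), (3, 9), (4, 10)]],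
    [.rot 1 2, .ren [(0, 10), (10, 4), (4, 8), (8, 2), (2, 9), (9, 3), (3, 7), (7, 1), (1, 11), (11, 5), (5, 6)]],
    [.rot 0 3, .rot 1 1, .rot 2 2, .ren [(0, 8), (8, 2), (2, 7), (7, 1), (1, 9), (9, 3), (3, 11), (11, 5), (5, 10), (10, 4), (4, 6)]],
    [.rot 0 1, .rot 2 3, .ren [(0, 6), (1, 10), (10, 4), (4, 7), (2, 8), (3, 9), (5, 11)]],
    [.rot 0 3, .rot 1 3, .rot 2 2, .ren [(0, 10), (10, 4), (4, 11), (11, 5), (5, 9), (9, 3), (3, 7), (7, 1), (1, 8), (8, 2), (2, 6)]],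
    [.rot 0 1, .rot 1 2, .rot 2 1, .ren [(0, 8), (8, 2), (2, 10), (10, 4), (4, 9), (9, 3), (3, 11), (11, 5), (5, 7), (7, 1), (1, 6)]],
    [.rot 0 3, .rot 1 3, .rot 2 2, .ren [(1, 4), (2, 5)]],
    [.rot 1 1, .rot 2 3, .ren [(0, 4), (4, 5), (1, 2), (2, 3)]],
    [.rot 1 2, .rot 2 2, .ren [(0, 2), (2, 1), (3, 5), (5, 4)]],
    [.rot 0 3, .rot 1 3, .ren [(0, 9), (9, 3), (3, 6), (1, 7), (2, 8), (4, 10), (5, 11)]],
    [.rot 0 2, .rot 1 1, .rot 2 3, .ren [(0, 7), (7, 1), (1, 11), (11, 5), (5, 9), (9, 3), (3, 10), (10, 4), (4, 8), (8, 2), (2, 6)]],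
    [.rot 0 2, .ren [(0, 11), (11, 5), (5, 7), (7, 1), (1, 9), (9, 3), (3, 8), (8, 2), (2, 10), (10, 4), (4, 6)]],
    [.rot 0 1, .rot 1 2, .rot 2 3, .ren [(0, 3), (2, 5)]],
    [.rot 0 3, .rot 1 3, .ren [(0, 1), (1, 5), (2, 3), (3, 4)]],
    [.rot 0 1, .rot 2 1, .ren [(0, 5), (5, 4), (1, 3), (3, 2)]],
    [.rot 0 2, .rot 1 1, .rot 2 1, .ren [(0, 3), (1, 4)]],
    [.rot 0 2, .rot 2 2, .ren [(0, 1), (1, 2), (3, 4), (4, 5)]],
    [.rot 0 3, .rot 1 1, .ren [(0, 5), (5, 1), (2, 4), (4, 3)]],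
    [.rot 0 2, .rot 1 2, .rot 2 2, .ren [(0, 9), (9, 3), (3, 6), (1, 10), (10, 4), (4, 7), (2, 11), (11, 5), (5, 8)]],
    [.rot 0 1, .rot 2 1, .ren [(0, 7), (7, 1), (1, 8), (8, 2), (2, 9), (9, 3), (3, 10), (10, 4), (4, 11), (11, 5), (5, 6)]],
    [.rot 1 3, .rot 2 3, .ren [(0, 11), (11, 5), (5, 10), (10, 4), (4, 9), (9, 3), (3, 8), (8, 2), (2, 7), (7, 1), (1, 6)]]]

/-- cancelling a braid and its inverse -/
def cancelSteps : List Step :=
    [.reid [(0, [.inl ⟨0, true, true⟩, .inl ⟨1, false, false⟩, .inl ⟨3, true, false⟩, .inl ⟨4, false, true⟩, .inl ⟨10, false, false⟩, .inl ⟨9, true, true⟩, .inl ⟨7, false, true⟩, .inl ⟨6, true, false⟩, .inr 2]),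
      (1, [.inl ⟨0, false, true⟩, .inl ⟨2, true, true⟩, .inl ⟨3, false, false⟩, .inr 0, .inl ⟨9, false, true⟩, .inl ⟨8, true, false⟩, .inl ⟨6, false, false⟩]),
      (2, [.inl ⟨1, true, false⟩, .inl ⟨2, false, true⟩, .inl ⟨4, true, true⟩, .inr 1, .inl ⟨10, true, false⟩, .inl ⟨8, false, false⟩, .inl ⟨7, true, true⟩])]
      (.r2 5 11 false true) true,
    .reid [(0, [.inl ⟨0, true, true⟩, .inl ⟨1, false, false⟩, .inl ⟨3, true, false⟩, .inr 1, .inl ⟨9, true, true⟩, .inl ⟨7, false, true⟩, .inl ⟨6, true, false⟩, .inr 2]),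
      (1, [.inl ⟨0, false, true⟩, .inl ⟨2, true, true⟩, .inl ⟨3, false, false⟩, .inl ⟨9, false, true⟩, .inl ⟨8, true, false⟩, .inl ⟨6, false, false⟩]),
      (2, [.inl ⟨1, true, false⟩, .inl ⟨2, false, true⟩, .inr 0, .inl ⟨8, false, false⟩, .inl ⟨7, true, true⟩])]
      (.r2 4 10 true true) true,
    .reid [(0, [.inl ⟨0, true, true⟩, .inl ⟨1, false, false⟩, .inr 0, .inl ⟨7, false, true⟩, .inl ⟨6, true, false⟩, .inr 2]),
      (1, [.inl ⟨0, false, true⟩, .inl ⟨2, true, true⟩, .inr 1, .inl ⟨8, true, false⟩, .inl ⟨6, false, false⟩]),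
      (2, [.inl ⟨1, true, false⟩, .inl ⟨2, false, true⟩, .inl ⟨8, false, false⟩, .inl ⟨7, true, true⟩])]
      (.r2 3 9 false true) true,
    .reid [(0, [.inl ⟨0, true, true⟩, .inl ⟨1, false, false⟩, .inl ⟨7, false, true⟩, .inl ⟨6, true, false⟩, .inr 2]),
      (1, [.inl ⟨0, false, true⟩, .inr 0, .inl ⟨6, false, false⟩]),
      (2, [.inl ⟨1, true, false⟩, .inr 1, .inl ⟨7, true, true⟩])]
      (.r2 2 8 true true) true,
    .reid [(0, [.inl ⟨0, true, true⟩, .inr 1, .inl ⟨6, true, false⟩, .inr 2]),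
      (1, [.inl ⟨0, false, true⟩, .inl ⟨6, false, false⟩]),
      (2, [.inr 0])]
      (.r2 1 7 false true) true,
    .reid [(0, [.inr 0, .inr 2]),
      (1, [.inr 1]),
      (2, [])]
      (.r2 0 6 true true) true]

def wk : Word := [⟨0, true, true⟩, ⟨1, false, false⟩, ⟨3, true, false⟩, ⟨4, false, true⟩]

def wa : Word := [⟨0, false, true⟩, ⟨2, true, true⟩, ⟨3, false, false⟩, ⟨5, true, false⟩]

def wb : Word := [⟨1, true, false⟩, ⟨2, false, true⟩, ⟨4, true, true⟩, ⟨5, false, false⟩]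

def wk' : Word := [⟨10, false, false⟩, ⟨9, true, true⟩, ⟨7, false, true⟩, ⟨6, true, false⟩]

def wa' : Word := [⟨11, true, true⟩, ⟨9, false, true⟩, ⟨8, true, false⟩, ⟨6, false, false⟩]

def wb' : Word := [⟨11, false, true⟩, ⟨10, true, false⟩, ⟨8, false, false⟩, ⟨7, true, true⟩]

lemma mem_zip_of_mem {α β : Type} {x : α} : ∀ {l : List α} {s : List β},
    l.length = s.length → x ∈ l → ∃ y, (x, y) ∈ l.zip s
  | [], _, _, h => absurd h List.not_mem_nil
  | _ :: _, [], h, _ => by simp at h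
  | a :: l, b :: s, h, hx => by
    rcases List.mem_cons.1 hx with h1 | h1
    · subst h1; exact ⟨b, List.mem_cons_self⟩
    · obtain ⟨y, hy⟩ := mem_zip_of_mem (l := l) (s := s) (by simpa using h) h1
      exact ⟨y, List.mem_cons_of_mem _ hy⟩

lemma choiceSteps_ok : ((choices borromean).zip choiceSteps).all (fun p =>
    planarB (tagL p.1) && (runB p.2 (tagL p.1) (tagL borromean) ||
      runB p.2 (tagL p.1) (tagL bm))) = true := by decide +kernel

theorem choices_iso : ∀ L ∈ choices borromean, Isotopic borromean L := by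
  intro L hL
  obtain ⟨s, hs⟩ := mem_zip_of_mem (s := choiceSteps) (by decide +kernel) hL
  have h := List.all_eq_true.1 choiceSteps_ok _ hs
  rw [Bool.and_eq_true, Bool.or_eq_true] at h
  rcases h.2 with h2 | h2
  · exact (isotopic_of_run h.1 h2).symm
  · exact Relation.EqvGen.trans _ _ _ iso_bm ((isotopic_of_run h.1 h2).symm)

lemma cancel_ok : planarB [(0, wk ++ wk'), (1, wa ++ wa'), (2, wb ++ wb')] = true ∧
    runB cancelSteps [(0, wk ++ wk'), (1, wa ++ wa'), (2, wb ++ wb')]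
      [(2, []), (1, []), (0, [])] = true := by
  constructor <;> decide +kernel

lemma planar_join2 : planarB [(2, wb), (2, wb'), (0, wk ++ wk'), (1, wa ++ wa')] = true := by
  decide +kernel

lemma planar_join1 : planarB [(1, wa), (1, wa'), (0, wk ++ wk'), (2, wb), (2, wb')] = true := by
  decide +kernel

theorem null_double : Null false ((wk ++ wk') :: [wa, wb, wa', wb']) := by
  set χ0 : ℕ → ℤ := fun _ => 0 with hχ0
  set o0 : ℕ → Bool := fun _ => true with ho0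
  have b0 : Bounds 0 χ0 o0 := Bounds.empty _ _
  have b1 := Bounds.death 0 true b0 (by simp)
  have b2 := Bounds.death 1 true b1 (by simp)
  have b3 := Bounds.death 2 true b2 (by simp)
  have hc := (bounds_iso (χ := Function.update (Function.update (Function.update χ0 0 1) 1 1) 2 1)
    (o := Function.update (Function.update (Function.update o0 0 true) 1 true) 2 true)
    (run_sound (planar_of_planarB cancel_ok.1) cancel_ok.2)).2 b3
  have e2 : (([(0, wk ++ wk'), (1, wa ++ wa'), (2, wb ++ wb')] : LD) : Multiset (ℕ × Word)) =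
      (2, wb ++ wb') ::ₘ (([(0, wk ++ wk'), (1, wa ++ wa')] : LD) : Multiset (ℕ × Word)) :=
    Multiset.coe_eq_coe.2 (by decide)
  rw [e2] at hc
  have b4 := Bounds.join 2 wb wb' hc (planar_of_planarB planar_join2)
  have e1 : (2, wb) ::ₘ (2, wb') ::ₘ
      (([(0, wk ++ wk'), (1, wa ++ wa')] : LD) : Multiset (ℕ × Word)) =
      (1, wa ++ wa') ::ₘ
      (([(0, wk ++ wk'), (2, wb), (2, wb')] : LD) : Multiset (ℕ × Word)) :=
    Multiset.coe_eq_coe.2 (by decide)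
  rw [e1] at b4
  have b5 := Bounds.join 1 wa wa' b4 (planar_of_planarB planar_join1)
  have e0 : (1, wa) ::ₘ (1, wa') ::ₘ
      (([(0, wk ++ wk'), (2, wb), (2, wb')] : LD) : Multiset (ℕ × Word)) =
      (0, wk ++ wk') ::ₘ
      (([(1, wa), (2, wb), (1, wa'), (2, wb')] : LD) : Multiset (ℕ × Word)) :=
    Multiset.coe_eq_coe.2 (by decide)
  rw [e0] at b5
  refine ⟨_, _, _, _, rfl, rfl, b5, ?_, ?_, ?_⟩
  · simp
  · simp
  · intro c hc
    have hc' : c = 1 ∨ c = 2 := by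
      simp at hc
      tauto
    rcases hc' with rfl | rfl
    · refine ⟨by decide, by simp, Or.inl ⟨by simp [ho0], by decide⟩⟩
    · refine ⟨by decide, by simp, Or.inl ⟨by simp [ho0], by decide⟩⟩

theorem multiple_double : Multiple (Isotopic borromean) 2
    ((wk ++ wk') :: [wa, wb, wa', wb']) := by
  have h1 : Isotopic borromean (wk :: [wa, wb]) := Relation.EqvGen.refl _
  have h2 : Isotopic borromean (wk' :: [wa', wb']) := iso_bm
  have m1 := Multiple.succ Multiple.zero h1 (by decide)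
  exact Multiple.succ m1 h2 (by decide)

theorem borromean_two {L : Code} (hL : L ∈ choices borromean) :
    ZeroMarked L 2 := by
  have hi := choices_iso L hL
  have key : ∀ {P Q : Code → Prop}, (∀ D, P D → Q D) → ∀ {n : ℕ} {M : Code},
      Multiple P n M → Multiple Q n M := by
    intro P Q h n M hM
    induction hM with
    | zero => exact Multiple.zero
    | succ _ h2 h3 ih => exact Multiple.succ ih (h _ h2) h3
  exact ⟨_, key (fun D hD => Relation.EqvGen.trans _ _ _ hi.symm hD) multiple_double,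
    null_double⟩

end Pool.Agent.Helper64.Chi
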