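import Mathlib
import Pool.Agent.Helper64.Chi.Eval

/-!
# Nonexistence of surfaces
-/

set_option autoImplicit false

namespace Pool.Agent.Helper64.Chi

section
variable {R : Type} [CommRing R]

/-! ### invisible components -/

/-- the visible components, with new classes -/
def visD (P : ℕ → Prop) [DecidablePred P] (f : ℕ → ℕ) (D : Diagram) : Diagram :=
  (D.filter fun p => P p.1).map fun p => (f p.1, p.2)

def visS (P : ℕ → Prop) [DecidablePred P] (f : ℕ → ℕ) (S : Deco R) : Deco R :=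
  (S.filter fun p => P p.1.1).map fun p => ((f p.1.1, p.1.2), p.2)

variable {P : ℕ → Prop} [DecidablePred P] {f : ℕ → ℕ} {col col' : ℕ → Color}

lemma visD_cons_pos (p : ℕ × Word) (D : Diagram) (h : P p.1) :
    visD P f (p ::ₘ D) = (f p.1, p.2) ::ₘ visD P f D := by
  unfold visD
  rw [Multiset.filter_cons_of_pos (p := fun q : ℕ × Word => P q.1) _ h, Multiset.map_cons]

lemma visD_cons_neg (p : ℕ × Word) (D : Diagram) (h : ¬ P p.1) :
    visD P f (p ::ₘ D) = visD P f D := by
  unfold visD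
  rw [Multiset.filter_cons_of_neg (p := fun q : ℕ × Word => P q.1) _ h]

omit [CommRing R] in
lemma visS_cons_pos (p : (ℕ × Word) × (ℤ × R)) (S : Deco R) (h : P p.1.1) :
    visS P f (p ::ₘ S) = ((f p.1.1, p.1.2), p.2) ::ₘ visS P f S := by
  unfold visS
  rw [Multiset.filter_cons_of_pos (p := fun q : (ℕ × Word) × (ℤ × R) => P q.1.1) _ h,
    Multiset.map_cons]

omit [CommRing R] in
lemma visS_cons_neg (p : (ℕ × Word) × (ℤ × R)) (S : Deco R) (h : ¬ P p.1.1) :
    visS P f (p ::ₘ S) = visS P f S := by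
  unfold visS
  rw [Multiset.filter_cons_of_neg (p := fun q : (ℕ × Word) × (ℤ × R) => P q.1.1) _ h]

lemma visS_fst (S : Deco R) : (visS P f S).map Prod.fst = visD P f (S.map Prod.fst) := by
  induction S using Multiset.induction_on with
  | empty => rfl
  | cons p S ih =>
    by_cases h : P p.1.1
    · rw [visS_cons_pos p S h, Multiset.map_cons, Multiset.map_cons, visD_cons_pos _ _ h, ih]
    · rw [visS_cons_neg p S h, Multiset.map_cons, visD_cons_neg _ _ h, ih]

lemma env_vis (h1 : ∀ c, P c → col' (f c) = col c) (h2 : ∀ c, ¬ P c → col c = .O)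
    (D : Diagram) : env col' (visD P f D) = env col D := by
  induction D using Multiset.induction_on with
  | empty => rfl
  | cons p D ih =>
    by_cases h : P p.1
    · rw [visD_cons_pos p D h, env_cons, env_cons, ih]
      simp only [h1 _ h]
    · rw [visD_cons_neg p D h, env_cons, ih]
      simp only [h2 _ h, reduceCtorEq, if_false, zero_add]

lemma lvs_vis (h1 : ∀ c, P c → col' (f c) = col c) (h2 : ∀ c, ¬ P c → col c = .O)
    (e : Env) (S : Deco R) : lvs col' e (visS P f S) = lvs col e S := by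
  induction S using Multiset.induction_on with
  | empty => rfl
  | cons p S ih =>
    by_cases h : P p.1.1
    · rw [visS_cons_pos p S h, lvs_cons, lvs_cons, ih]
      simp only [h1 _ h]
    · rw [visS_cons_neg p S h, lvs_cons, ih, h2 _ h, scan_O, Multiset.coe_nil, zero_add]

lemma Psi_vis (h1 : ∀ c, P c → col' (f c) = col c) (h2 : ∀ c, ¬ P c → col c = .O)
    (S : Deco R) : Psi col' (visS P f S) = Psi col S := by
  unfold Psi
  rw [visS_fst, env_vis h1 h2, lvs_vis h1 h2]

lemma flows_vis (h1 : ∀ c, P c → col' (f c) = col c) (h2 : ∀ c, ¬ P c → col c = .O)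
    (D : Diagram) (h : ∀ q ∈ flows R col' (visD P f D), q.2 = 0) :
    ∀ q ∈ flows R col D, q.2 = 0 := by
  intro q hq
  obtain ⟨p, hp, rfl⟩ := Multiset.mem_map.1 hq
  by_cases hP : P p.1
  · have := h (f p.1, DS R (col' (f p.1)) (env col' (visD P f D)) p.2) (Multiset.mem_map.2
      ⟨(f p.1, p.2), Multiset.mem_map.2 ⟨p, Multiset.mem_filter.2 ⟨hp, hP⟩, rfl⟩, rfl⟩)
    rw [env_vis h1 h2, h1 _ hP] at this
    exact this
  · simp only [h2 _ hP, DS_O]

/-! ### one class of unmarked components, coloured `J` -/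

/-- the marked component and unmarked components -/
def VD (k : Word) (B : Multiset Word) : Diagram := (0, k) ::ₘ B.map fun w => (1, w)

lemma tag_eq (k : Word) (A : List Word) : tag (k :: A) = VD k (A : Multiset Word) := rfl

theorem no_bounds {k : Word} {E : Diagram} {χ : ℕ → ℤ} {o : ℕ → Bool}
    (h : Bounds ((0, k) ::ₘ E) χ o) (hχ : χ 0 = 1) (ho : o 0 = true)
    (hE : ∀ c ∈ E.map Prod.fst, c ≠ 0) (Q : ℕ → Prop) [DecidablePred Q]
    (hQ : ∀ c ∈ E.map Prod.fst, Q c → (o c = true ∨ (2 : R) = 0) ∧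
      (2 - χ c - ((E.map Prod.fst).count c : ℤ) = 0 ∨
        (o c = false ∧ 2 - χ c - ((E.map Prod.fst).count c : ℤ) ≤ 1)))
    {r : R} (hg : GoodVal R (VD k ((E.filter fun p => Q p.1).map Prod.snd)) r) : r = 0 := by
  classical
  set col : ℕ → Color := fun c => if c = 0 then .K else if Q c then .J else .O with hcol
  have h1 : ∀ c, (c = 0 ∨ Q c) → vcol (if c = 0 then 0 else 1) = col c := by
    intro c hc
    simp only [hcol]
    by_cases h0 : c = 0
    · simp [h0, vcol]
    · have : Q c := hc.resolve_left h0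
      simp [h0, this, vcol]
  have h2 : ∀ c, ¬ (c = 0 ∨ Q c) → col c = .O := by
    intro c hc
    push Not at hc
    simp only [hcol, if_neg hc.1, if_neg hc.2]
  have h0 : (0 : ℕ) ∉ E.map Prod.fst := fun h' => hE 0 h' rfl
  have hcount0 : (cls ((0, k) ::ₘ E)).count 0 = 1 := by
    rw [cls, Multiset.map_cons, Multiset.count_cons_self, Multiset.count_eq_zero_of_notMem h0]
  have hcount : ∀ c ∈ E.map Prod.fst, (cls ((0, k) ::ₘ E)).count c =
      (E.map Prod.fst).count c := by
    intro c hc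
    rw [cls, Multiset.map_cons, Multiset.count_cons_of_ne (hE c hc)]
  have hmem : ∀ c ∈ cls ((0, k) ::ₘ E), c = 0 ∨ c ∈ E.map Prod.fst := by
    intro c hc
    rw [cls, Multiset.map_cons] at hc
    exact Multiset.mem_cons.1 hc
  have hcK : ∀ c, col c = .K → c = 0 := by
    intro c hc
    by_contra h'
    simp only [hcol, if_neg h'] at hc
    split_ifs at hc
  have hcJ : ∀ c, col c = .J → c ≠ 0 ∧ Q c := by
    intro c hc
    by_cases h' : c = 0
    · simp only [hcol, if_pos h'] at hc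
      cases hc
    · refine ⟨h', ?_⟩
      by_contra h''
      simp only [hcol, if_neg h', if_neg h''] at hc
      cases hc
  have hG : Good R col χ o (cls ((0, k) ::ₘ E)) := by
    refine ⟨⟨?_, ?_⟩, ?_, ?_⟩
    · intro c _ hc
      rw [hcK c hc]; exact ho
    · intro c hc hc'
      obtain ⟨h3, h4⟩ := hcJ c hc'
      exact (hQ c ((hmem c hc).resolve_left h3) h4).1
    · intro c _ hc
      rw [hcK c hc, hχ, hcount0]; norm_num
    · intro c hc hc'
      obtain ⟨h3, h4⟩ := hcJ c hc'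
      have h5 := (hmem c hc).resolve_left h3
      rw [hcount c h5]
      exact (hQ c h5 h4).2
  have hV : visD (fun c => c = 0 ∨ Q c) (fun c => if c = 0 then 0 else 1) ((0, k) ::ₘ E) =
      VD k ((E.filter fun p => Q p.1).map Prod.snd) := by
    rw [visD_cons_pos _ _ (Or.inl rfl)]
    unfold VD visD
    rw [Multiset.map_map]
    have h3 : (E.filter fun p => p.1 = 0 ∨ Q p.1) = E.filter fun p => Q p.1 := by
      apply Multiset.filter_congr
      intro p hp
      have := hE p.1 (Multiset.mem_map_of_mem _ hp)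
      simp [this]
    rw [h3]
    congr 1
    apply Multiset.map_congr rfl
    intro p hp
    have := hE p.1 (Multiset.mem_map_of_mem _ (Multiset.mem_of_mem_filter hp))
    simp [this]
  have hz : ∀ q ∈ flows R col ((0, k) ::ₘ E), q.2 = 0 := by
    apply flows_vis h1 h2
    rw [hV]
    exact hg.1
  obtain ⟨S, hS, hP⟩ := exists_deco h col hG hz
  have h3 := hP 0
  rw [shift_zero, ← Psi_vis h1 h2] at h3
  rw [← h3]
  refine (hg.2 _ ?_).symm
  rw [visS_fst, hS, hV]

/-! ### connected sums -/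

omit [CommRing R] in
lemma map_fst_add {D1 D2 : Diagram} {S : Deco R} (h : S.map Prod.fst = D1 + D2) :
    ∃ S1 S2, S = S1 + S2 ∧ S1.map Prod.fst = D1 ∧ S2.map Prod.fst = D2 := by
  induction D1 using Multiset.induction_on generalizing S with
  | empty => exact ⟨0, S, by simp, rfl, by simpa using h⟩
  | cons p D ih =>
    rw [Multiset.cons_add] at h
    obtain ⟨a, S', rfl, ha, hS'⟩ := map_cons_split h
    obtain ⟨S1, S2, rfl, h1, h2⟩ := ih hS'
    exact ⟨a ::ₘ S1, S2, by rw [Multiset.cons_add], by rw [Multiset.map_cons, ha, h1], h2⟩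

lemma lvs_add (col : ℕ → Color) (e : Env) (S S' : Deco R) :
    lvs col e (S + S') = lvs col e S + lvs col e S' := by
  unfold lvs; rw [Multiset.add_bind]

lemma lvs_congr (col : ℕ → Color) {e e' : Env} {S : Deco R}
    (h : ∀ p ∈ S, ∀ v ∈ p.1.2, e.k v.x = e'.k v.x ∧ e.j v.x = e'.j v.x) :
    lvs col e S = lvs col e' S := by
  unfold lvs
  apply Multiset.bind_congr
  intro p hp
  rw [scan_congr _ (h p hp)]

lemma mem_lvs {col : ℕ → Color} {e : Env} {S : Deco R} {a : LV R} (h : a ∈ lvs col e S) :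
    ∃ p ∈ S, a.2.1 ∈ p.1.2 := by
  obtain ⟨p, hp, hq⟩ := Multiset.mem_bind.1 h
  exact ⟨p, hp, (mem_scan (Multiset.mem_coe.1 hq)).2⟩

lemma goodVal_K (k : Word) : GoodVal R (VD k 0) 0 := by
  have hj : ∀ x, (env vcol (VD k 0)).j x = 0 := by
    intro x
    simp [env, VD, vcol]
  have hdS : ∀ v, dS R .K (env vcol (VD k 0)) v = 0 := by
    intro v
    simp [dS, dN, dM, hj]
  have hDS : ∀ w, DS R .K (env vcol (VD k 0)) w = 0 := by
    intro w
    induction w with
    | nil => rfl
    | cons v w ih => rw [DS_cons, ih, hdS, add_zero]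
  have hscan : ∀ (w : Word) (s : ℤ × R), ∀ a ∈ scan .K (env vcol (VD k 0)) w s,
      a.1 = .K ∧ a.2.2 = s := by
    intro w
    induction w with
    | nil => intro s a ha; simp at ha
    | cons v w ih =>
      intro s a ha
      rw [scan_cons, if_neg (by decide), hdS, add_zero] at ha
      rcases List.mem_cons.1 ha with h | h
      · rw [h]; exact ⟨rfl, rfl⟩
      · exact ih s a h
  have hv0 : vcol 0 = .K := rfl
  refine ⟨?_, ?_⟩
  · intro q hq
    have hq' : q ∈ (0, DS R (vcol 0) (env vcol (VD k 0)) k) ::ₘ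
      (0 : Multiset (ℕ × (ℤ × R))) := hq
    rw [hv0, hDS] at hq'
    rcases Multiset.mem_cons.1 hq' with h | h
    · rw [h]
    · exact absurd h (Multiset.notMem_zero _)
  · intro S hS
    have hS' : S.map Prod.fst = (0, k) ::ₘ 0 := hS
    obtain ⟨⟨p, s⟩, S1, rfl, hp, hS1⟩ := map_cons_split hS'
    rw [Multiset.map_eq_zero] at hS1
    simp only at hp
    subst hp hS1
    unfold Psi
    rw [hS, lvs_cons, hv0]
    unfold pair
    apply Multiset.sum_eq_zero
    intro y hy
    obtain ⟨a, ha, rfl⟩ := Multiset.mem_map.1 hy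
    apply Multiset.sum_eq_zero
    intro z hz
    obtain ⟨b, hb, rfl⟩ := Multiset.mem_map.1 hz
    have hl : lvs vcol (env vcol (VD k 0)) (0 : Deco R) = 0 := rfl
    rw [hl, add_zero] at ha hb
    obtain ⟨ha1, ha2⟩ := hscan k s a (Multiset.mem_coe.1 ha)
    obtain ⟨hb1, hb2⟩ := hscan k s b (Multiset.mem_coe.1 hb)
    unfold theta
    split_ifs
    · rw [ha1, hb1, ha2, hb2]
      simp [psi]
    · rfl

lemma cnt_zero' {x : ℕ} {o : Bool} {B : Multiset Word} (h : ∀ w ∈ B, ∀ v ∈ w, v.x ≠ x) :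
    (B.map (cnt x o)).sum = 0 := by
  apply Multiset.sum_eq_zero
  intro y hy
  obtain ⟨w, hw, rfl⟩ := Multiset.mem_map.1 hy
  exact cnt_eq_zero (h w hw)

lemma env_VD_k (k : Word) (B : Multiset Word) (x : ℕ) :
    (env vcol (VD k B)).k x = cnt x true k := by
  simp [env, VD, vcol]

lemma env_VD_j (k : Word) (B : Multiset Word) (x : ℕ) :
    (env vcol (VD k B)).j x = (B.map (cnt x false)).sum := by
  simp [env, VD, vcol]

theorem goodVal_add {k k' : Word} {B B' : Multiset Word} {r r' : R}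
    (hk : ∀ v ∈ k, (∀ v' ∈ k', v.x ≠ v'.x) ∧ ∀ w' ∈ B', ∀ v' ∈ w', v.x ≠ v'.x)
    (hB : ∀ w ∈ B, ∀ v ∈ w, (∀ v' ∈ k', v.x ≠ v'.x) ∧ ∀ w' ∈ B', ∀ v' ∈ w', v.x ≠ v'.x)
    (h1 : GoodVal R (VD k B) r) (h2 : GoodVal R (VD k' B') r') :
    GoodVal R (VD (k ++ k') (B + B')) (r + r') := by
  set e := env vcol (VD (k ++ k') (B + B')) with he
  set e1 := env vcol (VD k B) with he1
  set e2 := env vcol (VD k' B') with he2
  have hek : ∀ x, e.k x = cnt x true k + cnt x true k' := by
    intro x; rw [he, env_VD_k, cnt_append]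
  have hej : ∀ x, e.j x = (B.map (cnt x false)).sum + (B'.map (cnt x false)).sum := by
    intro x; rw [he, env_VD_j, Multiset.map_add, Multiset.sum_add]
  have hx1 : ∀ x, (∀ v' ∈ k', x ≠ v'.x) → (∀ w' ∈ B', ∀ v' ∈ w', x ≠ v'.x) →
      e.k x = e1.k x ∧ e.j x = e1.j x := by
    intro x hx hx'
    rw [hek, hej, he1, env_VD_k, env_VD_j, cnt_eq_zero (fun v hv => (hx v hv).symm),
      cnt_zero' (fun w hw v hv => (hx' w hw v hv).symm), add_zero, add_zero]
    exact ⟨rfl, rfl⟩
  have hx2 : ∀ x, (∀ v ∈ k, v.x ≠ x) → (∀ w ∈ B, ∀ v ∈ w, v.x ≠ x) →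
      e.k x = e2.k x ∧ e.j x = e2.j x := by
    intro x hx hx'
    rw [hek, hej, he2, env_VD_k, env_VD_j, cnt_eq_zero hx,
      cnt_zero' hx', zero_add, zero_add]
    exact ⟨rfl, rfl⟩
  have hk1 : ∀ v ∈ k, e.k v.x = e1.k v.x ∧ e.j v.x = e1.j v.x :=
    fun v hv => hx1 v.x (hk v hv).1 (hk v hv).2
  have hB1 : ∀ w ∈ B, ∀ v ∈ w, e.k v.x = e1.k v.x ∧ e.j v.x = e1.j v.x :=
    fun w hw v hv => hx1 v.x (hB w hw v hv).1 (hB w hw v hv).2
  have hk2 : ∀ v ∈ k', e.k v.x = e2.k v.x ∧ e.j v.x = e2.j v.x :=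
    fun v hv => hx2 v.x (fun u hu => (hk u hu).1 v hv) (fun w hw u hu => (hB w hw u hu).1 v hv)
  have hB2 : ∀ w ∈ B', ∀ v ∈ w, e.k v.x = e2.k v.x ∧ e.j v.x = e2.j v.x :=
    fun w' hw' v hv => hx2 v.x (fun u hu => (hk u hu).2 w' hw' v hv)
      (fun w hw u hu => (hB w hw u hu).2 w' hw' v hv)
  have hv0 : vcol 0 = .K := rfl
  have hv1 : vcol 1 = .J := rfl
  have hDk : DS R .K e k = 0 := by
    rw [DS_congr hk1]
    exact h1.1 (0, DS R (vcol 0) e1 k) (Multiset.mem_map.2
      ⟨(0, k), Multiset.mem_cons_self _ _, rfl⟩)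
  have hDk' : DS R .K e k' = 0 := by
    rw [DS_congr hk2]
    exact h2.1 (0, DS R (vcol 0) e2 k') (Multiset.mem_map.2
      ⟨(0, k'), Multiset.mem_cons_self _ _, rfl⟩)
  have hDB : ∀ w ∈ B, DS R .J e w = 0 := by
    intro w hw
    rw [DS_congr (hB1 w hw)]
    exact h1.1 (1, DS R (vcol 1) e1 w) (Multiset.mem_map.2 ⟨(1, w),
      Multiset.mem_cons_of_mem (Multiset.mem_map_of_mem _ hw), rfl⟩)
  have hDB' : ∀ w ∈ B', DS R .J e w = 0 := by
    intro w hw
    rw [DS_congr (hB2 w hw)]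
    exact h2.1 (1, DS R (vcol 1) e2 w) (Multiset.mem_map.2 ⟨(1, w),
      Multiset.mem_cons_of_mem (Multiset.mem_map_of_mem _ hw), rfl⟩)
  refine ⟨?_, ?_⟩
  · intro q hq
    unfold flows at hq
    rw [← he] at hq
    obtain ⟨p, hp, rfl⟩ := Multiset.mem_map.1 hq
    unfold VD at hp
    rcases Multiset.mem_cons.1 hp with h | h
    · subst h
      simp only [hv0]
      rw [DS_append, hDk, hDk', add_zero]
    · obtain ⟨w, hw, rfl⟩ := Multiset.mem_map.1 h
      simp only [hv1]
      rcases Multiset.mem_add.1 hw with h3 | h3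
      · exact hDB w h3
      · exact hDB' w h3
  · intro S hS
    have hS' : S.map Prod.fst = (0, k ++ k') ::ₘ (B.map (fun w => (1, w)) +
      B'.map fun w => (1, w)) := by
      rw [hS]; unfold VD; rw [Multiset.map_add]
    obtain ⟨⟨p, s⟩, S0, rfl, hp, hS0⟩ := map_cons_split hS'
    simp only at hp
    subst hp
    obtain ⟨S1, S2, rfl, hS1, hS2⟩ := map_fst_add hS0
    have hm1 : (((0, k), s) ::ₘ S1).map Prod.fst = VD k B := by
      rw [Multiset.map_cons, hS1]; rfl
    have hm2 : (((0, k'), s) ::ₘ S2).map Prod.fst = VD k' B' := by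
      rw [Multiset.map_cons, hS2]; rfl
    have hP1 := h1.2 _ hm1
    have hP2 := h2.2 _ hm2
    have hin1 : ∀ p ∈ S1, p.1.2 ∈ B := by
      intro p hp
      have : p.1 ∈ S1.map Prod.fst := Multiset.mem_map_of_mem _ hp
      rw [hS1] at this
      obtain ⟨w, hw, hw'⟩ := Multiset.mem_map.1 this
      rw [← hw']; exact hw
    have hin2 : ∀ p ∈ S2, p.1.2 ∈ B' := by
      intro p hp
      have : p.1 ∈ S2.map Prod.fst := Multiset.mem_map_of_mem _ hp
      rw [hS2] at this
      obtain ⟨w, hw, hw'⟩ := Multiset.mem_map.1 this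
      rw [← hw']; exact hw
    have hl : lvs vcol e (((0, k ++ k'), s) ::ₘ (S1 + S2)) =
        lvs vcol e1 (((0, k), s) ::ₘ S1) + lvs vcol e2 (((0, k'), s) ::ₘ S2) := by
      rw [lvs_cons, lvs_cons, lvs_cons, lvs_add]
      simp only [hv0]
      rw [scan_append, hDk, add_zero, ← Multiset.coe_add, scan_congr s hk1, scan_congr s hk2,
        lvs_congr vcol (e := e) (e' := e1) (S := S1) (fun p hp => hB1 _ (hin1 p hp)),
        lvs_congr vcol (e := e) (e' := e2) (S := S2) (fun p hp => hB2 _ (hin2 p hp))]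
      abel
    have hx : ∀ a ∈ lvs vcol e1 (((0, k), s) ::ₘ S1), ∀ b ∈ lvs vcol e2 (((0, k'), s) ::ₘ S2),
        a.2.1.x ≠ b.2.1.x := by
      intro a ha b hb
      obtain ⟨p, hp, hp'⟩ := mem_lvs ha
      obtain ⟨q, hq, hq'⟩ := mem_lvs hb
      rcases Multiset.mem_cons.1 hp with h | h
      · subst h
        rcases Multiset.mem_cons.1 hq with h' | h'
        · subst h'; exact (hk _ hp').1 _ hq'
        · exact (hk _ hp').2 _ (hin2 q h') _ hq'
      · rcases Multiset.mem_cons.1 hq with h' | h'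
        · subst h'; exact (hB _ (hin1 p h) _ hp').1 _ hq'
        · exact (hB _ (hin1 p h) _ hp').2 _ (hin2 q h') _ hq'
    unfold Psi at hP1 hP2 ⊢
    rw [hS, ← he, hl, pair_add_left, pair_add_right, pair_add_right,
      pair_eq_zero hx, pair_eq_zero (fun a ha b hb => (hx b hb a ha).symm)]
    rw [hm1] at hP1
    rw [hm2] at hP2
    rw [hP1, hP2]
    ring

end

end Pool.Agent.Helper64.Chi
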