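import Mathlib
import Pool.Agent.Helper64.Chi.NonEx
import Pool.Agent.Helper64.Chi.EvalWh
import Pool.Agent.Helper64.Chi.EvalBo

/-!
# Multiples of the Whitehead link and the Borromean rings
-/

set_option autoImplicit false

namespace Pool.Agent.Helper64.Chi

lemma Multiple.mono {P Q : Code → Prop} (h : ∀ D, P D → Q D) {n : ℕ} {M : Code}
    (hM : Multiple P n M) : Multiple Q n M := by
  induction hM with
  | zero => exact Multiple.zero
  | succ _ h2 h3 ih => exact Multiple.succ ih (h _ h2) h3

lemma Null.mono {L : Code} (h : Null false L) : Null true L := by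
  obtain ⟨k, E, χ, o, h1, h2, h3, h4, h5, h6⟩ := h
  refine ⟨k, E, χ, o, h1, h2, h3, h4, h5, fun c hc => ?_⟩
  obtain ⟨h7, h8, h9⟩ := h6 c hc
  refine ⟨h7, h8, ?_⟩
  rcases h9 with h9 | h9
  · exact Or.inl h9
  · exact Or.inr ⟨rfl, h9.2⟩

theorem multiple_whitehead {n : ℕ} {M : Code}
    (h : Multiple (fun D => ∃ L' ∈ choices whitehead, Isotopic L' D) n M) :
    ∃ k A, M = k :: A ∧ A.length = n ∧ ∀ (R : Type) [CommRing R] (B : Multiset Word),
      B ≤ (A : Multiset Word) → GoodVal R (VD k B) ((Multiset.card B : ℕ) : R) := by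
  induction h with
  | zero =>
    refine ⟨[], [], rfl, rfl, fun R _ B hB => ?_⟩
    have hB0 : B = 0 := by simpa using hB
    subst hB0
    simpa using goodVal_K (R := R) []
  | @succ n k k' A A' h1 h2 h3 ih =>
    obtain ⟨k0, A0, h4, h5, h6⟩ := ih
    obtain ⟨rfl, rfl⟩ := List.cons.inj h4
    obtain ⟨L', hL', hiso⟩ := h2
    have hlen : ∀ L ∈ choices whitehead, L.length = 2 := by decide +kernel
    have hl := isotopic_length hiso
    rw [hlen L' hL', List.length_cons] at hl
    have hl' : A'.length = 1 := by omega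
    obtain ⟨a', rfl⟩ := List.length_eq_one_iff.1 hl'
    refine ⟨k ++ k', A ++ [a'], rfl, by simp [h5], fun R _ B hB => ?_⟩
    have hg : GoodVal R (VD k' {a'}) 1 := (goodVal_isotopic hiso).1 (good_whitehead L' hL')
    have hB' : B ≤ a' ::ₘ (A : Multiset Word) := by
      refine hB.trans (le_of_eq ?_)
      rw [← Multiset.coe_add, add_comm]
      rfl
    have hx : ∀ v ∈ (k :: A).flatten, ∀ v' ∈ ([k', a'] : List Word).flatten, v.x ≠ v'.x := h3
    have hxk : ∀ v ∈ k, (∀ v' ∈ k', v.x ≠ v'.x) ∧ ∀ v' ∈ a', v.x ≠ v'.x := by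
      intro v hv
      have hv' : v ∈ (k :: A).flatten := by simp [hv]
      exact ⟨fun v' h7 => hx v hv' v' (by simp [h7]), fun v' h7 => hx v hv' v' (by simp [h7])⟩
    have hxA : ∀ w ∈ A, ∀ v ∈ w, (∀ v' ∈ k', v.x ≠ v'.x) ∧ ∀ v' ∈ a', v.x ≠ v'.x := by
      intro w hw v hv
      have hv' : v ∈ (k :: A).flatten := by
        rw [List.flatten_cons, List.mem_append, List.mem_flatten]
        exact Or.inr ⟨w, hw, hv⟩
      exact ⟨fun v' h7 => hx v hv' v' (by simp [h7]), fun v' h7 => hx v hv' v' (by simp [h7])⟩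
    by_cases ha : a' ∈ B
    · obtain ⟨B1, rfl⟩ := Multiset.exists_cons_of_mem ha
      have hB1 : B1 ≤ (A : Multiset Word) := (Multiset.cons_le_cons_iff a').1 hB'
      have := goodVal_add (R := R) (k := k) (k' := k') (B := B1) (B' := {a'})
        (fun v hv => ⟨(hxk v hv).1, fun w' hw' v' hv' => by
          rw [Multiset.mem_singleton] at hw'; subst hw'; exact (hxk v hv).2 v' hv'⟩)
        (fun w hw v hv => ⟨(hxA w (Multiset.mem_coe.1 (Multiset.mem_of_le hB1 hw)) v hv).1,
          fun w' hw' v' hv' => by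
          rw [Multiset.mem_singleton] at hw'; subst hw'
          exact (hxA w (Multiset.mem_coe.1 (Multiset.mem_of_le hB1 hw)) v hv).2 v' hv'⟩)
        (h6 R B1 hB1) hg
      rw [add_comm B1, Multiset.singleton_add] at this
      rw [Multiset.card_cons]
      push_cast
      exact this
    · have hB1 : B ≤ (A : Multiset Word) := (Multiset.le_cons_of_notMem ha).1 hB'
      have := goodVal_add (R := R) (k := k) (k' := k') (B := B) (B' := 0)
        (fun v hv => ⟨(hxk v hv).1, fun w' hw' => absurd hw' (Multiset.notMem_zero _)⟩)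
        (fun w hw v hv => ⟨(hxA w (Multiset.mem_coe.1 (Multiset.mem_of_le hB1 hw)) v hv).1,
          fun w' hw' => absurd hw' (Multiset.notMem_zero _)⟩)
        (h6 R B hB1) (goodVal_K k')
      rw [add_zero, add_zero] at this
      exact this

theorem not_null_whitehead {n : ℕ} (hn : 1 ≤ n) {M : Code}
    (h : Multiple (fun D => ∃ L' ∈ choices whitehead, Isotopic L' D) n M) : ¬ Null true M := by
  intro hN
  obtain ⟨k0, A, rfl, hA, hg⟩ := multiple_whitehead h
  obtain ⟨k, E, χ, o, h1, h2, h3, h4, h5, h6⟩ := hN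
  have hk : k0 = k := by simpa using h1
  subst hk
  have hE : E.map Prod.snd = (A : Multiset Word) := by simpa using h2
  have hcard : 1 ≤ E.card := by
    rw [← Multiset.card_map Prod.snd, hE, Multiset.coe_card, hA]; exact hn
  obtain ⟨p, hp⟩ := Multiset.card_pos_iff_exists_mem.1 hcard
  have hpc : p.1 ∈ E.map Prod.fst := Multiset.mem_map_of_mem _ hp
  obtain ⟨h7, h8, h9⟩ := h6 p.1 hpc
  have hB : (E.filter fun q => q.1 = p.1).map Prod.snd ≤ (A : Multiset Word) := by
    rw [← hE]
    exact Multiset.map_le_map (Multiset.filter_le _ _)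
  have hBc : Multiset.card ((E.filter fun q => q.1 = p.1).map Prod.snd) =
      (E.map Prod.fst).count p.1 := by
    rw [Multiset.card_map, Multiset.count_map]
    congr 1
    apply Multiset.filter_congr
    intro q _
    exact eq_comm
  rcases h9 with ⟨h10, h11⟩ | ⟨-, h10, h11⟩
  · have hg' := hg ℤ _ hB
    rw [hBc, h11] at hg'
    have := no_bounds (R := ℤ) h3 h4 h5 (fun c hc => (h6 c hc).1) (fun c => c = p.1)
      (by
        intro c hc hc'
        subst hc'
        refine ⟨Or.inl h10, Or.inl ?_⟩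
        rw [h8, h11]; norm_num) hg'
    norm_num at this
  · have hg' := hg (ZMod 2) _ hB
    rw [hBc, h11] at hg'
    have := no_bounds (R := ZMod 2) h3 h4 h5 (fun c hc => (h6 c hc).1) (fun c => c = p.1)
      (by
        intro c hc hc'
        subst hc'
        refine ⟨Or.inr (by decide), Or.inr ⟨h10, ?_⟩⟩
        rw [h8, h11]; norm_num) hg'
    revert this
    decide

theorem not_null_borromean {M : Code}
    (h : Multiple (fun D => ∃ L' ∈ choices borromean, Isotopic L' D) 1 M) : ¬ Null true M := by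
  intro hN
  cases h with
  | @succ n k0 k' A A' h1 h2 h3 =>
    cases h1
    obtain ⟨L', hL', hiso⟩ := h2
    have hg : GoodVal (ZMod 2) (VD k' (A' : Multiset Word)) 1 :=
      (goodVal_isotopic hiso).1 (good_borromean L' hL')
    obtain ⟨k, E, χ, o, h4, h5, h6, h7, h8, h9⟩ := hN
    have hk : k' = k := by simpa using h4
    subst hk
    have hE : E.map Prod.snd = (A' : Multiset Word) := by simpa using h5
    have hf : (E.filter fun p => (fun _ : ℕ => True) p.1) = E := by simp
    have := no_bounds (R := ZMod 2) h6 h7 h8 (fun c hc => (h9 c hc).1) (fun _ => True)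
      (r := 1) (by
        intro c hc _
        refine ⟨Or.inr (by decide), ?_⟩
        obtain ⟨-, h10, h11⟩ := h9 c hc
        rcases h11 with ⟨h11, h12⟩ | ⟨-, h11, h12⟩
        · left; rw [h10, h12]; norm_num
        · right; refine ⟨h11, ?_⟩; rw [h10, h12]; norm_num) (by
        rw [hf, hE]; exact hg)
    revert this
    decide

lemma reorientOthers_whitehead : ∀ L ∈ choices whitehead, ∀ L' ∈ reorientOthers L,
    L' ∈ choices whitehead := by decide +kernel

lemma reorientOthers_borromean : ∀ L ∈ choices borromean, ∀ L' ∈ reorientOthers L,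
    L' ∈ choices borromean := by decide +kernel

theorem whitehead_infinite {L : Code} (hL : L ∈ choices whitehead) {n : ℕ} (hn : 1 ≤ n) :
    ¬ ZeroMarked L n ∧ ¬ ZeroPartly L n := by
  constructor
  · rintro ⟨M, hM, hN⟩
    exact not_null_whitehead hn (hM.mono fun D hD => ⟨L, hL, hD⟩) hN.mono
  · rintro ⟨M, hM, hN⟩
    exact not_null_whitehead hn (hM.mono fun D ⟨L', h1, h2⟩ =>
      ⟨L', reorientOthers_whitehead L hL L' h1, h2⟩) hN

theorem borromean_one {L : Code} (hL : L ∈ choices borromean) :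
    ¬ ZeroMarked L 1 ∧ ¬ ZeroPartly L 1 := by
  constructor
  · rintro ⟨M, hM, hN⟩
    exact not_null_borromean (hM.mono fun D hD => ⟨L, hL, hD⟩) hN.mono
  · rintro ⟨M, hM, hN⟩
    exact not_null_borromean (hM.mono fun D ⟨L', h1, h2⟩ =>
      ⟨L', reorientOthers_borromean L hL L' h1, h2⟩) hN

lemma zeroPartly_of_zeroMarked {L : Code} (hL : L ∈ choices borromean) {n : ℕ}
    (h : ZeroMarked L n) : ZeroPartly L n := by
  have hr : ∀ L ∈ choices borromean, L ∈ reorientOthers L := by decide +kernel
  obtain ⟨M, hM, hN⟩ := h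
  exact ⟨M, hM.mono fun D hD => ⟨L, hr L hL, hD⟩, hN.mono⟩

end Pool.Agent.Helper64.Chi
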